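import Pool.Agent.Helper68.CStar.Defs

namespace Pool.Agent.CStar

open Set Matroid

variable {α : Type*}

/-- natural-number valued rank -/
noncomputable def rk (M : Matroid α) (X : Set α) : ℕ := (M.eRk X).toNat

section rank

variable {M : Matroid α} [M.RankFinite]

lemma cast_rk (X : Set α) : ((rk M X : ℕ) : ℕ∞) = M.eRk X := by
  unfold rk
  exact ENat.natCast_toNat (by rw [eRk_ne_top_iff]; exact RankFinite.isRkFinite X)

lemma rk_mono {X Y : Set α} (h : X ⊆ Y) : rk M X ≤ rk M Y := by
  have := M.eRk_mono h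
  rw [← cast_rk, ← cast_rk] at this
  exact_mod_cast this

lemma rk_submod (X Y : Set α) : rk M (X ∩ Y) + rk M (X ∪ Y) ≤ rk M X + rk M Y := by
  have := M.eRk_inter_add_eRk_union_le X Y
  rw [← cast_rk, ← cast_rk, ← cast_rk, ← cast_rk] at this
  exact_mod_cast this

/-- convenient form of submodularity -/
lemma rk_submod' {X Y U I : Set α} (hU : U ⊆ X ∪ Y) (hIX : I ⊆ X) (hIY : I ⊆ Y) :
    rk M I + rk M U ≤ rk M X + rk M Y := by
  have h1 := rk_submod (M := M) X Y
  have h2 : rk M I ≤ rk M (X ∩ Y) := rk_mono (subset_inter hIX hIY)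
  have h3 : rk M U ≤ rk M (X ∪ Y) := rk_mono hU
  omega

lemma rk_empty : rk M ∅ = 0 := by
  simp [rk]

lemma rk_union_le (X Y : Set α) : rk M (X ∪ Y) ≤ rk M X + rk M Y := by
  have := rk_submod (M := M) X Y
  omega

lemma rk_le_ncard {X : Set α} (hX : X.Finite) : rk M X ≤ X.ncard := by
  have := M.eRk_le_encard X
  rw [← cast_rk, ← hX.cast_ncard_eq] at this
  exact_mod_cast this

lemma rk_insert_le (x : α) (X : Set α) : rk M (insert x X) ≤ rk M X + 1 := by
  have := M.eRk_insert_le_add_one x X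
  rw [← cast_rk, ← cast_rk] at this
  exact_mod_cast this

lemma rk_singleton_le (x : α) : rk M {x} ≤ 1 := by
  have := M.eRk_singleton_le x
  rw [← cast_rk] at this
  exact_mod_cast this

lemma rk_insert_of_mem_closure {x : α} {X : Set α} (h : x ∈ M.closure X) :
    rk M (insert x X) = rk M X := by
  apply le_antisymm _ (rk_mono (subset_insert _ _))
  have h1 : M.eRk (insert x X) ≤ M.eRk (M.closure X) := by
    rw [← M.eRk_insert_closure_eq x X, insert_eq_of_mem h]
  rw [M.eRk_closure_eq, ← cast_rk, ← cast_rk] at h1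
  exact_mod_cast h1

lemma mem_closure_of_rk {x : α} {X : Set α} (hx : x ∈ M.E)
    (h : rk M (insert x X) ≤ rk M X) : x ∈ M.closure X := by
  by_contra hcon
  have h1 := M.eRk_insert_eq_add_one (e := x) (X := X) ⟨hx, hcon⟩
  rw [← cast_rk, ← cast_rk] at h1
  have h2 : rk M (insert x X) = rk M X + 1 := by exact_mod_cast h1
  omega

lemma rk_restrict {R X : Set α} (h : X ⊆ R) : rk (M ↾ R) X = rk M X := by
  unfold rk
  rw [M.restrict_eRk_eq h]

lemma rk_delete {D X : Set α} (h : Disjoint X D) : rk (M ＼ D) X = rk M X := by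
  unfold rk
  rw [delete_eq_restrict, M.restrict_eRk_eq', ← M.eRk_inter_ground X]
  congr 2
  ext y
  constructor
  · rintro ⟨h1, h2, -⟩; exact ⟨h1, h2⟩
  · rintro ⟨h1, h2⟩; exact ⟨h1, h2, fun h3 => h.le_bot ⟨h1, h3⟩⟩

lemma rk_nullity_mono {X Y : Set α} (hXY : X ⊆ Y) (hY : Y.Finite) :
    X.ncard + rk M Y ≤ Y.ncard + rk M X := by
  have h1 : rk M (X ∪ (Y \ X)) ≤ rk M X + rk M (Y \ X) := rk_union_le _ _
  rw [union_sdiff_cancel hXY] at h1
  have h2 : rk M (Y \ X) ≤ (Y \ X).ncard := rk_le_ncard (hY.subset sdiff_subset)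
  have h3 := ncard_sdiff_add_ncard_of_subset hXY hY
  omega

end rank

variable {M : Matroid α}

lemma rk_contract [M.RankFinite] (C X : Set α) : rk (M ／ C) X + rk M C = rk M (X ∪ C) := by
  obtain ⟨I, hI⟩ := M.exists_isBasis' C
  obtain ⟨B, hB, hIB⟩ := hI.indep.subset_isBasis'_of_subset (hI.subset.trans (subset_union_right (s := X)))
  have h1 := hB.contract_isBasis'_sdiff_of_subset hIB
  have hBC : B ∩ C ⊆ I := by
    intro y hy
    by_contra hyI
    have hins : M.Indep (insert y I) := hB.indep.subset (insert_subset hy.1 hIB)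
    have := hI.insert_not_indep ⟨hy.2, hyI⟩
    exact this hins
  have e1 : (M ／ C).eRk X = (B \ I).encard := by
    rw [hI.contract_eq_contract_delete]
    apply le_antisymm
    · rw [← h1.eRk_eq_encard, delete_eq_restrict, restrict_eRk_eq']
      exact eRk_mono _ (inter_subset_left.trans subset_union_left)
    · have hind : (M ／ I ＼ (C \ I)).Indep (B \ I) := by
        rw [delete_indep_iff]
        refine ⟨h1.indep, ?_⟩
        rw [disjoint_left]
        rintro y ⟨hy1, hy2⟩ ⟨hy3, -⟩
        exact hy2 (hBC ⟨hy1, hy3⟩)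
      refine hind.encard_le_eRk_of_subset ?_
      rintro y ⟨hy1, hy2⟩
      rcases hB.subset hy1 with h | h
      · exact h
      · exact absurd (hBC ⟨hy1, h⟩) hy2
  have e2 : M.eRk C = I.encard := hI.eRk_eq_encard
  have e3 : M.eRk (X ∪ C) = B.encard := hB.eRk_eq_encard
  have e4 : (B \ I).encard + I.encard = B.encard := encard_sdiff_add_encard_of_subset hIB
  have : (M ／ C).eRk X + M.eRk C = M.eRk (X ∪ C) := by rw [e1, e2, e3, e4]
  have hfin : (M ／ C).eRk X ≠ ⊤ := by
    intro h
    rw [h, top_add, ← cast_rk] at this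
    exact (ENat.natCast_ne_top _) this.symm
  have hc : ((rk (M ／ C) X : ℕ) : ℕ∞) = (M ／ C).eRk X := ENat.natCast_toNat hfin
  rw [← hc, ← cast_rk, ← cast_rk] at this
  exact_mod_cast this


lemma circuit_join [M.Finite] (n : ℕ) : ∀ (C₁ C₂ : Set α) (x z : α), (C₁ ∪ C₂).ncard ≤ n →
    M.IsCircuit C₁ → M.IsCircuit C₂ → x ∈ C₁ → z ∈ C₂ → (C₁ ∩ C₂).Nonempty →
    ∃ C, M.IsCircuit C ∧ x ∈ C ∧ z ∈ C := by
  induction n using Nat.strong_induction_on with
  | _ n ih =>
    intro C₁ C₂ x z hn h1 h2 hx hz hne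
    by_cases hx2 : x ∈ C₂
    · exact ⟨C₂, h2, hx2, hz⟩
    by_cases hz1 : z ∈ C₁
    · exact ⟨C₁, h1, hx, hz1⟩
    obtain ⟨y, hy1, hy2⟩ := hne
    have hfin : (C₁ ∪ C₂).Finite :=
      M.ground_finite.subset (union_subset h1.subset_ground h2.subset_ground)
    obtain ⟨C₃, hs3, h3, hx3⟩ := h1.strong_elimination h2 hy1 hy2 hx hx2
    obtain ⟨C₄, hs4, h4, hz4⟩ := h2.strong_elimination h1 hy2 hy1 hz hz1
    -- C₃ meets C₂
    have h3n : ¬ C₃ ⊆ C₁ := by
      intro h
      have := h3.eq_of_subset_isCircuit h1 h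
      have hy3 : y ∈ C₃ := by rw [this]; exact hy1
      exact (hs3 hy3).2 rfl
    have h4n : ¬ C₄ ⊆ C₂ := by
      intro h
      have := h4.eq_of_subset_isCircuit h2 h
      have hy4 : y ∈ C₄ := by rw [this]; exact hy2
      exact (hs4 hy4).2 rfl
    have lt_of : ∀ X : Set α, X ⊂ C₁ ∪ C₂ → X.ncard < n := fun X hX =>
      lt_of_lt_of_le (ncard_lt_ncard hX hfin) hn
    obtain ⟨u, hu3, hu1⟩ := not_subset.1 h3n
    have hu2 : u ∈ C₂ := by
      rcases (hs3 hu3).1 with h | h
      · exact absurd h hu1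
      · exact h
    by_cases hc : C₃ ∪ C₂ ⊂ C₁ ∪ C₂
    · exact ih _ (lt_of _ hc) C₃ C₂ x z le_rfl h3 h2 hx3 hz ⟨u, hu3, hu2⟩
    have hsub32 : C₃ ∪ C₂ ⊆ C₁ ∪ C₂ :=
      union_subset (hs3.trans sdiff_subset) subset_union_right
    have heq : C₃ ∪ C₂ = C₁ ∪ C₂ := by
      by_contra hne'
      exact hc (ssubset_of_subset_of_ne hsub32 hne')
    obtain ⟨v, hv4, hv2⟩ := not_subset.1 h4n
    have hv1 : v ∈ C₁ := by
      rcases (hs4 hv4).1 with h | h
      · exact absurd h hv2
      · exact h
    have hv3 : v ∈ C₃ := by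
      have : v ∈ C₃ ∪ C₂ := by rw [heq]; exact Or.inl hv1
      rcases this with h | h
      · exact h
      · exact absurd h hv2
    have hlt : C₃ ∪ C₄ ⊂ C₁ ∪ C₂ := by
      refine ssubset_of_subset_of_ne (union_subset (hs3.trans sdiff_subset) ?_) ?_
      · rw [union_comm C₁ C₂]; exact hs4.trans sdiff_subset
      · intro h
        have : y ∈ C₃ ∪ C₄ := by rw [h]; exact Or.inl hy1
        rcases this with h' | h'
        · exact (hs3 h').2 rfl
        · exact (hs4 h').2 rfl
    exact ih _ (lt_of _ hlt) C₃ C₄ x z le_rfl h3 h4 hx3 hz4 ⟨v, hv3, hv4⟩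

lemma CommonCircuit.symm {x y : α} (h : CommonCircuit M x y) : CommonCircuit M y x := by
  obtain ⟨C, hC, hx, hy⟩ := h
  exact ⟨C, hC, hy, hx⟩

lemma CommonCircuit.trans [M.Finite] {x y z : α} (h : CommonCircuit M x y)
    (h' : CommonCircuit M y z) : CommonCircuit M x z := by
  obtain ⟨C, hC, hx, hy⟩ := h
  obtain ⟨D, hD, hy', hz⟩ := h'
  exact circuit_join (M := M) _ C D x z le_rfl hC hD hx hz ⟨y, hy, hy'⟩

/-- a set meeting no circuit partially -/
def Closed (M : Matroid α) (U : Set α) : Prop :=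
  ∀ C, M.IsCircuit C → (C ∩ U).Nonempty → C ⊆ U

lemma IsComponent.subset {K : Set α} (h : IsComponent M K) : K ⊆ M.E := h.prop.1

lemma IsComponent.closed [M.Finite] {K : Set α} (h : IsComponent M K) : Closed M K := by
  intro C hC hne z hz
  obtain ⟨x, hxC, hxK⟩ := hne
  by_contra hzK
  have key : K ⊆ insert z K := subset_insert _ _
  have hP : insert z K ⊆ M.E ∧ (insert z K).Pairwise (CommonCircuit M) := by
    refine ⟨insert_subset (hC.subset_ground hz) h.prop.1, ?_⟩
    have hxz : CommonCircuit M x z := ⟨C, hC, hxC, hz⟩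
    rw [pairwise_insert]
    refine ⟨h.prop.2, ?_⟩
    intro b hb hbz
    have hbz' : CommonCircuit M b z := by
      by_cases hbx : b = x
      · rw [hbx]; exact hxz
      · exact (h.prop.2 hb hxK hbx).trans hxz
    exact ⟨hbz'.symm, hbz'⟩
  have := h.le_of_ge hP key
  exact hzK (this (mem_insert _ _))

lemma exists_component [M.Finite] {x : α} (hx : x ∈ M.E) : ∃ K, IsComponent M K ∧ x ∈ K := by
  have hfin : {K : Set α | K ⊆ M.E ∧ K.Pairwise (CommonCircuit M)}.Finite :=
    (M.ground_finite.finite_subsets).subset fun K hK => hK.1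
  have h0 : ({x} : Set α) ∈ {K : Set α | K ⊆ M.E ∧ K.Pairwise (CommonCircuit M)} :=
    ⟨singleton_subset_iff.2 hx, pairwise_singleton _ _⟩
  obtain ⟨K, hK, hmax⟩ := hfin.exists_le_maximal h0
  exact ⟨K, hmax, hK rfl⟩

lemma IsComponent.eq_of_mem [M.Finite] {K K' : Set α} (h : IsComponent M K)
    (h' : IsComponent M K') {x : α} (hx : x ∈ K) (hx' : x ∈ K') : K = K' := by
  have hP : K ∪ K' ⊆ M.E ∧ (K ∪ K').Pairwise (CommonCircuit M) := by
    refine ⟨union_subset h.prop.1 h'.prop.1, ?_⟩
    have aux : ∀ a ∈ K, ∀ b ∈ K', a ≠ b → CommonCircuit M a b := by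
      intro a ha b hb hab
      by_cases hax : a = x
      · subst hax
        exact h'.prop.2 hx' hb hab
      · by_cases hbx : b = x
        · subst hbx
          exact h.prop.2 ha hx hab
        · exact (h.prop.2 ha hx hax).trans (h'.prop.2 hx' hb (Ne.symm hbx))
    rintro a (ha | ha) b (hb | hb) hab
    · exact h.prop.2 ha hb hab
    · exact aux a ha b hb hab
    · exact (aux b hb a ha (Ne.symm hab)).symm
    · exact h'.prop.2 ha hb hab
  have e1 := h.le_of_ge hP subset_union_left
  have e2 := h'.le_of_ge hP subset_union_right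
  exact Subset.antisymm (subset_union_left.trans e2) (subset_union_right.trans e1)

lemma IsComponent.nonempty [M.Finite] (hE : M.E.Nonempty) {K : Set α} (h : IsComponent M K) :
    K.Nonempty := by
  by_contra hcon
  rw [not_nonempty_iff_eq_empty] at hcon
  obtain ⟨x, hx⟩ := hE
  have := h.le_of_ge (y := {x}) ⟨singleton_subset_iff.2 hx, pairwise_singleton _ _⟩
    (by rw [hcon]; exact empty_subset _)
  rw [hcon] at this
  exact this rfl


lemma rk_eq_of_closed [M.Finite] {U X : Set α} (hU : Closed M U) (hX : X ⊆ M.E) :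
    rk M X = rk M (X ∩ U) + rk M (X \ U) := by
  apply le_antisymm
  · have := rk_union_le (M := M) (X ∩ U) (X \ U)
    rwa [inter_union_sdiff] at this
  · obtain ⟨I, hI⟩ := M.exists_isBasis (X ∩ U) (inter_subset_left.trans hX)
    obtain ⟨J, hJ⟩ := M.exists_isBasis (X \ U) (sdiff_subset.trans hX)
    have hdisj : Disjoint I J := by
      rw [disjoint_left]
      intro y hy hy'
      exact (hJ.subset hy').2 (hI.subset hy).2
    have hind : M.Indep (I ∪ J) := by
      by_contra hcon
      have hsub : I ∪ J ⊆ M.E :=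
        union_subset (hI.indep.subset_ground) (hJ.indep.subset_ground)
      have hdep : M.Dep (I ∪ J) := ⟨hcon, hsub⟩
      obtain ⟨C, hCs, hC⟩ := hdep.exists_isCircuit_subset
      by_cases hne : (C ∩ U).Nonempty
      · have hCU := hU C hC hne
        have : C ⊆ I := by
          intro y hy
          rcases hCs hy with h | h
          · exact h
          · exact absurd (hCU hy) (hJ.subset h).2
        exact hC.not_indep (hI.indep.subset this)
      · have : C ⊆ J := by
          intro y hy
          rcases hCs hy with h | h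
          · exact absurd ⟨y, hy, (hI.subset h).2⟩ hne
          · exact h
        exact hC.not_indep (hJ.indep.subset this)
    have h1 : (I ∪ J).encard ≤ M.eRk X := by
      refine hind.encard_le_eRk_of_subset ?_
      refine union_subset (hI.subset.trans inter_subset_left) (hJ.subset.trans sdiff_subset)
    rw [encard_union_eq hdisj, hI.encard_eq_eRk, hJ.encard_eq_eRk, ← cast_rk, ← cast_rk,
      ← cast_rk] at h1
    exact_mod_cast h1

lemma circuit_subset_of_skew [M.Finite] {U V : Set α}
    (h : rk M U + rk M V ≤ rk M (U ∪ V)) {C : Set α} (hC : M.IsCircuit C)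
    (hCs : C ⊆ U ∪ V) : C ⊆ U ∨ C ⊆ V := by
  by_contra hcon
  rw [not_or, not_subset, not_subset] at hcon
  obtain ⟨⟨a, haC, haU⟩, ⟨b, hbC, hbV⟩⟩ := hcon
  have haV : a ∈ V := (hCs haC).resolve_left haU
  have hbU : b ∈ U := (hCs hbC).resolve_right hbV
  have hCfin : C.Finite := M.ground_finite.subset hC.subset_ground
  have h1 : M.Indep (C ∩ U) := hC.ssubset_indep
    (ssubset_of_subset_of_ne inter_subset_left (fun h => haU (h.ge haC).2))
  have h2 : M.Indep (C \ U) := hC.ssubset_indep
    (ssubset_of_subset_of_ne sdiff_subset (fun h => (h.ge hbC).2 hbU))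
  have e1 : rk M (C ∩ U) = (C ∩ U).ncard := by
    have := h1.eRk_eq_encard
    rw [← cast_rk, ← (hCfin.subset inter_subset_left).cast_ncard_eq] at this
    exact_mod_cast this
  have e2 : rk M (C \ U) = (C \ U).ncard := by
    have := h2.eRk_eq_encard
    rw [← cast_rk, ← (hCfin.subset sdiff_subset).cast_ncard_eq] at this
    exact_mod_cast this
  have e3 : rk M C + 1 = C.ncard := by
    have := hC.eRk_add_one_eq
    rw [← cast_rk, ← hCfin.cast_ncard_eq] at this
    exact_mod_cast this
  have e4 : (C ∩ U).ncard + (C \ U).ncard = C.ncard := ncard_inter_add_ncard_sdiff_eq_ncard C U hCfin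
  -- submodularity
  have hsub : C \ U ⊆ V := fun y hy => (hCs hy.1).resolve_left hy.2
  -- rk (C ∪ U) relations
  have s1 : rk M (C ∩ U) + rk M (U ∪ (C \ U)) ≤ rk M C + rk M U :=
    rk_submod' (by intro y hy; rcases hy with h | h; exact Or.inr h; exact Or.inl h.1)
      inter_subset_left inter_subset_right
  have s2 : rk M (C \ U) + rk M (U ∪ V) ≤ rk M (U ∪ (C \ U)) + rk M V :=
    rk_submod' (by
      intro y hy
      rcases hy with h | h
      · exact Or.inl (Or.inl h)
      · exact Or.inr h) subset_union_right hsub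
  omega

lemma closed_sUnion (F : Set (Set α)) (h : ∀ K ∈ F, Closed M K) : Closed M (⋃₀ F) := by
  intro C hC hne
  obtain ⟨x, hxC, K, hKF, hxK⟩ := hne
  exact (h K hKF C hC ⟨x, hxC, hxK⟩).trans (subset_sUnion_of_mem hKF)

lemma components_induction [M.Finite] (Q : Set α → Prop) (h0 : Q ∅)
    (hs : ∀ U K, U ⊆ M.E → Closed M (U ∪ K) → IsComponent M K → Disjoint U K → Q U → Q (U ∪ K)) :
    Q M.E := by
  classical
  have key : ∀ F : Finset (Set α), (∀ K ∈ F, IsComponent M K) → Q (⋃₀ (F : Set (Set α))) := by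
    intro F
    induction F using Finset.induction_on with
    | empty => intro _; simpa using h0
    | insert K F hKF ih =>
      intro hF
      have hF' : ∀ K ∈ F, IsComponent M K := fun K hK => hF K (Finset.mem_insert_of_mem hK)
      have hK : IsComponent M K := hF K (Finset.mem_insert_self _ _)
      have e : (⋃₀ ((insert K F : Finset (Set α)) : Set (Set α))) = ⋃₀ (F : Set (Set α)) ∪ K := by
        rw [Finset.coe_insert, sUnion_insert, union_comm]
      rw [e]
      refine hs _ _ ?_ ?_ hK ?_ (ih hF')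
      · exact sUnion_subset fun K' hK' => (hF' K' hK').subset
      · rw [← e]
        exact closed_sUnion _ (fun K' hK' => (hF K' hK').closed)
      · rw [disjoint_left]
        rintro x ⟨K', hK', hx'⟩ hx
        have := (hF' K' hK').eq_of_mem hK hx' hx
        exact hKF (this ▸ hK')
  have hfin : {K : Set α | IsComponent M K}.Finite :=
    (M.ground_finite.finite_subsets).subset fun K hK => IsComponent.subset hK
  have := key hfin.toFinset (fun K hK => by simpa using hK)
  have e : ⋃₀ ((hfin.toFinset : Finset (Set α)) : Set (Set α)) = M.E := by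
    rw [Finite.coe_toFinset]
    apply Subset.antisymm
    · exact sUnion_subset fun K hK => IsComponent.subset hK
    · intro x hx
      obtain ⟨K, hK, hxK⟩ := exists_component hx
      exact ⟨K, hK, hxK⟩
  rwa [e] at this


end Pool.Agent.CStar
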