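import Pool.Agent.Helper68.CStar.Basic

namespace Pool.Agent.CStar

open Set Matroid

variable {α : Type*}

lemma DepthLE.one_le {T : Matroid α → Matroid α → Prop} {M : Matroid α} {t : ℕ}
    (h : DepthLE T M t) : M.Finite → M.E.Nonempty → 1 ≤ t := by
  induction h with
  | single M t h1 ht => intro _ _; exact ht
  | comps M t hc hK ih =>
    intro hfin hne
    obtain ⟨x, hx⟩ := hne
    obtain ⟨K, hK', hxK⟩ := exists_component hx
    exact ih K hK' (restrict_finite (M.ground_finite.subset hK'.subset)) ⟨x, hxK⟩
  | step M M' t hc hne hTM hM' ih => intro _ _; omega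

lemma DepthLE.mono {T : Matroid α → Matroid α → Prop} {M : Matroid α} {t : ℕ}
    (h : DepthLE T M t) : ∀ t', t ≤ t' → DepthLE T M t' := by
  induction h with
  | single M t h1 ht => intro t' htt; exact DepthLE.single M t' h1 (ht.trans htt)
  | comps M t hc hK ih => intro t' htt; exact DepthLE.comps M t' hc (fun K hK' => ih K hK' t' htt)
  | step M M' t hc hne hTM hM' ih =>
    intro t' htt
    obtain ⟨s, rfl⟩ : ∃ s, t' = s + 1 := ⟨t' - 1, by omega⟩
    exact DepthLE.step M M' s hc hne hTM (ih s (by omega))

lemma rk_pos_of_nonloop {M : Matroid α} [M.Finite] {A : Set α} (hA : A ⊆ M.E)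
    (h : ∀ x ∈ A, x ∈ M.closure ∅) : rk M A = 0 := by
  have h1 : M.eRk A ≤ M.eRk (M.closure ∅) := M.eRk_mono (fun x hx => h x hx)
  rw [M.eRk_closure_eq, M.eRk_empty] at h1
  have h2 : M.eRk A = 0 := le_antisymm h1 (zero_le)
  unfold rk
  rw [h2]; rfl

/-- The arithmetic step of the potential lemma. -/
lemma arith_step {c a a' z z' n n' : ℕ} (h : a' + c * z' ≤ c * n') (ha : a ≤ a' + 1)
    (hn : n' + z ≤ z' + n + 1) (hpos : z < n) :
    a + (2 * c + 1) * z ≤ (2 * c + 1) * n := by
  have h1 : c * (n' + z) ≤ c * (z' + n + 1) := Nat.mul_le_mul_left c hn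
  have h2 : c * (z + 1) ≤ c * n := Nat.mul_le_mul_left c hpos
  nlinarith

/-- If `M` has cd-depth at most `t` and no element of `A ⊆ Z` is freed by deleting fewer
than `t` elements of `Z`, then `r(A) ≤ (2 ^ (t - 1) - 1) (|Z| - r(Z))`. -/
lemma potential {M : Matroid α} {t : ℕ} (h : DepthLE CDTrans M t) : M.Finite →
    ∀ Z A : Set α, A ⊆ Z → Z ⊆ M.E →
    (∀ S ⊆ Z, S.ncard < t → ∀ x ∈ A, x ∉ S → x ∈ M.closure (Z \ insert x S)) →
    rk M A + (2 ^ (t - 1) - 1) * rk M Z ≤ (2 ^ (t - 1) - 1) * Z.ncard := by
  induction h with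
  | single M t h1 ht =>
    intro hfin Z A hAZ hZ hrob
    have hA0 : rk M A = 0 := by
      apply rk_pos_of_nonloop (hAZ.trans hZ)
      intro x hx
      have := hrob ∅ (empty_subset _) (by rw [ncard_empty]; omega) x hx (notMem_empty x)
      have hE : M.E = {x} := by
        obtain ⟨y, hy⟩ := encard_eq_one.1 h1
        have hxy : x ∈ M.E := hZ (hAZ hx)
        rw [hy] at hxy ⊢
        rw [mem_singleton_iff.1 hxy]
      have hZ0 : Z \ insert x ∅ = ∅ := by
        rw [sdiff_eq_empty]
        intro y hy
        have : y ∈ M.E := hZ hy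
        rw [hE] at this
        exact Or.inl this
      rwa [hZ0] at this
    have hle : rk M Z ≤ Z.ncard := rk_le_ncard (M.ground_finite.subset hZ)
    rw [hA0, zero_add]
    exact Nat.mul_le_mul_left _ hle
  | comps M t hc hK ih =>
    intro hfin Z A hAZ hZ hrob
    have key := components_induction (M := M)
      (fun U => rk M (A ∩ U) + (2 ^ (t - 1) - 1) * rk M (Z ∩ U)
        ≤ (2 ^ (t - 1) - 1) * (Z ∩ U).ncard) (by simp [rk_empty]) ?_
    · rwa [inter_eq_self_of_subset_left hZ, inter_eq_self_of_subset_left (hAZ.trans hZ)] at key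
    · intro U K hU hcl hKc hdis hQ
      have hKfin : (M ↾ K).Finite := restrict_finite (M.ground_finite.subset hKc.subset)
      have hZKfin : (Z ∩ K).Finite := M.ground_finite.subset (inter_subset_left.trans hZ)
      have h1 := ih K hKc hKfin (Z ∩ K) (A ∩ K) (inter_subset_inter_left _ hAZ)
        (by exact inter_subset_right) ?_
      · rw [rk_restrict inter_subset_right, rk_restrict inter_subset_right] at h1
        have e1 : rk M (A ∩ (U ∪ K)) ≤ rk M (A ∩ U) + rk M (A ∩ K) := by
          rw [inter_union_distrib_left]; exact rk_union_le _ _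
        have e2 : rk M (Z ∩ (U ∪ K)) ≤ rk M (Z ∩ U) + rk M (Z ∩ K) := by
          rw [inter_union_distrib_left]; exact rk_union_le _ _
        have e3 : (Z ∩ (U ∪ K)).ncard = (Z ∩ U).ncard + (Z ∩ K).ncard := by
          rw [inter_union_distrib_left]
          apply ncard_union_eq _ (M.ground_finite.subset (inter_subset_left.trans hZ)) hZKfin
          exact hdis.mono inter_subset_right inter_subset_right
        have e4 := Nat.mul_le_mul_left (2 ^ (t - 1) - 1) e2
        rw [e3, Nat.mul_add]
        rw [Nat.mul_add] at e4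
        omega
      · intro S hS hcard x hx hxS
        have hx' := hrob S (hS.trans inter_subset_left) hcard x hx.1 hxS
        have hxn : x ∉ Z \ insert x S := fun hcon => hcon.2 (mem_insert _ _)
        obtain ⟨C, hCs, hC, hxC⟩ := exists_isCircuit_of_mem_closure hx' hxn
        have hCK : C ⊆ K := hKc.closed C hC ⟨x, hxC, hx.2⟩
        rw [restrict_closure_eq _ (sdiff_subset.trans inter_subset_right) hKc.subset]
        refine ⟨?_, hx.2⟩
        have h3 := hC.mem_closure_sdiff_singleton_of_mem hxC
        refine M.closure_subset_closure ?_ h3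
        rintro y ⟨hyC, hyx⟩
        rcases hCs hyC with h | h
        · exact absurd h hyx
        · exact ⟨⟨h.1, hCK hyC⟩, h.2⟩
  | step M M' t hc hne hTM hM' ih =>
    intro hfin Z A hAZ hZ hrob
    have hZfin : Z.Finite := M.ground_finite.subset hZ
    -- nonempty M'.E
    have hbig : ∀ e ∈ M.E, (M.E \ {e}).Nonempty := by
      intro e he
      by_contra hcon
      rw [not_nonempty_iff_eq_empty, sdiff_eq_empty] at hcon
      exact hne (encard_eq_one.2 ⟨e, Subset.antisymm hcon (singleton_subset_iff.2 he)⟩)
    have hE' : M'.E.Nonempty ∧ M'.Finite := by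
      rcases hTM with ⟨e, he, rfl⟩ | ⟨e, he, rfl⟩
      · exact ⟨hbig e he, inferInstance⟩
      · exact ⟨hbig e he, inferInstance⟩
    have hfin' : M'.Finite := hE'.2
    have ht : 1 ≤ t := hM'.one_le hfin' hE'.1
    have hpow : 2 ^ (t + 1 - 1) - 1 = 2 * (2 ^ (t - 1) - 1) + 1 := by
      obtain ⟨s, rfl⟩ : ∃ s, t = s + 1 := ⟨t - 1, by omega⟩
      have : 0 < 2 ^ s := by positivity
      simp only [Nat.add_sub_cancel, pow_succ]
      omega
    rw [hpow]
    -- trivial case
    by_cases hloops : ∀ x ∈ A, x ∈ M.closure ∅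
    · rw [rk_pos_of_nonloop (hAZ.trans hZ) hloops, zero_add]
      exact Nat.mul_le_mul_left _ (rk_le_ncard hZfin)
    push Not at hloops
    obtain ⟨x₀, hx₀A, hx₀⟩ := hloops
    have hnull : rk M Z < Z.ncard := by
      have h1 := hrob ∅ (empty_subset _) (by simp) x₀ hx₀A (notMem_empty _)
      rw [insert_empty_eq] at h1
      have h2 := rk_insert_of_mem_closure h1
      rw [insert_sdiff_singleton, insert_eq_of_mem (hAZ hx₀A)] at h2
      have h3 : rk M (Z \ {x₀}) ≤ (Z \ {x₀}).ncard := rk_le_ncard (hZfin.subset sdiff_subset)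
      have h4 := ncard_sdiff_singleton_add_one (hAZ hx₀A) hZfin
      omega
    rcases hTM with ⟨d, hd, rfl⟩ | ⟨d, hd, rfl⟩
    · -- contraction
      have hrk : ∀ X, rk (M ／ {d}) X + rk M {d} = rk M (X ∪ {d}) := rk_contract {d}
      have h1 := ih hfin' (Z \ {d}) (A \ {d}) (sdiff_subset_sdiff_left hAZ)
        (sdiff_subset_sdiff_left hZ) ?_
      · have ha : rk M A ≤ rk (M ／ {d}) (A \ {d}) + 1 := by
          have e1 := hrk (A \ {d})
          have e2 : rk M A ≤ rk M (A \ {d} ∪ {d}) := rk_mono (by
            rw [sdiff_union_self]; exact subset_union_left)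
          have e3 := rk_singleton_le (M := M) d
          omega
        have hn : (Z \ {d}).ncard + rk M Z ≤ rk (M ／ {d}) (Z \ {d}) + Z.ncard + 1 := by
          have e1 := hrk (Z \ {d})
          have e2 : rk M Z ≤ rk M (Z \ {d} ∪ {d}) := rk_mono (by
            rw [sdiff_union_self]; exact subset_union_left)
          have e3 := rk_singleton_le (M := M) d
          have e4 : (Z \ {d}).ncard ≤ Z.ncard := ncard_le_ncard sdiff_subset hZfin
          omega
        exact arith_step h1 ha hn hnull
      · intro S hS hcard x hx hxS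
        have h2 := hrob S (hS.trans sdiff_subset) (by omega) x hx.1 hxS
        rw [contract_closure_eq]
        refine ⟨M.closure_subset_closure ?_ h2, hx.2⟩
        rintro y ⟨hyZ, hyS⟩
        by_cases hyd : y = d
        · exact Or.inr hyd
        · exact Or.inl ⟨⟨hyZ, hyd⟩, hyS⟩
    · -- deletion
      have hdisj : ∀ X : Set α, Disjoint (X \ {d}) {d} := fun X => disjoint_sdiff_left
      have h1 := ih hfin' (Z \ {d}) (A \ {d}) (sdiff_subset_sdiff_left hAZ)
        (sdiff_subset_sdiff_left hZ) ?_
      · rw [rk_delete (hdisj _), rk_delete (hdisj _)] at h1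
        have ha : rk M A ≤ rk M (A \ {d}) + 1 := by
          have e2 : rk M A ≤ rk M (A \ {d} ∪ {d}) := rk_mono (by
            rw [sdiff_union_self]; exact subset_union_left)
          have e3 := rk_singleton_le (M := M) d
          have e4 := rk_union_le (M := M) (A \ {d}) {d}
          omega
        have hn : (Z \ {d}).ncard + rk M Z ≤ rk M (Z \ {d}) + Z.ncard + 1 := by
          have e5 := rk_nullity_mono (M := M) (X := Z \ {d}) (Y := Z) sdiff_subset hZfin
          omega
        exact arith_step h1 ha hn hnull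
      · intro S hS hcard x hx hxS
        have hxd : x ≠ d := hx.2
        have hins : insert d S ∩ Z ⊆ Z := inter_subset_right
        have hSfin : S.Finite := hZfin.subset (hS.trans sdiff_subset)
        have hc' : (insert d S ∩ Z).ncard < t + 1 := by
          have e1 : (insert d S ∩ Z).ncard ≤ (insert d S).ncard :=
            ncard_le_ncard inter_subset_left (hSfin.insert d)
          have e2 := ncard_insert_le d S
          omega
        have h2 := hrob (insert d S ∩ Z) hins hc' x hx.1 (by
          rintro ⟨h | h, -⟩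
          · exact hxd h
          · exact hxS h)
        rw [delete_closure_eq_of_disjoint _ (by
          rw [disjoint_left]
          rintro y ⟨⟨_, hy⟩, _⟩ hy'
          exact hy hy')]
        refine ⟨M.closure_subset_closure ?_ h2, hx.2⟩
        rintro y ⟨hyZ, hyS⟩
        refine ⟨⟨hyZ, ?_⟩, ?_⟩
        · intro hyd
          exact hyS (Or.inr ⟨Or.inl hyd, hyZ⟩)
        · rintro (h | h)
          · exact hyS (Or.inl h)
          · exact hyS (Or.inr ⟨Or.inr h, hyZ⟩)

end Pool.Agent.CStar
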