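import Pool.Agent.Helper68.CStar.Main
import Pool.Agent.Helper68.CStar.Potential

set_option linter.unusedVariables false

namespace Pool.Agent.CStar

open Set Matroid

variable {α : Type*}

/-- Five classes: three large ones and two singletons. -/
structure Parts (α : Type*) (r : ℕ) where
  Q : Fin 5 → Set α
  fin : ∀ c, (Q c).Finite
  disj : Pairwise (fun c d => Disjoint (Q c) (Q d))
  card0 : (Q 0).ncard = r + 9
  card1 : (Q 1).ncard = r + 9
  card2 : (Q 2).ncard = r + 9
  card3 : (Q 3).ncard = 1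
  card4 : (Q 4).ncard = 1

def Parts.E {r : ℕ} (D : Parts α r) : Set α := ⋃ c, D.Q c

lemma Parts.finE {r : ℕ} (D : Parts α r) : D.E.Finite := finite_iUnion D.fin

lemma Parts.cnt_le {r : ℕ} (D : Parts α r) (X : Set α) (c : Fin 5) : cnt D.Q X c ≤ (D.Q c).ncard :=
  ncard_le_ncard inter_subset_right (D.fin c)

/-- the class-size data of the main matroid -/
def Parts.data {r : ℕ} (D : Parts α r) : CData α where
  Q := D.Q
  fin := D.fin
  disj := D.disj
  I := fun a => 3 ≤ r → ind r (a 0) (a 1) (a 2) (a 3) (a 4)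
  zero := by
    intro hr
    simp only [ind, Pi.zero_apply]
    omega
  down := by
    intro a b hab hb hr
    have h0 : a 0 ≤ b 0 := hab 0
    have h1 : a 1 ≤ b 1 := hab 1
    have h2 : a 2 ≤ b 2 := hab 2
    have h3 : a 3 ≤ b 3 := hab 3
    have h4 : a 4 ≤ b 4 := hab 4
    have hb := hb hr
    simp only [ind] at hb ⊢
    obtain ⟨j1, j2, j3, j4, j5, j6, j7, j8, j9, j10⟩ := hb
    omega
  aug := by
    intro a b ha hb hlt
    by_cases hr : 3 ≤ r
    swap
    · obtain ⟨c, -, hc⟩ := Finset.exists_lt_of_sum_lt hlt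
      exact ⟨c, hc, fun h => absurd h hr⟩
    have ha := ha hr
    have hb := hb hr
    by_contra hcon
    push Not at hcon
    simp only [Fin.sum_univ_five] at hlt
    have g0 : a 0 < b 0 → ¬ ind r (a 0 + 1) (a 1) (a 2) (a 3) (a 4) := by
      intro h hI; apply (hcon 0 h).2; simpa [Function.update] using hI
    have g1 : a 1 < b 1 → ¬ ind r (a 0) (a 1 + 1) (a 2) (a 3) (a 4) := by
      intro h hI; apply (hcon 1 h).2; simpa [Function.update] using hI
    have g2 : a 2 < b 2 → ¬ ind r (a 0) (a 1) (a 2 + 1) (a 3) (a 4) := by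
      intro h hI; apply (hcon 2 h).2; simpa [Function.update] using hI
    have g3 : a 3 < b 3 → ¬ ind r (a 0) (a 1) (a 2) (a 3 + 1) (a 4) := by
      intro h hI; apply (hcon 3 h).2; simpa [Function.update] using hI
    have g4 : a 4 < b 4 → ¬ ind r (a 0) (a 1) (a 2) (a 3) (a 4 + 1) := by
      intro h hI; apply (hcon 4 h).2; simpa [Function.update] using hI
    have hb9 := hb.2.2.2.2.2.2.2.2.1
    exact not_blocked r _ _ _ _ _ _ _ _ _ _ (by omega) ha hb hlt
      (blocked_of r _ _ _ _ _ _ _ _ _ _ (by omega) hb.2.2.2.2.2.2.1 hb.2.2.2.2.2.2.2.1 ha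
        (by omega) g0 g1 g2 g3 g4)


/-- the main matroid -/
noncomputable def Parts.mat {r : ℕ} (D : Parts α r) : Matroid α := D.data.toMatroid

lemma Parts.mat_E {r : ℕ} (D : Parts α r) : D.mat.E = D.E := rfl

instance {r : ℕ} (D : Parts α r) : D.mat.Finite := by unfold Parts.mat; infer_instance

lemma Parts.mat_indep {r : ℕ} (hr : 3 ≤ r) (D : Parts α r) {X : Set α} :
    D.mat.Indep X ↔ X ⊆ D.E ∧
      ind r (cnt D.Q X 0) (cnt D.Q X 1) (cnt D.Q X 2) (cnt D.Q X 3) (cnt D.Q X 4) := by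
  unfold Parts.mat
  rw [CData.indep_iff]
  exact and_congr_right fun _ => ⟨fun h => h hr, fun h _ => h⟩

lemma Parts.mat_rk {r : ℕ} (hr : 3 ≤ r) (D : Parts α r) {X : Set α} (hX : X ⊆ D.E) :
    RkDesc r (cnt D.Q X 0) (cnt D.Q X 1) (cnt D.Q X 2) (cnt D.Q X 3) (cnt D.Q X 4)
      (rk D.mat X) := by
  obtain ⟨i, hI, hle, hmax, hrk⟩ := D.data.rk_char (X := X) hX
  have hI' : ind r (i 0) (i 1) (i 2) (i 3) (i 4) := hI hr
  refine ⟨i 0, i 1, i 2, i 3, i 4, hI', hle 0, hle 1, hle 2, hle 3, hle 4, ?_, ?_⟩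
  · by_cases hfull : i 0 + i 1 + i 2 + i 3 + i 4 = 3 * r - 2
    · exact Or.inl hfull
    right
    have h9 := hI'.2.2.2.2.2.2.2.2.1
    have c3 : cnt D.Q X 3 ≤ 1 := (D.cnt_le X 3).trans_eq D.card3
    have c4 : cnt D.Q X 4 ≤ 1 := (D.cnt_le X 4).trans_eq D.card4
    refine blocked_of r _ _ _ _ _ _ _ _ _ _ (by omega) c3 c4 hI' (by omega) ?_ ?_ ?_ ?_ ?_
    · intro h hI2; exact hmax 0 h (fun _ => by simpa [Function.update] using hI2)
    · intro h hI2; exact hmax 1 h (fun _ => by simpa [Function.update] using hI2)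
    · intro h hI2; exact hmax 2 h (fun _ => by simpa [Function.update] using hI2)
    · intro h hI2; exact hmax 3 h (fun _ => by simpa [Function.update] using hI2)
    · intro h hI2; exact hmax 4 h (fun _ => by simpa [Function.update] using hI2)
  · have : rk D.mat X = ∑ c, i c := hrk
    rw [this, Fin.sum_univ_five]

/-- A matroid `N` containing the main matroid as a restriction. -/
structure Cfg (N : Matroid α) (r : ℕ) extends Parts α r where
  sub : toParts.E ⊆ N.E
  desc : ∀ X ⊆ toParts.E, RkDesc r (cnt Q X 0) (cnt Q X 1) (cnt Q X 2) (cnt Q X 3) (cnt Q X 4)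
      (rk N X)

def Parts.cfg {r : ℕ} (hr : 3 ≤ r) (D : Parts α r) {N : Matroid α} [N.Finite] (h : D.mat ≤r N) :
    Cfg N r where
  toParts := D
  sub := h.subset
  desc := by
    intro X hX
    have h1 := D.mat_rk hr hX
    obtain ⟨R, hR, hM⟩ := h.exists_eq_restrict
    have hRE : R = D.E := by
      rw [← D.mat_E, hM]; rfl
    have : rk D.mat X = rk N X := by
      rw [hM, rk_restrict]
      rw [hRE]; exact hX
    rwa [this] at h1

end Pool.Agent.CStar
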