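import Pool.Agent.Helper68.CStar.Basic

namespace Pool.Agent.CStar

open Set Matroid

variable {α : Type*}

/-- number of elements of `X` in class `c` -/
noncomputable def cnt (Q : Fin 5 → Set α) (X : Set α) (c : Fin 5) : ℕ := (X ∩ Q c).ncard

variable {Q : Fin 5 → Set α}

lemma cnt_empty : cnt Q ∅ = 0 := by
  funext c; simp [cnt]

lemma cnt_mono (hfin : ∀ c, (Q c).Finite) {X Y : Set α} (h : X ⊆ Y) : cnt Q X ≤ cnt Q Y := by
  intro c
  exact ncard_le_ncard (inter_subset_inter_left _ h) ((hfin c).subset inter_subset_right)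

lemma cnt_insert (hfin : ∀ c, (Q c).Finite) (hdisj : Pairwise (fun c d => Disjoint (Q c) (Q d)))
    {X : Set α} {x : α} {c : Fin 5} (hx : x ∈ Q c) (hxX : x ∉ X) :
    cnt Q (insert x X) = Function.update (cnt Q X) c (cnt Q X c + 1) := by
  funext d
  by_cases hd : d = c
  · subst hd
    rw [Function.update_self]
    unfold cnt
    rw [insert_inter_of_mem hx]
    exact ncard_insert_of_notMem (fun h => hxX h.1) ((hfin d).subset inter_subset_right)
  · rw [Function.update_of_ne hd]
    unfold cnt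
    rw [insert_inter_of_notMem]
    intro h
    exact (hdisj hd).le_bot ⟨h, hx⟩

lemma sum_update_succ (a : Fin 5 → ℕ) (c : Fin 5) :
    ∑ d, Function.update a c (a c + 1) d = ∑ d, a d + 1 := by
  have := Finset.sum_update_of_mem (Finset.mem_univ c) a (a c + 1)
  rw [this, ← Finset.add_sum_erase Finset.univ a (Finset.mem_univ c), Finset.sdiff_singleton_eq_erase]
  ring

lemma ncard_eq_sum_cnt (hfin : ∀ c, (Q c).Finite)
    (hdisj : Pairwise (fun c d => Disjoint (Q c) (Q d))) {X : Set α} (hX : X ⊆ ⋃ c, Q c) :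
    X.ncard = ∑ c, cnt Q X c := by
  have hXfin : X.Finite := (finite_iUnion hfin).subset hX
  induction X, hXfin using Set.Finite.induction_on with
  | empty => simp [cnt_empty]
  | insert hxS hS ih =>
    rename_i x S
    have hx := hX (mem_insert _ _)
    obtain ⟨c, hc⟩ := mem_iUnion.1 hx
    rw [ncard_insert_of_notMem hxS hS, cnt_insert hfin hdisj hc hxS, sum_update_succ,
      ih ((subset_insert _ _).trans hX)]

/-- data for a matroid whose independent sets are determined by the class sizes -/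
structure CData (α : Type*) where
  Q : Fin 5 → Set α
  fin : ∀ c, (Q c).Finite
  disj : Pairwise (fun c d => Disjoint (Q c) (Q d))
  I : (Fin 5 → ℕ) → Prop
  zero : I 0
  down : ∀ a b, a ≤ b → I b → I a
  aug : ∀ a b, I a → I b → ∑ c, a c < ∑ c, b c →
    ∃ c, a c < b c ∧ I (Function.update a c (a c + 1))

/-- ground set -/
def CData.E (D : CData α) : Set α := ⋃ c, D.Q c

lemma CData.finE (D : CData α) : D.E.Finite := finite_iUnion D.fin

/-- the matroid -/
noncomputable def CData.toMatroid (D : CData α) : Matroid α :=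
  (IndepMatroid.ofFinite D.finE (fun X => X ⊆ D.E ∧ D.I (cnt D.Q X))
    ⟨empty_subset _, by rw [cnt_empty]; exact D.zero⟩
    (fun X Y hY hXY => ⟨hXY.trans hY.1, D.down _ _ (cnt_mono D.fin hXY) hY.2⟩)
    (by
      intro X Y hX hY hlt
      rw [ncard_eq_sum_cnt D.fin D.disj hX.1, ncard_eq_sum_cnt D.fin D.disj hY.1] at hlt
      obtain ⟨c, hc, hI⟩ := D.aug _ _ hX.2 hY.2 hlt
      have : ∃ y ∈ Y ∩ D.Q c, y ∉ X ∩ D.Q c := by
        apply exists_mem_notMem_of_ncard_lt_ncard hc ((D.fin c).subset inter_subset_right)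
      obtain ⟨y, hyY, hyX⟩ := this
      have hyX' : y ∉ X := fun h => hyX ⟨h, hyY.2⟩
      refine ⟨y, hyY.1, hyX', insert_subset (hY.1 hyY.1) hX.1, ?_⟩
      rw [cnt_insert D.fin D.disj hyY.2 hyX']
      exact hI)
    (fun X hX => hX.1)).matroid

@[simp] lemma CData.ground (D : CData α) : D.toMatroid.E = D.E := rfl

lemma CData.indep_iff (D : CData α) {X : Set α} :
    D.toMatroid.Indep X ↔ X ⊆ D.E ∧ D.I (cnt D.Q X) := Iff.rfl

instance (D : CData α) : D.toMatroid.Finite := ⟨D.finE⟩

/-- description of the rank through class sizes -/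
lemma CData.rk_char (D : CData α) {X : Set α} (hX : X ⊆ D.E) :
    ∃ i : Fin 5 → ℕ, D.I i ∧ (∀ c, i c ≤ cnt D.Q X c) ∧
      (∀ c, i c < cnt D.Q X c → ¬ D.I (Function.update i c (i c + 1))) ∧
      rk D.toMatroid X = ∑ c, i c := by
  obtain ⟨B, hB⟩ := D.toMatroid.exists_isBasis X hX
  have hBi := (D.indep_iff).1 hB.indep
  refine ⟨cnt D.Q B, hBi.2, cnt_mono D.fin hB.subset, ?_, ?_⟩
  · intro c hc hI
    obtain ⟨y, hy, hyB⟩ : ∃ y ∈ X ∩ D.Q c, y ∉ B ∩ D.Q c :=
      exists_mem_notMem_of_ncard_lt_ncard hc ((D.fin c).subset inter_subset_right)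
    have hyB' : y ∉ B := fun h => hyB ⟨h, hy.2⟩
    have hind : D.toMatroid.Indep (insert y B) := by
      rw [D.indep_iff]
      refine ⟨insert_subset (hX hy.1) hBi.1, ?_⟩
      rw [cnt_insert D.fin D.disj hy.2 hyB']
      exact hI
    have := hB.mem_of_insert_indep hy.1 hind
    exact hyB' this
  · have h1 := hB.eRk_eq_encard
    have hBfin : B.Finite := D.finE.subset hBi.1
    rw [← cast_rk, ← hBfin.cast_ncard_eq] at h1
    rw [← ncard_eq_sum_cnt D.fin D.disj hBi.1]
    exact_mod_cast h1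

end Pool.Agent.CStar
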