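import Mathlib

/-!
Depth parameters of finite matroids (MP_17585b_co): definitions.
-/

namespace Pool.Agent.CStar

open Set Matroid

variable {α : Type*}

/-- Some circuit of `M` contains both `x` and `y`. -/
def CommonCircuit (M : Matroid α) (x y : α) : Prop :=
  ∃ C, M.IsCircuit C ∧ x ∈ C ∧ y ∈ C

/-- A component of `M`: an inclusion-maximal set of elements any two of which lie in a common
circuit of `M`. -/
def IsComponent (M : Matroid α) (K : Set α) : Prop :=
  Maximal (fun K : Set α => K ⊆ M.E ∧ K.Pairwise (CommonCircuit M)) K

/-- `M` is connected: it has exactly one component. -/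
def IsConn (M : Matroid α) : Prop := ∃! K : Set α, IsComponent M K

/-- `M'` is d-transformed from `M`. -/
def DTrans (M M' : Matroid α) : Prop := ∃ e ∈ M.E, M' = M ＼ {e}

/-- `M'` is c-transformed from `M`. -/
def CTrans (M M' : Matroid α) : Prop := ∃ e ∈ M.E, M' = M ／ {e}

/-- `M'` is c*-transformed from `M`: extend `M` by one new element `f`, not a loop, and
contract `f`. -/
def CStarTrans (M M' : Matroid α) : Prop :=
  ∃ (N : Matroid α) (f : α), f ∉ M.E ∧ N.E = insert f M.E ∧ N ＼ {f} = M ∧ ¬ N.IsLoop f ∧
    M' = N ／ {f}

/-- `M'` is cd-transformed from `M`. -/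
def CDTrans (M M' : Matroid α) : Prop := CTrans M M' ∨ DTrans M M'

/-- `M'` is c*d-transformed from `M`. -/
def CStarDTrans (M M' : Matroid α) : Prop := CStarTrans M M' ∨ DTrans M M'

/-- `dep` is the depth for the transformation `T`: it obeys the three clauses of the recursive
definition on the finite matroids with non-empty ground set.  The depth of a matroid with one
element is `1`; the depth of a matroid that is not connected is the maximum of the depths of its
component matroids; the depth of any other matroid is one more than the minimum of the depths of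
the matroids `T`-transformed from it. -/
structure IsDepth (T : Matroid α → Matroid α → Prop) (dep : Matroid α → ℕ) : Prop where
  single : ∀ M : Matroid α, M.E.encard = 1 → dep M = 1
  comps : ∀ M : Matroid α, M.Finite → M.E.Nonempty → ¬ IsConn M →
    IsGreatest {d | ∃ K, IsComponent M K ∧ dep (M ↾ K) = d} (dep M)
  step : ∀ M : Matroid α, M.Finite → M.E.Nonempty → M.E.encard ≠ 1 → IsConn M →
    ∃ m, IsLeast {d | ∃ M', T M M' ∧ dep M' = d} m ∧ dep M = 1 + m

/-- `DepthLE T M t`: the depth of `M` for the transformation `T` is at most `t`.  The three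
constructors are the three clauses of the recursive definition of the depth. -/
inductive DepthLE (T : Matroid α → Matroid α → Prop) : Matroid α → ℕ → Prop
  | single (M : Matroid α) (t : ℕ) : M.E.encard = 1 → 1 ≤ t → DepthLE T M t
  | comps (M : Matroid α) (t : ℕ) : ¬ IsConn M →
      (∀ K, IsComponent M K → DepthLE T (M ↾ K) t) → DepthLE T M t
  | step (M M' : Matroid α) (t : ℕ) : IsConn M → M.E.encard ≠ 1 → T M M' →
      DepthLE T M' t → DepthLE T M (t + 1)

/-- The depth of `M` for the transformation `T`. -/
noncomputable def depth (T : Matroid α → Matroid α → Prop) (M : Matroid α) : ℕ :=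
  sInf {t | DepthLE T M t}

end Pool.Agent.CStar
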