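import Pool.Agent.Helper68.CStar.Upper

set_option linter.unusedVariables false
set_option linter.unusedSectionVars false

namespace Pool.Agent.CStar

open Set Matroid

variable {α : Type*} {r : ℕ}

/-- class sizes of the independent sets of the extension by the point `g` -/
def indN (r a0 a1 a2 g z : ℕ) : Prop :=
  a0 ≤ r ∧ a1 ≤ r ∧ a2 ≤ r ∧ (a0 < r ∨ a1 < r) ∧ (a0 < r ∨ a2 < r) ∧ (a1 < r ∨ a2 < r) ∧
  g ≤ 1 ∧ z = 0 ∧ (g = 1 → a0 < r ∧ a1 < r ∧ a2 < r)

lemma augN (a0 a1 a2 g z b0 b1 b2 g' z' : ℕ) (hr : 3 ≤ r)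
    (h1 : indN r a0 a1 a2 g z) (h2 : indN r b0 b1 b2 g' z')
    (hlt : a0 + a1 + a2 + g + z < b0 + b1 + b2 + g' + z')
    (g0 : a0 < b0 → ¬ indN r (a0 + 1) a1 a2 g z)
    (g1 : a1 < b1 → ¬ indN r a0 (a1 + 1) a2 g z)
    (g2 : a2 < b2 → ¬ indN r a0 a1 (a2 + 1) g z)
    (g3 : g < g' → ¬ indN r a0 a1 a2 (g + 1) z) : False := by
  unfold indN at *
  obtain ⟨i1, i2, i3, i4, i5, i6, i7, i8, i9⟩ := h1
  obtain ⟨j1, j2, j3, j4, j5, j6, j7, j8, j9⟩ := h2
  subst i8 j8
  have k0 : a0 < b0 → a0 + 1 = r ∧ (a1 = r ∨ a2 = r ∨ g = 1) := by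
    intro h; have := g0 h; clear g0 g1 g2 g3; omega
  have k1 : a1 < b1 → a1 + 1 = r ∧ (a0 = r ∨ a2 = r ∨ g = 1) := by
    intro h; have := g1 h; clear g0 g1 g2 g3; omega
  have k2 : a2 < b2 → a2 + 1 = r ∧ (a0 = r ∨ a1 = r ∨ g = 1) := by
    intro h; have := g2 h; clear g0 g1 g2 g3; omega
  have k3 : g < g' → a0 = r ∨ a1 = r ∨ a2 = r := by
    intro h; have := g3 h; clear g0 g1 g2 g3; omega
  clear g0 g1 g2 g3
  omega

/-- classes for the extension by `g` -/
def Qg (D : Parts α r) (g : α) : Fin 5 → Set α := ![D.Q 0, D.Q 1, D.Q 2, {g}, ∅]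

lemma Qg_disj (D : Parts α r) {g : α} (hg : g ∉ D.E) :
    Pairwise (fun c d => Disjoint (Qg D g c) (Qg D g d)) := by
  have hgc : ∀ c, Disjoint (D.Q c) ({g} : Set α) := fun c => by
    rw [disjoint_singleton_right]; exact fun h => hg (mem_iUnion.2 ⟨c, h⟩)
  intro c d hcd
  fin_cases c <;> fin_cases d <;> simp [Qg] <;>
    first
      | exact absurd rfl hcd
      | exact D.disj (by decide)
      | (simpa using hgc _)

/-- the extension of the core by `g` -/
def gData (D : Parts α r) {g : α} (hg : g ∉ D.E) : CData α where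
  Q := Qg D g
  fin := by
    intro c
    fin_cases c
    · exact D.fin 0
    · exact D.fin 1
    · exact D.fin 2
    · exact finite_singleton g
    · exact finite_empty
  disj := Qg_disj D hg
  I := fun a => 3 ≤ r → indN r (a 0) (a 1) (a 2) (a 3) (a 4)
  zero := by
    intro hr
    change indN r 0 0 0 0 0
    unfold indN
    refine ⟨?_, ?_, ?_, ?_, ?_, ?_, ?_, ?_, ?_⟩ <;> omega
  down := by
    intro a b hab hb hr
    have h0 : a 0 ≤ b 0 := hab 0
    have h1 : a 1 ≤ b 1 := hab 1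
    have h2 : a 2 ≤ b 2 := hab 2
    have h3 : a 3 ≤ b 3 := hab 3
    have h4 : a 4 ≤ b 4 := hab 4
    have hb := hb hr
    simp only [indN] at hb ⊢
    obtain ⟨j1, j2, j3, j4, j5, j6, j7, j8, j9⟩ := hb
    omega
  aug := by
    intro a b ha hb hlt
    by_cases hr : 3 ≤ r
    swap
    · obtain ⟨c, -, hc⟩ := Finset.exists_lt_of_sum_lt hlt
      exact ⟨c, hc, fun h => absurd h hr⟩
    have ha := ha hr
    have hb := hb hr
    by_contra hcon
    push Not at hcon
    simp only [Fin.sum_univ_five] at hlt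
    have g0 : a 0 < b 0 → ¬ indN r (a 0 + 1) (a 1) (a 2) (a 3) (a 4) := by
      intro h hI; apply (hcon 0 h).2; simpa [Function.update] using hI
    have g1 : a 1 < b 1 → ¬ indN r (a 0) (a 1 + 1) (a 2) (a 3) (a 4) := by
      intro h hI; apply (hcon 1 h).2; simpa [Function.update] using hI
    have g2 : a 2 < b 2 → ¬ indN r (a 0) (a 1) (a 2 + 1) (a 3) (a 4) := by
      intro h hI; apply (hcon 2 h).2; simpa [Function.update] using hI
    have g3 : a 3 < b 3 → ¬ indN r (a 0) (a 1) (a 2) (a 3 + 1) (a 4) := by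
      intro h hI; apply (hcon 3 h).2; simpa [Function.update] using hI
    exact augN _ _ _ _ _ _ _ _ _ _ hr ha hb hlt g0 g1 g2 g3

/-- the matroid on the core and `g` -/
noncomputable def gMat (D : Parts α r) {g : α} (hg : g ∉ D.E) : Matroid α :=
  (gData D hg).toMatroid

variable (D : Parts α r) {g : α} (hg : g ∉ D.E)

instance : (gMat D hg).Finite := by unfold gMat; infer_instance

lemma gMat_E : (gMat D hg).E = insert g D.core := by
  change (⋃ c, Qg D g c) = _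
  apply Subset.antisymm
  · intro y hy
    obtain ⟨c, hc⟩ := mem_iUnion.1 hy
    fin_cases c
    · exact Or.inr (Or.inl (Or.inl hc))
    · exact Or.inr (Or.inl (Or.inr hc))
    · exact Or.inr (Or.inr hc)
    · exact Or.inl hc
    · exact absurd hc (notMem_empty y)
  · rintro y (h | ((h | h) | h))
    · exact mem_iUnion.2 ⟨3, h⟩
    · exact mem_iUnion.2 ⟨0, h⟩
    · exact mem_iUnion.2 ⟨1, h⟩
    · exact mem_iUnion.2 ⟨2, h⟩

/-- numerical description of the rank in the extension -/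
lemma gMat_rk (hr : 3 ≤ r) {X : Set α} (hX : X ⊆ (gMat D hg).E) :
    ∃ i0 i1 i2 ig : ℕ, indN r i0 i1 i2 ig 0 ∧ i0 ≤ cnt (Qg D g) X 0 ∧ i1 ≤ cnt (Qg D g) X 1 ∧
      i2 ≤ cnt (Qg D g) X 2 ∧ ig ≤ cnt (Qg D g) X 3 ∧
      (i0 < cnt (Qg D g) X 0 → ¬ indN r (i0 + 1) i1 i2 ig 0) ∧
      (i1 < cnt (Qg D g) X 1 → ¬ indN r i0 (i1 + 1) i2 ig 0) ∧
      (i2 < cnt (Qg D g) X 2 → ¬ indN r i0 i1 (i2 + 1) ig 0) ∧
      (ig < cnt (Qg D g) X 3 → ¬ indN r i0 i1 i2 (ig + 1) 0) ∧
      rk (gMat D hg) X = i0 + i1 + i2 + ig := by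
  obtain ⟨i, hI, hle, hmax, hrk⟩ := (gData D hg).rk_char (X := X) hX
  have hI' : indN r (i 0) (i 1) (i 2) (i 3) (i 4) := hI hr
  have h4 : i 4 = 0 := hI'.2.2.2.2.2.2.2.1
  rw [h4] at hI'
  refine ⟨i 0, i 1, i 2, i 3, hI', hle 0, hle 1, hle 2, hle 3, ?_, ?_, ?_, ?_, ?_⟩
  · intro h hI2; exact hmax 0 h (fun _ => by simpa [Function.update, h4] using hI2)
  · intro h hI2; exact hmax 1 h (fun _ => by simpa [Function.update, h4] using hI2)
  · intro h hI2; exact hmax 2 h (fun _ => by simpa [Function.update, h4] using hI2)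
  · intro h hI2; exact hmax 3 h (fun _ => by simpa [Function.update, h4] using hI2)
  · have : rk (gMat D hg) X = ∑ c, i c := hrk
    rw [this, Fin.sum_univ_five, h4]; rfl

lemma cnt_Qg (X : Set α) : cnt (Qg D g) X 0 = cnt D.Q X 0 ∧ cnt (Qg D g) X 1 = cnt D.Q X 1 ∧
    cnt (Qg D g) X 2 = cnt D.Q X 2 ∧ cnt (Qg D g) X 4 = 0 := by
  refine ⟨rfl, rfl, rfl, ?_⟩
  simp [cnt, Qg]

/-- deleting `g` from the extension gives the restriction of the main matroid to the core -/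
lemma gMat_delete (hr : 3 ≤ r) : gMat D hg ＼ {g} = D.mat ↾ D.core := by
  have hgc : g ∉ D.core := fun h => hg (D.core_sub h)
  apply ext_indep
  · change (gMat D hg).E \ {g} = D.core
    rw [gMat_E, insert_sdiff_of_mem _ (mem_singleton g), sdiff_singleton_eq_self hgc]
  · intro I hI
    have hIc : I ⊆ D.core := by
      have h1 : I ⊆ (gMat D hg).E \ {g} := hI
      rw [gMat_E, insert_sdiff_of_mem _ (mem_singleton g), sdiff_singleton_eq_self hgc] at h1
      exact h1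
    have hgI : g ∉ I := fun h => hgc (hIc h)
    rw [delete_indep_iff, restrict_indep_iff]
    have e3 : cnt (Qg D g) I 3 = 0 := by
      have : I ∩ {g} = ∅ := inter_singleton_eq_empty.2 hgI
      change (I ∩ {g}).ncard = 0
      rw [this, ncard_empty]
    have ec : ∀ c : Fin 5, c ≠ 0 → c ≠ 1 → c ≠ 2 → cnt D.Q I c = 0 := by
      intro c h0 h1 h2
      have : I ∩ D.Q c = ∅ := by
        rw [eq_empty_iff_forall_notMem]
        rintro y ⟨hy, hyc⟩
        rcases hIc hy with (h | h) | h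
        · exact (D.disj h0).le_bot ⟨hyc, h⟩
        · exact (D.disj h1).le_bot ⟨hyc, h⟩
        · exact (D.disj h2).le_bot ⟨hyc, h⟩
      unfold cnt
      rw [this, ncard_empty]
    obtain ⟨q0, q1, q2, q4⟩ := cnt_Qg D (g := g) I
    have l1 : (gMat D hg).Indep I ↔
        indN r (cnt D.Q I 0) (cnt D.Q I 1) (cnt D.Q I 2) 0 0 := by
      unfold gMat
      rw [CData.indep_iff]
      have hsub : I ⊆ (gData D hg).E := by
        have : (gData D hg).E = insert g D.core := gMat_E D hg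
        rw [this]
        exact hIc.trans (subset_insert _ _)
      constructor
      · rintro ⟨-, h⟩
        have := h hr
        change indN r (cnt (Qg D g) I 0) (cnt (Qg D g) I 1) (cnt (Qg D g) I 2) (cnt (Qg D g) I 3)
          (cnt (Qg D g) I 4) at this
        rwa [q0, q1, q2, e3, q4] at this
      · intro h
        refine ⟨hsub, fun _ => ?_⟩
        change indN r (cnt (Qg D g) I 0) (cnt (Qg D g) I 1) (cnt (Qg D g) I 2) (cnt (Qg D g) I 3)
          (cnt (Qg D g) I 4)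
        rwa [q0, q1, q2, e3, q4]
    rw [l1, D.mat_indep hr, ec 3 (by decide) (by decide) (by decide),
      ec 4 (by decide) (by decide) (by decide)]
    have hIE : I ⊆ D.E := hIc.trans D.core_sub
    have hdj : Disjoint I {g} := by rw [disjoint_singleton_right]; exact hgI
    constructor
    · rintro ⟨h, -⟩
      refine ⟨⟨hIE, ?_⟩, hIc⟩
      unfold indN at h
      unfold ind
      omega
    · rintro ⟨⟨-, h⟩, -⟩
      refine ⟨?_, hdj⟩
      unfold ind at h
      unfold indN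
      omega


lemma Qg_sub {c : Fin 5} : Qg D g c ⊆ (gMat D hg).E := subset_iUnion (Qg D g) c

lemma gMat_card (i : Fin 3) : (D.Q (c3 i)).ncard = r + 9 := by
  fin_cases i
  · exact D.card0
  · exact D.card1
  · exact D.card2

include hg in
lemma g_notMem (i : Fin 3) : g ∉ D.Q (c3 i) := fun h => hg (mem_iUnion.2 ⟨_, h⟩)

lemma card_fin3 : ∀ J : Finset (Fin 3), J.card = (if (0 : Fin 3) ∈ J then 1 else 0) +
    (if (1 : Fin 3) ∈ J then 1 else 0) + (if (2 : Fin 3) ∈ J then 1 else 0) := by decide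

lemma card_univ_sdiff : ∀ i : Fin 3, (Finset.univ \ {i} : Finset (Fin 3)).card = 2 := by decide

lemma exists_ne_fin3 : ∀ i : Fin 3, ∃ k : Fin 3, k ≠ i := by decide

include hg in
/-- counts for a union of some large classes and `g` -/
lemma cnt_Qg_union (J : Finset (Fin 3)) (i : Fin 3) :
    cnt (Qg D g) ((⋃ j ∈ J, D.Q (c3 j)) ∪ {g}) (c3 i) = if i ∈ J then r + 9 else 0 := by
  have e : Qg D g (c3 i) = D.Q (c3 i) := by fin_cases i <;> rfl
  have hgi : g ∉ D.Q (c3 i) := g_notMem D hg i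
  unfold cnt
  rw [e]
  split_ifs with h
  · have : ((⋃ j ∈ J, D.Q (c3 j)) ∪ {g}) ∩ D.Q (c3 i) = D.Q (c3 i) := by
      apply inter_eq_self_of_subset_right
      intro y hy
      exact Or.inl (mem_iUnion₂.2 ⟨i, h, hy⟩)
    rw [this, gMat_card]
  · have : ((⋃ j ∈ J, D.Q (c3 j)) ∪ {g}) ∩ D.Q (c3 i) = ∅ := by
      rw [eq_empty_iff_forall_notMem]
      rintro y ⟨hy | hy, hyi⟩
      · obtain ⟨j, hj, hyj⟩ := mem_iUnion₂.1 hy
        have hne : c3 j ≠ c3 i := by
          intro hji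
          apply h
          have : j = i := by simpa [c3] using hji
          rwa [← this]
        exact (D.disj hne).le_bot ⟨hyj, hyi⟩
      · rw [mem_singleton_iff] at hy
        exact hgi (hy ▸ hyi)
    rw [this, ncard_empty]

lemma cnt_Qg_union3 (J : Finset (Fin 3)) :
    cnt (Qg D g) ((⋃ j ∈ J, D.Q (c3 j)) ∪ {g}) 3 = 1 := by
  change (((⋃ j ∈ J, D.Q (c3 j)) ∪ {g}) ∩ {g}).ncard = 1
  rw [inter_eq_self_of_subset_right subset_union_right, ncard_singleton]

lemma num_g (hr : 3 ≤ r) {i0 i1 i2 ig x0 x1 x2 : ℕ}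
    (y0 : x0 = 0 ∨ x0 = 1) (y1 : x1 = 0 ∨ x1 = 1) (y2 : x2 = 0 ∨ x2 = 1)
    (hI : indN r i0 i1 i2 ig 0)
    (l0 : i0 ≤ x0 * (r + 9)) (l1 : i1 ≤ x1 * (r + 9)) (l2 : i2 ≤ x2 * (r + 9)) (l3 : ig ≤ 1)
    (m0 : i0 < x0 * (r + 9) → ¬ indN r (i0 + 1) i1 i2 ig 0)
    (m1 : i1 < x1 * (r + 9) → ¬ indN r i0 (i1 + 1) i2 ig 0)
    (m2 : i2 < x2 * (r + 9) → ¬ indN r i0 i1 (i2 + 1) ig 0)
    (m3 : ig < 1 → ¬ indN r i0 i1 i2 (ig + 1) 0) :
    i0 + i1 + i2 + ig = (x0 + x1 + x2) * (r - 1) + 1 := by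
  unfold indN at *
  obtain ⟨i1', i2', i3, i4, i5, i6, i7, i8, i9⟩ := hI
  have k0 : i0 < x0 * (r + 9) → i0 = r ∨ (i0 + 1 = r ∧ (i1 = r ∨ i2 = r ∨ ig = 1)) := by
    intro h; have := m0 h; clear m0 m1 m2 m3 l0 l1 l2 y0 y1 y2 h; omega
  have k1 : i1 < x1 * (r + 9) → i1 = r ∨ (i1 + 1 = r ∧ (i0 = r ∨ i2 = r ∨ ig = 1)) := by
    intro h; have := m1 h; clear m0 m1 m2 m3 l0 l1 l2 y0 y1 y2 h; omega
  have k2 : i2 < x2 * (r + 9) → i2 = r ∨ (i2 + 1 = r ∧ (i0 = r ∨ i1 = r ∨ ig = 1)) := by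
    intro h; have := m2 h; clear m0 m1 m2 m3 l0 l1 l2 y0 y1 y2 h; omega
  have k3 : ig < 1 → i0 = r ∨ i1 = r ∨ i2 = r := by
    intro h; have := m3 h; clear m0 m1 m2 m3 l0 l1 l2 y0 y1 y2; omega
  clear m0 m1 m2 m3
  rcases y0 with rfl | rfl <;> rcases y1 with rfl | rfl <;> rcases y2 with rfl | rfl <;> omega

/-- rank of a union of large classes together with `g` -/
lemma rk_union_g (hr : 3 ≤ r) (J : Finset (Fin 3)) :
    rk (gMat D hg) ((⋃ j ∈ J, D.Q (c3 j)) ∪ {g}) = J.card * (r - 1) + 1 := by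
  have hsub : (⋃ j ∈ J, D.Q (c3 j)) ∪ {g} ⊆ (gMat D hg).E := by
    rw [gMat_E]
    rintro y (hy | hy)
    · obtain ⟨j, -, hyj⟩ := mem_iUnion₂.1 hy
      exact Or.inr (D.sub_core j hyj)
    · exact Or.inl hy
  obtain ⟨i0, i1, i2, ig, hI, l0, l1, l2, l3, m0, m1, m2, m3, hrk⟩ := gMat_rk D hg hr hsub
  have cc : ∀ i : Fin 3, cnt (Qg D g) ((⋃ j ∈ J, D.Q (c3 j)) ∪ {g}) (c3 i) =
      (if i ∈ J then 1 else 0) * (r + 9) := by
    intro i
    rw [cnt_Qg_union D hg J i]
    split_ifs <;> simp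
  have c0 : cnt (Qg D g) ((⋃ j ∈ J, D.Q (c3 j)) ∪ {g}) 0 =
      (if (0 : Fin 3) ∈ J then 1 else 0) * (r + 9) := cc 0
  have c1 : cnt (Qg D g) ((⋃ j ∈ J, D.Q (c3 j)) ∪ {g}) 1 =
      (if (1 : Fin 3) ∈ J then 1 else 0) * (r + 9) := cc 1
  have c2 : cnt (Qg D g) ((⋃ j ∈ J, D.Q (c3 j)) ∪ {g}) 2 =
      (if (2 : Fin 3) ∈ J then 1 else 0) * (r + 9) := cc 2
  have c3' := cnt_Qg_union3 D (g := g) J
  rw [c0] at l0 m0
  rw [c1] at l1 m1
  rw [c2] at l2 m2
  rw [c3'] at l3 m3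
  rw [hrk, card_fin3 J]
  refine num_g hr ?_ ?_ ?_ hI l0 l1 l2 l3 m0 m1 m2 m3 <;> split_ifs <;> simp

/-- The contraction of `g` has depth at most `11`. -/
lemma depth_contract {T : Matroid α → Matroid α → Prop} (hT : ∀ M M', DTrans M M' → T M M')
    (hr : 3 ≤ r) : DepthLE T (gMat D hg ／ {g}) 11 := by
  set K := gMat D hg ／ {g} with hK
  have hKE : K.E = D.core := by
    change (gMat D hg).E \ {g} = D.core
    rw [gMat_E, insert_sdiff_of_mem _ (mem_singleton g),
      sdiff_singleton_eq_self (fun h => hg (D.core_sub h))]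
  have hrk : ∀ J : Finset (Fin 3), rk K (⋃ j ∈ J, D.Q (c3 j)) = J.card * (r - 1) := by
    intro J
    have h1 : rk K (⋃ j ∈ J, D.Q (c3 j)) + rk (gMat D hg) {g} =
        rk (gMat D hg) ((⋃ j ∈ J, D.Q (c3 j)) ∪ {g}) := rk_contract {g} _
    have h2 := rk_union_g D hg hr J
    have h3 := rk_union_g D hg hr ∅
    simp only [Finset.notMem_empty, iUnion_of_empty, iUnion_empty, empty_union,
      Finset.card_empty, zero_mul, zero_add] at h3
    omega
  have hfin : K.Finite := inferInstance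
  have hcard := gMat_card D
  have hQne : ∀ i : Fin 3, (D.Q (c3 i)).Nonempty := by
    intro i
    rw [← ncard_pos (D.fin _)]
    have := hcard i
    omega
  have hne : K.E.Nonempty := by
    obtain ⟨x, hx⟩ := hQne 0
    exact ⟨x, by rw [hKE]; exact D.sub_core 0 hx⟩
  -- every component lies in one large class
  have hcomp : ∀ U, IsComponent K U → ∃ i : Fin 3, U ⊆ D.Q (c3 i) := by
    intro U hU
    obtain ⟨x, hxU⟩ := hU.nonempty hne
    have hxc : x ∈ D.core := by rw [← hKE]; exact hU.subset hxU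
    obtain ⟨i, hi⟩ : ∃ i : Fin 3, x ∈ D.Q (c3 i) := by
      rcases hxc with (h | h) | h
      · exact ⟨0, h⟩
      · exact ⟨1, h⟩
      · exact ⟨2, h⟩
    refine ⟨i, ?_⟩
    intro y hyU
    by_cases hxy : x = y
    · rw [← hxy]; exact hi
    obtain ⟨C, hC, hxC, hyC⟩ := hU.prop.2 hxU hyU hxy
    have hcov : D.core = (⋃ j ∈ ({i} : Finset (Fin 3)), D.Q (c3 j)) ∪
        (⋃ j ∈ (Finset.univ \ {i} : Finset (Fin 3)), D.Q (c3 j)) := by
      apply Subset.antisymm
      · intro z hz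
        obtain ⟨k, hk⟩ : ∃ k : Fin 3, z ∈ D.Q (c3 k) := by
          rcases hz with (h | h) | h
          · exact ⟨0, h⟩
          · exact ⟨1, h⟩
          · exact ⟨2, h⟩
        by_cases hki : k = i
        · left; exact mem_iUnion₂.2 ⟨k, by simp [hki], hk⟩
        · right; exact mem_iUnion₂.2 ⟨k, by simp [hki], hk⟩
      · rintro z (hz | hz) <;>
        · obtain ⟨k, -, hk⟩ := mem_iUnion₂.1 hz
          exact D.sub_core k hk
    have hcup : D.core = ⋃ j ∈ (Finset.univ : Finset (Fin 3)), D.Q (c3 j) := by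
      rw [hcov, ← Finset.set_biUnion_union]
      congr 1
      ext k
      simp [em]
    have hsk : rk K (⋃ j ∈ ({i} : Finset (Fin 3)), D.Q (c3 j)) +
        rk K (⋃ j ∈ (Finset.univ \ {i} : Finset (Fin 3)), D.Q (c3 j)) ≤
        rk K ((⋃ j ∈ ({i} : Finset (Fin 3)), D.Q (c3 j)) ∪
        (⋃ j ∈ (Finset.univ \ {i} : Finset (Fin 3)), D.Q (c3 j))) := by
      rw [← hcov, hcup, hrk, hrk, hrk]
      have e1 : ({i} : Finset (Fin 3)).card = 1 := Finset.card_singleton i
      have e2 : (Finset.univ \ {i} : Finset (Fin 3)).card = 2 := card_univ_sdiff i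
      have e3 : (Finset.univ : Finset (Fin 3)).card = 3 := by decide
      rw [e1, e2, e3]
      omega
    have hCs : C ⊆ (⋃ j ∈ ({i} : Finset (Fin 3)), D.Q (c3 j)) ∪
        (⋃ j ∈ (Finset.univ \ {i} : Finset (Fin 3)), D.Q (c3 j)) := by
      rw [← hcov, ← hKE]; exact hC.subset_ground
    rcases circuit_subset_of_skew hsk hC hCs with h | h
    · have := h hyC
      simpa using this
    · exfalso
      obtain ⟨k, hk, hxk⟩ := mem_iUnion₂.1 (h hxC)
      have hki : k ≠ i := by simpa using hk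
      have hne : c3 k ≠ c3 i := by
        intro h; apply hki; simpa [c3] using h
      exact (D.disj hne).le_bot ⟨hxk, hi⟩
  have hnc : ¬ IsConn K := by
    intro hc
    obtain ⟨i, hi⟩ := hcomp K.E (component_ground_of_isConn hc)
    obtain ⟨k, hk⟩ := exists_ne_fin3 i
    obtain ⟨x, hx⟩ := hQne k
    have hne : c3 k ≠ c3 i := by
      intro h; apply hk; simpa [c3] using h
    exact (D.disj hne).le_bot ⟨hx, hi (by rw [hKE]; exact D.sub_core k hx)⟩
  refine DepthLE.comps K 11 hnc ?_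
  intro U hU
  obtain ⟨i, hi⟩ := hcomp U hU
  have hUfin : U.Finite := (D.fin _).subset hi
  refine depth_of_nullity hT _ (K ↾ U) 10 (restrict_finite hUfin) (hU.nonempty hne) le_rfl ?_
  change U.ncard ≤ rk (K ↾ U) U + 10
  rw [rk_restrict Subset.rfl]
  have h1 := rk_nullity_mono (M := K) hi (D.fin _)
  have h2 := hrk {i}
  have h3 : (⋃ j ∈ ({i} : Finset (Fin 3)), D.Q (c3 j)) = D.Q (c3 i) := by simp
  rw [h3, Finset.card_singleton] at h2
  have h4 := hcard i
  omega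

lemma singleton_class {Q : Set α} (h : Q.ncard = 1) : ∃ x, Q = {x} := ncard_eq_one.1 h

include hg in
/-- The upper bound. -/
theorem upper (hr : 3 ≤ r) : DepthLE CStarDTrans D.mat 14 := by
  obtain ⟨h, hh⟩ := singleton_class D.card3
  obtain ⟨e, he⟩ := singleton_class D.card4
  have hcard := gMat_card D
  have hE : D.E = D.core ∪ {h} ∪ {e} := by rw [D.E_eq, hh, he]
  have hdisj : ∀ c d : Fin 5, c ≠ d → ∀ y, y ∈ D.Q c → y ∈ D.Q d → False :=
    fun c d hcd y h1 h2 => (D.disj hcd).le_bot ⟨h1, h2⟩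
  have hcore : ∀ c : Fin 5, c ≠ 0 → c ≠ 1 → c ≠ 2 → ∀ y ∈ D.Q c, y ∉ D.core := by
    rintro c h0 h1 h2 y hy ((h' | h') | h')
    · exact hdisj c 0 h0 y hy h'
    · exact hdisj c 1 h1 y hy h'
    · exact hdisj c 2 h2 y hy h'
  have hhc : h ∉ D.core := hcore 3 (by decide) (by decide) (by decide) h (by rw [hh]; rfl)
  have hec : e ∉ D.core := hcore 4 (by decide) (by decide) (by decide) e (by rw [he]; rfl)
  have hhe : h ≠ e := by
    rintro rfl
    exact hdisj 3 4 (by decide) h (by rw [hh]; rfl) (by rw [he]; rfl)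
  have hbig : ∀ R : Set α, D.core ⊆ R → R.Finite → R.encard ≠ 1 := by
    intro R hR hRfin h1
    have h2 : R.ncard = 1 := by unfold ncard; rw [h1]; rfl
    have h3 : (D.Q (c3 0)).ncard ≤ R.ncard := ncard_le_ncard ((D.sub_core 0).trans hR) hRfin
    have := hcard 0
    omega
  have hc1 : D.core ⊆ D.core ∪ {h} := subset_union_left
  have hc2 : D.core ∪ {h} ⊆ D.E := by rw [hE]; exact subset_union_left
  -- step 4: the core
  have s4 : DepthLE CStarDTrans (D.mat ↾ D.core) 12 := by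
    refine DepthLE.step _ (gMat D hg ／ {g}) 11 (conn_restrict hr D Subset.rfl D.core_sub)
      (hbig _ Subset.rfl (D.finE.subset D.core_sub)) (Or.inl ?_)
      (depth_contract D hg (fun _ _ h => Or.inr h) hr)
    refine ⟨gMat D hg, g, fun hgc => hg (D.core_sub hgc), gMat_E D hg, gMat_delete D hg hr, ?_, rfl⟩
    intro hloop
    have h3 := rk_union_g D hg hr ∅
    simp only [Finset.notMem_empty, iUnion_of_empty, iUnion_empty, empty_union,
      Finset.card_empty, zero_mul, zero_add] at h3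
    have h4 := hloop.eRk_eq
    unfold rk at h3
    rw [h4] at h3
    simp at h3
  -- step 3: core and h
  have s3 : DepthLE CStarDTrans (D.mat ↾ (D.core ∪ {h})) 13 := by
    refine DepthLE.step _ (D.mat ↾ D.core) 12 (conn_restrict hr D hc1 hc2)
      (hbig _ hc1 (D.finE.subset hc2)) (Or.inr ⟨h, Or.inr rfl, ?_⟩) s4
    rw [delete_eq_restrict]
    change _ = (D.mat ↾ (D.core ∪ {h})) ↾ ((D.core ∪ {h}) \ {h})
    rw [restrict_restrict_eq _ sdiff_subset, union_sdiff_right, sdiff_singleton_eq_self hhc]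
  -- step 2: everything
  have s2 : DepthLE CStarDTrans (D.mat ↾ D.E) 14 := by
    refine DepthLE.step _ (D.mat ↾ (D.core ∪ {h})) 13 (conn_restrict hr D D.core_sub Subset.rfl)
      (hbig _ D.core_sub D.finE) (Or.inr ⟨e, ?_, ?_⟩) s3
    · change e ∈ D.E
      rw [hE]; exact Or.inr rfl
    · rw [delete_eq_restrict]
      change _ = (D.mat ↾ D.E) ↾ (D.E \ {e})
      rw [restrict_restrict_eq _ sdiff_subset, hE, union_sdiff_right, sdiff_singleton_eq_self]
      rintro (h' | h')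
      · exact hec h'
      · exact hhe (mem_singleton_iff.1 h').symm
  have : D.mat ↾ D.E = D.mat := by
    rw [← D.mat_E]; exact restrict_ground_eq_self D.mat
  rwa [this] at s2

end Pool.Agent.CStar
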