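import Pool.Agent.Helper68.CStar.Values

set_option linter.unusedVariables false
set_option linter.unusedSectionVars false

namespace Pool.Agent.CStar

open Set Matroid

variable {α : Type*} {N : Matroid α} [N.Finite] {r : ℕ} {C : Cfg N r}

lemma cnt_of_subset {Q : Fin 5 → Set α} (hdisj : Pairwise (fun c d => Disjoint (Q c) (Q d)))
    {X : Set α} {d : Fin 5} (hX : X ⊆ Q d) (c : Fin 5) :
    cnt Q X c = if c = d then X.ncard else 0 := by
  unfold cnt
  split_ifs with h
  · subst h; rw [inter_eq_self_of_subset_left hX]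
  · have : X ∩ Q c = ∅ := by
      rw [eq_empty_iff_forall_notMem]
      rintro y ⟨h1, h2⟩
      exact (hdisj h).le_bot ⟨h2, hX h1⟩
    rw [this, ncard_empty]

lemma Q_subset_E (C : Cfg N r) (c : Fin 5) : C.Q c ⊆ C.E := subset_iUnion C.Q c

lemma card_c3 (C : Cfg N r) (i : Fin 3) : (C.Q (c3 i)).ncard = r + 9 := by
  fin_cases i
  · exact C.card0
  · exact C.card1
  · exact C.card2

lemma rk_class (hr : 3 ≤ r) (C : Cfg N r) {i : Fin 3} {X : Set α} (hX : X ⊆ C.Q (c3 i)) :
    rk N X = min X.ncard r := by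
  have h := C.desc X (hX.trans (Q_subset_E C _))
  rw [cnt_of_subset C.disj hX, cnt_of_subset C.disj hX, cnt_of_subset C.disj hX,
    cnt_of_subset C.disj hX, cnt_of_subset C.disj hX] at h
  fin_cases i
  · exact num_s0 hr (by simpa [c3] using h)
  · exact num_s1 hr (by simpa [c3] using h)
  · exact num_s2 hr (by simpa [c3] using h)

lemma cnt_compl (C : Cfg N r) {U : Set α} (c : Fin 5) :
    cnt C.Q (C.E \ U) c + cnt C.Q U c = (C.Q c).ncard := by
  unfold cnt
  have e1 : (C.E \ U) ∩ C.Q c = C.Q c \ (U ∩ C.Q c) := by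
    ext y
    simp only [mem_inter_iff, mem_sdiff]
    constructor
    · rintro ⟨⟨h1, h2⟩, h3⟩; exact ⟨h3, fun h => h2 h.1⟩
    · rintro ⟨h1, h2⟩; exact ⟨⟨Q_subset_E C c h1, fun h => h2 ⟨h, h1⟩⟩, h1⟩
  rw [e1]
  exact ncard_sdiff_add_ncard_of_subset inter_subset_right (C.fin c)

lemma cnt_sum (C : Cfg N r) {X : Set α} (hX : X ⊆ C.E) :
    X.ncard = cnt C.Q X 0 + cnt C.Q X 1 + cnt C.Q X 2 + cnt C.Q X 3 + cnt C.Q X 4 := by
  rw [ncard_eq_sum_cnt C.fin C.disj hX, Fin.sum_univ_five]

/-- Deleting few elements does not free an element of a large class. -/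
lemma notfree (hr : 3 ≤ r) (C : Cfg N r) {i : Fin 3} {T : Set α} {x : α} (hT : T ⊆ C.E)
    (hx : x ∈ C.Q (c3 i)) (hxT : x ∉ T) (h13 : T.ncard ≤ 13) (h10 : cnt C.Q T (c3 i) ≤ 10)
    (h9 : cnt C.Q T 3 + cnt C.Q T 4 = 2 → cnt C.Q T (c3 i) ≤ 9) :
    rk N (insert x (C.E \ insert x T)) ≤ rk N (C.E \ insert x T) := by
  set B := C.E \ insert x T with hB
  have hxE : x ∈ C.E := Q_subset_E C _ hx
  have hBE : B ⊆ C.E := sdiff_subset
  have hins := cnt_insert C.fin C.disj hx hxT
  have ci : cnt C.Q (insert x T) (c3 i) = cnt C.Q T (c3 i) + 1 := by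
    rw [hins, Function.update_self]
  have cj : ∀ c, c ≠ c3 i → cnt C.Q (insert x T) c = cnt C.Q T c := by
    intro c hc
    rw [hins, Function.update_of_ne hc]
  have hBc : ∀ c, cnt C.Q B c + cnt C.Q (insert x T) c = (C.Q c).ncard := fun c => cnt_compl C c
  by_cases h8 : cnt C.Q T (c3 i) ≤ 8
  · have h1 := hBc (c3 i)
    rw [ci, card_c3] at h1
    have hAsub : B ∩ C.Q (c3 i) ⊆ C.Q (c3 i) := inter_subset_right
    have hA1 := rk_class hr C hAsub
    have hA2 := rk_class hr C (insert_subset hx hAsub)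
    have hc : (B ∩ C.Q (c3 i)).ncard = cnt C.Q B (c3 i) := rfl
    have hc2 : (B ∩ C.Q (c3 i)).ncard ≤ (insert x (B ∩ C.Q (c3 i))).ncard :=
      ncard_le_ncard (subset_insert _ _) (((C.fin _).subset hAsub).insert x)
    have h2 : rk N (B ∩ C.Q (c3 i)) + rk N (insert x B) ≤
        rk N (insert x (B ∩ C.Q (c3 i))) + rk N B := by
      apply rk_submod'
      · rintro y (h | h)
        · exact Or.inl (Or.inl h)
        · exact Or.inr h
      · exact subset_insert _ _
      · exact inter_subset_left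
    omega
  · have hsum := cnt_sum C hT
    have hle : rk N (insert x B) ≤ 3 * r - 2 :=
      num_le (C.desc (insert x B) (insert_subset hxE hBE))
    have hd := C.desc B hBE
    have b0 := hBc 0
    have b1 := hBc 1
    have b2 := hBc 2
    have b3 := hBc 3
    have b4 := hBc 4
    rw [C.card0] at b0
    rw [C.card1] at b1
    rw [C.card2] at b2
    rw [C.card3] at b3
    rw [C.card4] at b4
    have hfull : rk N B = 3 * r - 2 := by
      fin_cases i
      · change ¬ cnt C.Q T 0 ≤ 8 at h8
        change cnt C.Q T 0 ≤ 10 at h10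
        change _ → cnt C.Q T 0 ≤ 9 at h9
        change cnt C.Q (insert x T) 0 = cnt C.Q T 0 + 1 at ci
        have e1 := cj 1 (by decide)
        have e2 := cj 2 (by decide)
        have e3 := cj 3 (by decide)
        have e4 := cj 4 (by decide)
        by_cases h' : cnt C.Q T 0 = 9
        · exact num_full0 hr (by omega) (by omega) (by omega) hd
        · exact num_fullh0 hr (by omega) (by omega) (by omega) (by omega) hd
      · change ¬ cnt C.Q T 1 ≤ 8 at h8
        change cnt C.Q T 1 ≤ 10 at h10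
        change _ → cnt C.Q T 1 ≤ 9 at h9
        change cnt C.Q (insert x T) 1 = cnt C.Q T 1 + 1 at ci
        have e1 := cj 0 (by decide)
        have e2 := cj 2 (by decide)
        have e3 := cj 3 (by decide)
        have e4 := cj 4 (by decide)
        by_cases h' : cnt C.Q T 1 = 9
        · exact num_full1 hr (by omega) (by omega) (by omega) hd
        · exact num_fullh1 hr (by omega) (by omega) (by omega) (by omega) hd
      · change ¬ cnt C.Q T 2 ≤ 8 at h8
        change cnt C.Q T 2 ≤ 10 at h10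
        change _ → cnt C.Q T 2 ≤ 9 at h9
        change cnt C.Q (insert x T) 2 = cnt C.Q T 2 + 1 at ci
        have e1 := cj 0 (by decide)
        have e2 := cj 1 (by decide)
        have e3 := cj 3 (by decide)
        have e4 := cj 4 (by decide)
        by_cases h' : cnt C.Q T 2 = 9
        · exact num_full2 hr (by omega) (by omega) (by omega) hd
        · exact num_fullh2 hr (by omega) (by omega) (by omega) (by omega) hd
    omega

/-- The situation after some steps of the recursion: the current matroid is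
`(N ／ L) ↾ Y`, and `S` is the set of elements of `M` deleted so far. -/
structure St (C : Cfg N r) (K : Matroid α) (L Y S : Set α) : Prop where
  hK : K = (N ／ L) ↾ Y
  hY : Y ⊆ N.E \ L
  hS : S ⊆ C.E
  dj : Disjoint S Y
  skew : Skew N L Y (C.E \ (S ∪ Y))

lemma St.fin {K : Matroid α} {L Y S : Set α} (st : St C K L Y S) : K.Finite := by
  rw [st.hK]
  exact restrict_finite (N.ground_finite.subset (st.hY.trans sdiff_subset))

lemma nullity_E (hr : 3 ≤ r) (C : Cfg N r) : C.E.ncard = rk N C.E + 31 := by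
  have h := cnt_sum C (X := C.E) Subset.rfl
  have hd := C.desc C.E Subset.rfl
  have e : ∀ c, cnt C.Q C.E c = (C.Q c).ncard := by
    intro c
    unfold cnt
    rw [inter_eq_self_of_subset_right (Q_subset_E C c)]
  rw [e, e, e, e, e, C.card0, C.card1, C.card2, C.card3, C.card4] at h hd
  have := num_the hr (by omega) (by omega) (by omega) hd
  omega

lemma good (hr : 300000 ≤ r) {K : Matroid α} {L Y S : Set α} {t l : ℕ} (st : St C K L Y S)
    (hd : DepthLE CDTrans K t) (i : Fin 3) (hi : r ≤ cnt C.Q Y (c3 i)) (hl : rk N L ≤ l)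
    (hl3 : l ≤ 3) (g1 : 3 + cnt C.Q S (c3 i) ≤ S.ncard + l)
    (g2 : 2 + cnt C.Q S (c3 i) + cnt C.Q S 3 + cnt C.Q S 4 ≤ S.ncard + l)
    (hb : S.ncard + l + t ≤ 14) : False := by
  have hKfin := st.fin
  have hKE : K.E = Y := by rw [st.hK]; rfl
  set Z := Y ∩ C.E with hZ
  set A := Y ∩ C.Q (c3 i) with hA
  have hAZ : A ⊆ Z := inter_subset_inter_right _ (Q_subset_E C _)
  have hZfin : Z.Finite := C.finE.subset inter_subset_right
  have hSfin : S.Finite := C.finE.subset st.hS
  have hpot := potential hd hKfin Z A hAZ (by rw [hKE]; exact inter_subset_left) ?_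
  · -- numeric contradiction
    have e1 : rk K A + rk N L = rk N (A ∪ L) := by rw [st.hK]; exact rk_minor inter_subset_left
    have e2 : rk K Z + rk N L = rk N (Z ∪ L) := by rw [st.hK]; exact rk_minor inter_subset_left
    have hAr : rk N A = r := by
      rw [rk_class (by omega) C (i := i) inter_subset_right]
      exact min_eq_right hi
    have e3 : rk N A ≤ rk N (A ∪ L) := rk_mono subset_union_left
    have e4 : rk N Z ≤ rk N (Z ∪ L) := rk_mono subset_union_left
    have e5 : Z.ncard + rk N C.E ≤ C.E.ncard + rk N Z := rk_nullity_mono inter_subset_right C.finE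
    have e6 := nullity_E (by omega) C
    have e7 : Z.ncard ≤ rk K Z + 34 := by omega
    have hc : 2 ^ (t - 1) - 1 ≤ 8191 := by
      have : 2 ^ (t - 1) ≤ 2 ^ 13 := Nat.pow_le_pow_right (by norm_num) (by omega)
      omega
    have e8 : (2 ^ (t - 1) - 1) * Z.ncard ≤ (2 ^ (t - 1) - 1) * rk K Z + (2 ^ (t - 1) - 1) * 34 := by
      rw [← Nat.mul_add]; exact Nat.mul_le_mul_left _ e7
    have e9 : (2 ^ (t - 1) - 1) * 34 ≤ 8191 * 34 := Nat.mul_le_mul_right _ hc
    omega
  · intro S'' hS'' hcard x hx hxS''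
    have hxY : x ∈ Y := hx.1
    have hxQ : x ∈ C.Q (c3 i) := hx.2
    have hxS : x ∉ S := fun h => st.dj.le_bot ⟨h, hxY⟩
    set T := S ∪ S'' with hTdef
    have hTE : T ⊆ C.E := union_subset st.hS (hS''.trans inter_subset_right)
    have hTfin : T.Finite := C.finE.subset hTE
    have hxT : x ∉ T := by rintro (h | h); exacts [hxS h, hxS'' h]
    have hTcard : T.ncard ≤ S.ncard + S''.ncard := ncard_union_le _ _
    have hTc : ∀ c, cnt C.Q S c ≤ cnt C.Q T c := fun c => cnt_mono C.fin subset_union_left c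
    have hTs := cnt_sum C hTE
    have hSs := cnt_sum C st.hS
    have t0 := hTc 0
    have t1 := hTc 1
    have t2 := hTc 2
    have t3 := hTc 3
    have t4 := hTc 4
    have key : T.ncard ≤ 13 ∧ cnt C.Q T (c3 i) ≤ 10 ∧
        (cnt C.Q T 3 + cnt C.Q T 4 = 2 → cnt C.Q T (c3 i) ≤ 9) := by
      fin_cases i
      · change 3 + cnt C.Q S 0 ≤ S.ncard + l at g1
        change 2 + cnt C.Q S 0 + cnt C.Q S 3 + cnt C.Q S 4 ≤ S.ncard + l at g2
        change _ ∧ cnt C.Q T 0 ≤ 10 ∧ (_ → cnt C.Q T 0 ≤ 9)
        refine ⟨by omega, by omega, fun h => by omega⟩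
      · change 3 + cnt C.Q S 1 ≤ S.ncard + l at g1
        change 2 + cnt C.Q S 1 + cnt C.Q S 3 + cnt C.Q S 4 ≤ S.ncard + l at g2
        change _ ∧ cnt C.Q T 1 ≤ 10 ∧ (_ → cnt C.Q T 1 ≤ 9)
        refine ⟨by omega, by omega, fun h => by omega⟩
      · change 3 + cnt C.Q S 2 ≤ S.ncard + l at g1
        change 2 + cnt C.Q S 2 + cnt C.Q S 3 + cnt C.Q S 4 ≤ S.ncard + l at g2
        change _ ∧ cnt C.Q T 2 ≤ 10 ∧ (_ → cnt C.Q T 2 ≤ 9)
        refine ⟨by omega, by omega, fun h => by omega⟩
    have hfree := notfree (by omega) C hTE hxQ hxT key.1 key.2.1 key.2.2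
    set B := C.E \ insert x T with hB
    set B1 := Z \ insert x S'' with hB1
    set W := C.E \ (S ∪ Y) with hW
    have hBsub : B ⊆ B1 ∪ W := by
      rintro y ⟨hyE, hyT⟩
      have hyx : y ≠ x := fun h => hyT (Or.inl h)
      have hyS : y ∉ S := fun h => hyT (Or.inr (Or.inl h))
      have hyS'' : y ∉ S'' := fun h => hyT (Or.inr (Or.inr h))
      by_cases hyY : y ∈ Y
      · left
        refine ⟨⟨hyY, hyE⟩, ?_⟩
        rintro (h | h)
        · exact hyx h
        · exact hyS'' h
      · right
        refine ⟨hyE, ?_⟩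
        rintro (h | h)
        · exact hyS h
        · exact hyY h
    -- x in the closure of B1 ∪ W ∪ L
    have hcl1 : rk N (insert x B1 ∪ W ∪ L) ≤ rk N (B1 ∪ W ∪ L) := by
      have h2 : rk N B + rk N (insert x B1 ∪ W ∪ L) ≤ rk N (insert x B) + rk N (B1 ∪ W ∪ L) := by
        apply rk_submod'
        · rintro y (((h | h) | h) | h)
          · exact Or.inl (Or.inl h)
          · exact Or.inr (Or.inl (Or.inl h))
          · exact Or.inr (Or.inl (Or.inr h))
          · exact Or.inr (Or.inr h)
        · exact subset_insert _ _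
        · exact hBsub.trans subset_union_left
      omega
    have hB1Y : insert x B1 ⊆ Y := insert_subset hxY (sdiff_subset.trans inter_subset_left)
    have hsk1 : Skew N L (insert x B1) W := st.skew.mono hB1Y Subset.rfl
    have hcl2 : rk N (insert x B1 ∪ L) ≤ rk N (B1 ∪ L) := by
      unfold Skew at hsk1
      have h3 : rk N L + rk N (B1 ∪ W ∪ L) ≤ rk N (B1 ∪ L) + rk N (W ∪ L) := by
        apply rk_submod'
        · rintro y ((h | h) | h)
          · exact Or.inl (Or.inl h)
          · exact Or.inr (Or.inl h)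
          · exact Or.inr (Or.inr h)
        · exact subset_union_right
        · exact subset_union_right
      omega
    have hxE : x ∈ N.E := (st.hY hxY).1
    have hxL : x ∉ L := (st.hY hxY).2
    have hcl3 : x ∈ N.closure (B1 ∪ L) := by
      apply mem_closure_of_rk hxE
      rw [← insert_union]; exact hcl2
    rw [st.hK, restrict_closure_eq _ (sdiff_subset.trans inter_subset_left)
      (by rw [contract_ground]; exact st.hY), contract_closure_eq]
    exact ⟨⟨hcl3, hxL⟩, hxY⟩

end Pool.Agent.CStar
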