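import Pool.Agent.Helper68.CStar.Rec

namespace Pool.Agent.CStar

open Set Matroid

/-- The classes of the example: three intervals of `300009` numbers and two singletons. -/
def exQ : Fin 5 → Set ℕ :=
  ![Ico 0 300009, Ico 300009 600018, Ico 600018 900027, {900027}, {900028}]

lemma exQ_ncard_Ico (a b : ℕ) : (Ico a b : Set ℕ).ncard = b - a := by
  rw [← Finset.coe_Ico, ncard_coe_finset, Nat.card_Ico]

/-- The example. -/
def exParts : Parts ℕ 300000 where
  Q := exQ
  fin := by
    intro c
    fin_cases c
    · exact finite_Ico _ _
    · exact finite_Ico _ _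
    · exact finite_Ico _ _
    · exact finite_singleton _
    · exact finite_singleton _
  disj := by
    intro c d hcd
    rw [Set.disjoint_left]
    intro x hc hd
    fin_cases c <;> fin_cases d <;> first
      | exact absurd rfl hcd
      | (simp only [exQ] at hc hd
         simp at hc hd
         omega)
  card0 := exQ_ncard_Ico _ _
  card1 := exQ_ncard_Ico _ _
  card2 := exQ_ncard_Ico _ _
  card3 := ncard_singleton _
  card4 := ncard_singleton _

lemma exParts_g : (900029 : ℕ) ∉ exParts.E := by
  intro h
  obtain ⟨c, hc⟩ := mem_iUnion.1 h
  change 900029 ∈ exQ c at hc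
  fin_cases c <;> simp [exQ] at hc

end Pool.Agent.CStar
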