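import Pool.Agent.Helper68.CStar.Good

set_option linter.unusedVariables false
set_option linter.unusedSectionVars false

namespace Pool.Agent.CStar

open Set Matroid

variable {α : Type*} {N : Matroid α} [N.Finite] {r : ℕ} {C : Cfg N r}

lemma St.E_eq {K : Matroid α} {L Y S : Set α} (st : St C K L Y S) : K.E = Y := by
  rw [st.hK]; rfl

lemma St.comp {K : Matroid α} {L Y S U : Set α} (st : St C K L Y S) (hU : U ⊆ Y)
    (hcl : Closed K U) : St C (K ↾ U) L U S where
  hK := by rw [st.hK, restrict_restrict_eq _ hU]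
  hY := hU.trans st.hY
  hS := st.hS
  dj := st.dj.mono_right hU
  skew := by
    have h1 : Skew N L U (Y \ U) := skew_of_closed st.hY hU (by rw [← st.hK]; exact hcl)
    have h2 : Skew N L (U ∪ Y \ U) (C.E \ (S ∪ Y)) := by
      rw [union_sdiff_cancel hU]; exact st.skew
    refine (h1.join h2).mono Subset.rfl ?_
    rintro y ⟨hyE, hy⟩
    by_cases hyY : y ∈ Y
    · exact Or.inl ⟨hyY, fun h => hy (Or.inr h)⟩
    · refine Or.inr ⟨hyE, ?_⟩
      rintro (h | h)
      · exact hy (Or.inl h)
      · exact hyY h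

lemma St.restrictE {K : Matroid α} {L Y S : Set α} (st : St C K L Y S) :
    St C ((N ／ L) ↾ (Y ∩ C.E)) L (Y ∩ C.E) S where
  hK := rfl
  hY := inter_subset_left.trans st.hY
  hS := st.hS
  dj := st.dj.mono_right inter_subset_left
  skew := by
    refine st.skew.mono inter_subset_left ?_
    rintro y ⟨hyE, hy⟩
    refine ⟨hyE, ?_⟩
    rintro (h | h)
    · exact hy (Or.inl h)
    · exact hy (Or.inr ⟨h, hyE⟩)

lemma St.del_out {K : Matroid α} {L Y S : Set α} {d : α} (st : St C K L Y S)
    (hdE : d ∉ C.E) : St C (K ＼ {d}) L (Y \ {d}) S where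
  hK := by
    rw [delete_eq_restrict, st.E_eq, st.hK, restrict_restrict_eq _ sdiff_subset]
  hY := sdiff_subset.trans st.hY
  hS := st.hS
  dj := st.dj.mono_right sdiff_subset
  skew := by
    refine st.skew.mono sdiff_subset ?_
    rintro y ⟨hyE, hy⟩
    refine ⟨hyE, ?_⟩
    rintro (h | h)
    · exact hy (Or.inl h)
    · refine hy (Or.inr ⟨h, ?_⟩)
      rintro rfl
      exact hdE hyE

lemma St.del_in {K : Matroid α} {L Y S : Set α} {d : α} (st : St C K L Y S)
    (hdE : d ∈ C.E) : St C (K ＼ {d}) L (Y \ {d}) (insert d S) where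
  hK := by
    rw [delete_eq_restrict, st.E_eq, st.hK, restrict_restrict_eq _ sdiff_subset]
  hY := sdiff_subset.trans st.hY
  hS := insert_subset hdE st.hS
  dj := by
    rw [disjoint_left]
    rintro y (h | h) ⟨h1, h2⟩
    · exact h2 h
    · exact st.dj.le_bot ⟨h, h1⟩
  skew := by
    refine st.skew.mono sdiff_subset ?_
    rintro y ⟨hyE, hy⟩
    refine ⟨hyE, ?_⟩
    rintro (h | h)
    · exact hy (Or.inl (Or.inr h))
    · by_cases hyd : y = d
      · exact hy (Or.inl (Or.inl hyd))
      · exact hy (Or.inr ⟨h, hyd⟩)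

lemma St.con {K : Matroid α} {L Y S : Set α} {d : α} (st : St C K L Y S)
    (hd : d ∈ Y) : St C (K ／ {d}) (L ∪ {d}) (Y \ {d}) S where
  hK := by
    rw [st.hK, restrict_contract_eq_contract_restrict _ (singleton_subset_iff.2 hd),
      contract_contract]
  hY := by
    rintro y ⟨h1, h2⟩
    refine ⟨(st.hY h1).1, ?_⟩
    rintro (h | h)
    · exact (st.hY h1).2 h
    · exact h2 h
  hS := st.hS
  dj := st.dj.mono_right sdiff_subset
  skew := by
    have h1 := st.skew.contract hd
    unfold Skew at h1 ⊢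
    have e1 : C.E \ (S ∪ Y \ {d}) ∪ (L ∪ {d}) = C.E \ (S ∪ Y) ∪ (L ∪ {d}) := by
      ext y
      simp only [mem_union, mem_sdiff, mem_singleton_iff, not_or, not_and, not_not]
      by_cases hy : y = d
      · simp [hy]
      · simp only [hy, or_false]
    have e2 : Y \ {d} ∪ C.E \ (S ∪ Y \ {d}) ∪ (L ∪ {d}) =
        Y \ {d} ∪ C.E \ (S ∪ Y) ∪ (L ∪ {d}) := by
      rw [union_assoc, e1, ← union_assoc]
    rw [e1, e2]
    exact h1

lemma rk_union_singleton_le (L : Set α) (d : α) {l : ℕ} (h : rk N L ≤ l) :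
    rk N (L ∪ {d}) ≤ l + 1 := by
  have := rk_union_le (M := N) L {d}
  have := rk_singleton_le (M := N) d
  omega

lemma cnt_sdiff_singleton (C : Cfg N r) (Y : Set α) (d : α) (c : Fin 5) :
    cnt C.Q Y c ≤ cnt C.Q (Y \ {d}) c + 1 := by
  unfold cnt
  have h1 : Y ∩ C.Q c ⊆ (Y \ {d}) ∩ C.Q c ∪ {d} := by
    rintro y ⟨h1, h2⟩
    by_cases hy : y = d
    · exact Or.inr hy
    · exact Or.inl ⟨⟨h1, hy⟩, h2⟩
  have hfin : ((Y \ {d}) ∩ C.Q c).Finite := (C.fin c).subset inter_subset_right
  calc (Y ∩ C.Q c).ncard ≤ ((Y \ {d}) ∩ C.Q c ∪ {d}).ncard :=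
        ncard_le_ncard h1 (hfin.union (finite_singleton d))
    _ ≤ _ := by
        refine (ncard_union_le _ _).trans ?_
        rw [ncard_singleton]

/-- while few elements have been deleted, a large class is not broken up -/
lemma St.dich (hr : 3 ≤ r) {K : Matroid α} {L Y S U : Set α} (st : St C K L Y S)
    (hL : rk N L ≤ 2) (hs : S.ncard ≤ 4) (hU : U ⊆ Y) (hcl : Closed K U) (i : Fin 3) :
    cnt C.Q U (c3 i) ≤ 2 ∨ r + 3 ≤ cnt C.Q U (c3 i) := by
  have st' := st.comp hU hcl
  have hsk := (st'.skew.mono (A' := U ∩ C.Q (c3 i)) inter_subset_left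
    (B' := (C.E \ (S ∪ U)) ∩ C.Q (c3 i)) inter_subset_left).rk_le
  rw [rk_class hr C (i := i) inter_subset_right, rk_class hr C (i := i) inter_subset_right,
    rk_class hr C (i := i) (union_subset inter_subset_right inter_subset_right)] at hsk
  have hSfin : S.Finite := C.finE.subset st.hS
  have hcov : C.Q (c3 i) ⊆ (U ∩ C.Q (c3 i)) ∪ ((C.E \ (S ∪ U)) ∩ C.Q (c3 i)) ∪ S := by
    intro y hy
    by_cases h1 : y ∈ S
    · exact Or.inr h1
    by_cases h2 : y ∈ U
    · exact Or.inl (Or.inl ⟨h2, hy⟩)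
    · refine Or.inl (Or.inr ⟨⟨Q_subset_E C _ hy, ?_⟩, hy⟩)
      rintro (h | h)
      exacts [h1 h, h2 h]
  have f1 : (U ∩ C.Q (c3 i)).Finite := (C.fin _).subset inter_subset_right
  have f2 : ((C.E \ (S ∪ U)) ∩ C.Q (c3 i)).Finite := (C.fin _).subset inter_subset_right
  have h1 := ncard_le_ncard hcov ((f1.union f2).union hSfin)
  rw [card_c3] at h1
  have h2 := ncard_union_le (U ∩ C.Q (c3 i) ∪ (C.E \ (S ∪ U)) ∩ C.Q (c3 i)) S
  have h3 := ncard_union_le (U ∩ C.Q (c3 i)) ((C.E \ (S ∪ U)) ∩ C.Q (c3 i))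
  have e : cnt C.Q U (c3 i) = (U ∩ C.Q (c3 i)).ncard := rfl
  rw [e]
  omega

lemma closed_ground (K : Matroid α) : Closed K K.E := fun _ hC _ => hC.subset_ground

lemma St.large (hr : 3 ≤ r) {K : Matroid α} {L Y S : Set α} (st : St C K L Y S)
    (hL : rk N L ≤ 2) (hs : S.ncard ≤ 4) (i : Fin 3) (h : 3 ≤ cnt C.Q Y (c3 i)) :
    r + 3 ≤ cnt C.Q Y (c3 i) := by
  have := st.dich hr hL hs (U := Y) Subset.rfl (by rw [← st.E_eq]; exact closed_ground K) i
  omega

/-- some component contains most of a large class -/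
lemma St.exists_comp (hr : 10 ≤ r) {K : Matroid α} {L Y S : Set α} (st : St C K L Y S)
    (hL : rk N L ≤ 2) (hs : S.ncard ≤ 4) (i : Fin 3) (h : 3 ≤ cnt C.Q Y (c3 i)) :
    ∃ U, IsComponent K U ∧ r + 3 ≤ cnt C.Q U (c3 i) := by
  have hfin := st.fin
  by_contra hcon
  push Not at hcon
  have key := components_induction (M := K) (fun U => cnt C.Q U (c3 i) ≤ 2) (by simp [cnt_empty]) ?_
  · rw [st.E_eq] at key; omega
  · intro U V hU hcl hV hdis hUQ
    have hVE : V ⊆ Y := by rw [← st.E_eq]; exact hV.subset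
    have hUE : U ⊆ Y := by rw [← st.E_eq]; exact hU
    have h1 := st.dich (by omega) hL hs hVE hV.closed i
    have h2 := hcon V hV
    have h3 := st.dich (by omega) hL hs (union_subset hUE hVE) hcl i
    have h4 : cnt C.Q (U ∪ V) (c3 i) ≤ cnt C.Q U (c3 i) + cnt C.Q V (c3 i) := by
      unfold cnt
      rw [union_inter_distrib_right]
      exact ncard_union_le _ _
    omega


lemma encard_ne_one_of_cnt {K : Matroid α} {L Y S : Set α} (st : St C K L Y S) {c : Fin 5}
    (h : 2 ≤ cnt C.Q Y c) : K.E.encard ≠ 1 := by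
  intro h1
  rw [st.E_eq] at h1
  have h2 : Y.ncard = 1 := by
    unfold ncard; rw [h1]; rfl
  have hYfin : Y.Finite := N.ground_finite.subset (st.hY.trans sdiff_subset)
  have h3 : cnt C.Q Y c ≤ Y.ncard := ncard_le_ncard inter_subset_left hYfin
  omega

/-- Two large classes that are held together cannot be separated in time when the contracted
set has rank two. -/
lemma two_parts (hr : 300000 ≤ r) {L : Set α} (hL : rk N L ≤ 2) (j k : Fin 3) (hjk : j ≠ k)
    {K : Matroid α} {t : ℕ} (hd : DepthLE CDTrans K t) : ∀ Y V : Set α, St C K L Y ∅ →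
    V ⊆ Y ∩ C.E →
    (∀ x ∈ V, ∀ y ∈ V, x ≠ y → ∃ D, (N ／ L).IsCircuit D ∧ D ⊆ Y ∩ C.E ∧ x ∈ D ∧ y ∈ D) →
    3 ≤ cnt C.Q V (c3 j) → 3 ≤ cnt C.Q V (c3 k) → t ≤ 12 → False := by
  induction hd with
  | single K t h1 ht =>
    intro Y V st hV hVc hj hk htt
    refine encard_ne_one_of_cnt st (c := c3 j) ?_ h1
    have : cnt C.Q V (c3 j) ≤ cnt C.Q Y (c3 j) :=
      cnt_mono C.fin (hV.trans inter_subset_left) (c3 j)
    omega
  | comps K t hc hK ih =>
    intro Y V st hV hVc hj hk htt
    have hfin := st.fin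
    -- a vertex of V
    have hVne : V.Nonempty := by
      by_contra hcon
      rw [not_nonempty_iff_eq_empty] at hcon
      rw [hcon, cnt_empty] at hj
      simp at hj
    obtain ⟨v, hv⟩ := hVne
    have hvK : v ∈ K.E := by rw [st.E_eq]; exact (hV hv).1
    obtain ⟨U, hU, hvU⟩ := exists_component hvK
    have hUY : U ⊆ Y := by rw [← st.E_eq]; exact hU.subset
    have hcirc : ∀ D, (N ／ L).IsCircuit D → D ⊆ Y ∩ C.E → K.IsCircuit D := by
      intro D hD hDY
      rw [st.hK, restrict_isCircuit_iff (by rw [contract_ground]; exact st.hY)]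
      exact ⟨hD, hDY.trans inter_subset_left⟩
    have hVU : V ⊆ U := by
      intro w hw
      by_cases hwv : w = v
      · rw [hwv]; exact hvU
      · obtain ⟨D, hD, hDY, h1, h2⟩ := hVc w hw v hv hwv
        exact hU.closed D (hcirc D hD hDY) ⟨v, h2, hvU⟩ h1
    refine ih U hU U V (st.comp hUY hU.closed) ?_ ?_ hj hk htt
    · intro w hw; exact ⟨hVU hw, (hV hw).2⟩
    · intro x hx y hy hxy
      obtain ⟨D, hD, hDY, h1, h2⟩ := hVc x hx y hy hxy
      refine ⟨D, hD, ?_, h1, h2⟩
      have := hU.closed D (hcirc D hD hDY) ⟨x, h1, hVU hx⟩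
      intro z hz
      exact ⟨this hz, (hDY hz).2⟩
  | step K K' t hc hne hT hd' ih =>
    intro Y V st hV hVc hj hk htt
    have hVY : V ⊆ Y := hV.trans inter_subset_left
    have lj : r + 3 ≤ cnt C.Q Y (c3 j) := st.large (by omega) hL (by simp) j
      (hj.trans (cnt_mono C.fin hVY (c3 j)))
    have lk : r + 3 ≤ cnt C.Q Y (c3 k) := st.large (by omega) hL (by simp) k
      (hk.trans (cnt_mono C.fin hVY (c3 k)))
    rcases hT with ⟨d, hdK, rfl⟩ | ⟨d, hdK, rfl⟩
    · rw [st.E_eq] at hdK
      have hst := st.con hdK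
      have hc1 := cnt_sdiff_singleton C Y d (c3 j)
      refine good hr hst hd' j (by omega) (l := 3) (rk_union_singleton_le L d hL) le_rfl ?_ ?_ ?_
      · simp [cnt_empty]
      · simp [cnt_empty]
      · simp; omega
    · rw [st.E_eq] at hdK
      by_cases hdE : d ∈ C.E
      · have hst := st.del_in hdE
        rw [insert_empty_eq] at hst
        obtain ⟨i, hi, hdi⟩ : ∃ i : Fin 3, (r + 3 ≤ cnt C.Q Y (c3 i)) ∧ d ∉ C.Q (c3 i) := by
          by_cases h : d ∈ C.Q (c3 j)
          · refine ⟨k, lk, fun h' => ?_⟩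
            have hne : c3 j ≠ c3 k := by
              intro h; apply hjk; simpa [c3] using h
            exact (C.disj hne).le_bot ⟨h, h'⟩
          · exact ⟨j, lj, h⟩
        have hc1 := cnt_sdiff_singleton C Y d (c3 i)
        have hcnt0 : cnt C.Q ({d} : Set α) (c3 i) = 0 := by
          unfold cnt
          rw [singleton_inter_eq_empty.2 hdi, ncard_empty]
        have hsum := cnt_sum C (X := {d}) (singleton_subset_iff.2 hdE)
        rw [ncard_singleton] at hsum
        refine good hr hst hd' i (by omega) (l := 2) hL (by norm_num) ?_ ?_ ?_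
        · rw [hcnt0, ncard_singleton]
        · rw [hcnt0, ncard_singleton]; omega
        · rw [ncard_singleton]; omega
      · have hst := st.del_out hdE
        have hsub : Y ∩ C.E ⊆ (Y \ {d}) ∩ C.E := by
          rintro y ⟨h1, h2⟩
          exact ⟨⟨h1, fun h => hdE (by rw [mem_singleton_iff] at h; rwa [← h])⟩, h2⟩
        refine ih (Y \ {d}) V hst (hV.trans hsub) ?_ hj hk (by omega)
        intro x hx y hy hxy
        obtain ⟨D, hD, hDY, h1, h2⟩ := hVc x hx y hy hxy
        exact ⟨D, hD, hDY.trans hsub, h1, h2⟩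

/-- assemble a big set from three sets holding the three large classes -/
lemma big_of (hr : 3 ≤ r) (C : Cfg N r) (U : Fin 3 → Set α)
    (hU : ∀ i, r ≤ cnt C.Q (U i) (c3 i)) :
    Big C ((⋃ i : Fin 3, U i ∩ C.Q (c3 i)) ∪ C.Q 3 ∪ C.Q 4) := by
  have hdis : ∀ c d : Fin 5, c ≠ d → ∀ y, y ∈ C.Q c → y ∈ C.Q d → False :=
    fun c d hcd y h1 h2 => (C.disj hcd).le_bot ⟨h1, h2⟩
  refine ⟨?_, ?_, ?_, ?_⟩
  · refine union_subset (union_subset (iUnion_subset fun i => ?_) (Q_subset_E C 3)) (Q_subset_E C 4)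
    exact inter_subset_right.trans (Q_subset_E C _)
  · intro i
    refine (hU i).trans ?_
    refine ncard_le_ncard ?_ ((C.fin _).subset inter_subset_right)
    rintro y ⟨h1, h2⟩
    exact ⟨Or.inl (Or.inl (mem_iUnion.2 ⟨i, h1, h2⟩)), h2⟩
  · rw [← C.card3]
    unfold cnt
    congr 1
    exact inter_eq_self_of_subset_right (fun y hy => Or.inl (Or.inr hy))
  · rw [← C.card4]
    unfold cnt
    congr 1
    exact inter_eq_self_of_subset_right (fun y hy => Or.inr hy)

lemma mem_sel {Q : Fin 5 → Set α} {X : Set α} {J : Finset (Fin 5)} {y : α} :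
    y ∈ sel Q X J ↔ y ∈ X ∧ ∃ c ∈ J, y ∈ Q c := by
  simp [sel]

/-- an element of the assembled set lying in the large class `i` comes from `U i` -/
lemma mem_of_big (C : Cfg N r) (U : Fin 3 → Set α) {i : Fin 3} {y : α}
    (hy : y ∈ (⋃ i : Fin 3, U i ∩ C.Q (c3 i)) ∪ C.Q 3 ∪ C.Q 4) (hyi : y ∈ C.Q (c3 i)) :
    y ∈ U i := by
  have hdis : ∀ c d : Fin 5, c ≠ d → y ∈ C.Q c → y ∈ C.Q d → False :=
    fun c d hcd h1 h2 => (C.disj hcd).le_bot ⟨h1, h2⟩
  rcases hy with (hy | hy) | hy
  · obtain ⟨k, h1, h2⟩ := mem_iUnion.1 hy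
    by_cases hik : k = i
    · rw [← hik]; exact h1
    · exact (hdis (c3 k) (c3 i) (by intro h; apply hik; simpa [c3] using h) h2 hyi).elim
  · exact (hdis 3 (c3 i) (by fin_cases i <;> decide) hy hyi).elim
  · exact (hdis 4 (c3 i) (by fin_cases i <;> decide) hy hyi).elim


/-- Three large classes present after contracting rank two and deleting nothing. -/
lemma at_two (hr : 300000 ≤ r) {K : Matroid α} {L Y : Set α} {t : ℕ} (st : St C K L Y ∅)
    (hL : rk N L ≤ 2) (hd : DepthLE CDTrans K t) (h3 : ∀ i : Fin 3, 3 ≤ cnt C.Q Y (c3 i))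
    (ht : t ≤ 12) : False := by
  have stE := st.restrictE
  set Z := Y ∩ C.E with hZ
  set KZ := (N ／ L) ↾ Z with hKZ
  have hfin := stE.fin
  have hZcnt : ∀ i : Fin 3, 3 ≤ cnt C.Q Z (c3 i) := by
    intro i
    refine (h3 i).trans ?_
    refine ncard_le_ncard ?_ ((C.fin _).subset inter_subset_right)
    rintro y ⟨h1, h2⟩
    exact ⟨⟨h1, Q_subset_E C _ h2⟩, h2⟩
  have hex := fun i : Fin 3 => stE.exists_comp (by omega) hL (by simp) i (hZcnt i)
  choose U hU hUc using hex
  have hUZ : ∀ i, U i ⊆ Z := fun i => by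
    have := (hU i).subset
    rwa [stE.E_eq] at this
  by_cases hsame : ∃ j k : Fin 3, j ≠ k ∧ U j = U k
  · obtain ⟨j, k, hjk, hUe⟩ := hsame
    refine two_parts hr hL j k hjk hd Y (U j) st (hUZ j) ?_ ?_ ?_ ht
    · intro x hx y hy hxy
      obtain ⟨D, hD, h1, h2⟩ := (hU j).prop.2 hx hy hxy
      rw [restrict_isCircuit_iff (by rw [contract_ground]; exact stE.hY)] at hD
      exact ⟨D, hD.1, hD.2, h1, h2⟩
    · have := hUc j; omega
    · rw [hUe]; have := hUc k; omega
  · push Not at hsame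
    have hdisU : ∀ i k, i ≠ k → ∀ y, y ∈ U i → y ∈ U k → False := by
      intro i k hik y h1 h2
      exact hsame i k hik ((hU i).eq_of_mem (hU k) h1 h2)
    obtain ⟨h0, hh0⟩ := ncard_eq_one.1 C.card3
    obtain ⟨m, hm⟩ : ∃ m : Fin 3, ∀ i : Fin 3, i ≠ m → h0 ∉ U i := by
      by_cases hex : ∃ m, h0 ∈ U m
      · obtain ⟨m, hm⟩ := hex
        exact ⟨m, fun i him hi => hdisU i m him h0 hi hm⟩
      · push Not at hex
        exact ⟨2, fun i _ => hex i⟩
    obtain ⟨i, j, hij, him, hjm⟩ : ∃ i j : Fin 3, i ≠ j ∧ i ≠ m ∧ j ≠ m := by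
      clear hm
      revert m; decide
    have hbig := big_of (by omega) C U (fun i => by have := hUc i; omega)
    set X := (⋃ i : Fin 3, U i ∩ C.Q (c3 i)) ∪ C.Q 3 ∪ C.Q 4 with hX
    have hskew : ∀ a : Fin 3, Skew N L (U a) (C.E \ U a) := by
      intro a
      have := (stE.comp (hUZ a) (hU a).closed).skew
      rwa [empty_union] at this
    have hmain : ∀ a b : Fin 3, a ≠ b → a ≠ m → b ≠ m →
        rk N (sel C.Q X {c3 a} ∪ L) + rk N (sel C.Q X {c3 b, c3 m, 3} ∪ L) ≤
          rk N (sel C.Q X {0, 1, 2, 3} ∪ L) + rk N L := by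
      intro a b hab ham hbm
      have s1 : sel C.Q X {c3 a} ⊆ U a := by
        intro y hy
        obtain ⟨hyX, c, hc, hyc⟩ := mem_sel.1 hy
        rw [Finset.mem_singleton] at hc
        subst hc
        exact mem_of_big C U hyX hyc
      have s2 : sel C.Q X {c3 b, c3 m, 3} ⊆ C.E \ U a := by
        intro y hy
        obtain ⟨hyX, c, hc, hyc⟩ := mem_sel.1 hy
        refine ⟨Q_subset_E C _ hyc, fun hya => ?_⟩
        simp only [Finset.mem_insert, Finset.mem_singleton] at hc
        rcases hc with rfl | rfl | rfl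
        · exact hdisU a b hab y hya (mem_of_big C U hyX hyc)
        · exact hdisU a m ham y hya (mem_of_big C U hyX hyc)
        · rw [hh0, mem_singleton_iff] at hyc
          subst hyc
          exact hm a ham hya
      have h1 := (hskew a).mono s1 s2
      unfold Skew at h1
      have e : sel C.Q X {c3 a} ∪ sel C.Q X {c3 b, c3 m, 3} = sel C.Q X {0, 1, 2, 3} := by
        rw [← sel_union]
        congr 1
        clear_value X
        clear h1 s1 s2 hskew hbig hX
        revert hab ham hbm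
        clear hm him hjm hij
        revert a b m
        decide
      rwa [e] at h1
    exact noSplit2 (by omega) hbig L hL i j m hij him hjm (hmain i j hij him hjm)
      (hmain j i hij.symm hjm him)

/-- The three large classes cannot be separated in time. -/
lemma three_parts (hr : 300000 ≤ r) {K : Matroid α} {t : ℕ} (hd : DepthLE CDTrans K t) :
    ∀ (L Y S : Set α) (l : ℕ), St C K L Y S → rk N L ≤ l → l ≤ 1 → S.ncard ≤ 4 →
    (∀ i : Fin 3, 3 ≤ cnt C.Q Y (c3 i)) → S.ncard + l + t ≤ 14 → False := by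
  induction hd with
  | single K t h1 ht =>
    intro L Y S l st hL hl hs h3 hb
    refine encard_ne_one_of_cnt st (c := c3 0) ?_ h1
    have := h3 0
    omega
  | comps K t hc hK ih =>
    intro L Y S l st hL hl hs h3 hb
    have hfin := st.fin
    have hex := fun i : Fin 3 => st.exists_comp (by omega) (by omega) hs i (h3 i)
    choose U hU hUc using hex
    have hUY : ∀ i, U i ⊆ Y := fun i => by
      have := (hU i).subset
      rwa [st.E_eq] at this
    by_cases hall : U 0 = U 1 ∧ U 0 = U 2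
    · refine ih (U 0) (hU 0) L (U 0) S l (st.comp (hUY 0) (hU 0).closed) hL hl hs ?_ hb
      intro i
      fin_cases i
      · have := hUc 0; simp only; exact le_trans (by omega) this
      · have := hUc 1; rw [← hall.1] at this; exact le_trans (by omega) this
      · have := hUc 2; rw [← hall.2] at this; exact le_trans (by omega) this
    · obtain ⟨i, j, k, hij, hik, hjk, hne1, hne2⟩ : ∃ i j k : Fin 3, i ≠ j ∧ i ≠ k ∧ j ≠ k ∧
          U i ≠ U j ∧ U i ≠ U k := by
        by_cases h01 : U 0 = U 1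
        · have h02 : U 0 ≠ U 2 := fun h => hall ⟨h01, h⟩
          refine ⟨2, 0, 1, by decide, by decide, by decide, h02.symm, ?_⟩
          rw [← h01]; exact h02.symm
        · by_cases h02 : U 0 = U 2
          · refine ⟨1, 0, 2, by decide, by decide, by decide, fun h => h01 h.symm, ?_⟩
            rw [← h02]; exact fun h => h01 h.symm
          · exact ⟨0, 1, 2, by decide, by decide, by decide, h01, h02⟩
      have hbig := big_of (by omega) C U (fun i => by have := hUc i; omega)
      set X := (⋃ i : Fin 3, U i ∩ C.Q (c3 i)) ∪ C.Q 3 ∪ C.Q 4 with hX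
      have hskew : Skew N L (U i) (C.E \ (S ∪ U i)) := (st.comp (hUY i) (hU i).closed).skew
      have s1 : sel C.Q X {c3 i} ⊆ U i := by
        intro y hy
        obtain ⟨hyX, c, hc, hyc⟩ := mem_sel.1 hy
        rw [Finset.mem_singleton] at hc
        subst hc
        exact mem_of_big C U hyX hyc
      have s2 : sel C.Q X {c3 j, c3 k} ⊆ C.E \ (S ∪ U i) := by
        intro y hy
        obtain ⟨hyX, c, hc, hyc⟩ := mem_sel.1 hy
        refine ⟨Q_subset_E C _ hyc, ?_⟩
        simp only [Finset.mem_insert, Finset.mem_singleton] at hc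
        rcases hc with rfl | rfl
        · have hyU := mem_of_big C U hyX hyc
          rintro (h | h)
          · exact st.dj.le_bot ⟨h, hUY j hyU⟩
          · exact hne1 ((hU i).eq_of_mem (hU j) h hyU)
        · have hyU := mem_of_big C U hyX hyc
          rintro (h | h)
          · exact st.dj.le_bot ⟨h, hUY k hyU⟩
          · exact hne2 ((hU i).eq_of_mem (hU k) h hyU)
      have h1 := hskew.mono s1 s2
      unfold Skew at h1
      have e : sel C.Q X {c3 i} ∪ sel C.Q X {c3 j, c3 k} = sel C.Q X {0, 1, 2} := by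
        rw [← sel_union]
        congr 1
        clear_value X
        clear h1 s1 s2 hskew hbig hX hne1 hne2
        revert hij hik hjk
        revert i j k
        decide
      rw [e] at h1
      exact noSplit1 (by omega) hbig L (by omega) i j k hij hik hjk h1
  | step K K' t hc hne hT hd' ih =>
    intro L Y S l st hL hl hs h3 hb
    have hlarge : ∀ i : Fin 3, r + 3 ≤ cnt C.Q Y (c3 i) := fun i =>
      st.large (by omega) (by omega) hs i (h3 i)
    rcases hT with ⟨d, hdK, rfl⟩ | ⟨d, hdK, rfl⟩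
    · -- contraction
      rw [st.E_eq] at hdK
      have hst := st.con hdK
      have hc1 := fun i : Fin 3 => cnt_sdiff_singleton C Y d (c3 i)
      have hL' := rk_union_singleton_le (N := N) L d hL
      by_cases hgood : ∃ i : Fin 3, 3 + cnt C.Q S (c3 i) ≤ S.ncard + (l + 1) ∧
          2 + cnt C.Q S (c3 i) + cnt C.Q S 3 + cnt C.Q S 4 ≤ S.ncard + (l + 1)
      · obtain ⟨i, g1, g2⟩ := hgood
        have := hc1 i
        have := hlarge i
        exact good hr hst hd' i (by omega) hL' (by omega) g1 g2 (by omega)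
      · push Not at hgood
        have b0 := hgood 0
        have b1 := hgood 1
        have b2 := hgood 2
        change 3 + cnt C.Q S 0 ≤ S.ncard + (l + 1) → _ < 2 + cnt C.Q S 0 + cnt C.Q S 3 + cnt C.Q S 4 at b0
        change 3 + cnt C.Q S 1 ≤ S.ncard + (l + 1) → _ < 2 + cnt C.Q S 1 + cnt C.Q S 3 + cnt C.Q S 4 at b1
        change 3 + cnt C.Q S 2 ≤ S.ncard + (l + 1) → _ < 2 + cnt C.Q S 2 + cnt C.Q S 3 + cnt C.Q S 4 at b2
        have hsum := cnt_sum C st.hS
        have h3' : ∀ i : Fin 3, 3 ≤ cnt C.Q (Y \ {d}) (c3 i) := fun i => by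
          have := hc1 i
          have := hlarge i
          omega
        by_cases hl0 : l = 0
        · refine ih (L ∪ {d}) (Y \ {d}) S (l + 1) hst hL' (by omega) hs h3' (by omega)
        · have hs0 : S.ncard = 0 := by omega
          have hSe : S = ∅ := by
            rwa [ncard_eq_zero (C.finE.subset st.hS)] at hs0
          subst hSe
          exact at_two hr hst (by omega) hd' h3' (by omega)
    · -- deletion
      rw [st.E_eq] at hdK
      have hc1 := fun i : Fin 3 => cnt_sdiff_singleton C Y d (c3 i)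
      have h3' : ∀ i : Fin 3, 3 ≤ cnt C.Q (Y \ {d}) (c3 i) := fun i => by
        have := hc1 i
        have := hlarge i
        omega
      by_cases hdE : d ∈ C.E
      · have hst := st.del_in hdE
        have hdS : d ∉ S := fun h => st.dj.le_bot ⟨h, hdK⟩
        have hScard : (insert d S).ncard = S.ncard + 1 :=
          ncard_insert_of_notMem hdS (C.finE.subset st.hS)
        set S' := insert d S with hS'
        by_cases hgood : ∃ i : Fin 3, 3 + cnt C.Q S' (c3 i) ≤ S'.ncard + l ∧
            2 + cnt C.Q S' (c3 i) + cnt C.Q S' 3 + cnt C.Q S' 4 ≤ S'.ncard + l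
        · obtain ⟨i, g1, g2⟩ := hgood
          have := hc1 i
          have := hlarge i
          exact good hr hst hd' i (by omega) hL (by omega) g1 g2 (by omega)
        · push Not at hgood
          have b0 := hgood 0
          have b1 := hgood 1
          have b2 := hgood 2
          change 3 + cnt C.Q S' 0 ≤ S'.ncard + l → _ < 2 + cnt C.Q S' 0 + cnt C.Q S' 3 + cnt C.Q S' 4 at b0
          change 3 + cnt C.Q S' 1 ≤ S'.ncard + l → _ < 2 + cnt C.Q S' 1 + cnt C.Q S' 3 + cnt C.Q S' 4 at b1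
          change 3 + cnt C.Q S' 2 ≤ S'.ncard + l → _ < 2 + cnt C.Q S' 2 + cnt C.Q S' 3 + cnt C.Q S' 4 at b2
          have hsum := cnt_sum C hst.hS
          have u3 : cnt C.Q S' 3 ≤ 1 := (C.cnt_le S' 3).trans_eq C.card3
          have u4 : cnt C.Q S' 4 ≤ 1 := (C.cnt_le S' 4).trans_eq C.card4
          exact ih L (Y \ {d}) S' l hst hL hl (by omega) h3' (by omega)
      · have hst := st.del_out hdE
        exact ih L (Y \ {d}) S l hst hL hl hs h3' (by omega)

/-- The lower bound. -/
theorem lower (hr : 300000 ≤ r) (C : Cfg N r) : ¬ DepthLE CDTrans N 14 := by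
  intro hd
  have e : N = (N ／ ∅) ↾ N.E := by rw [contract_empty, restrict_ground_eq_self]
  have st : St C N ∅ N.E ∅ := {
    hK := e
    hY := by simp
    hS := empty_subset _
    dj := empty_disjoint _
    skew := by
      have : C.E \ (∅ ∪ N.E) = ∅ := by
        rw [empty_union, sdiff_eq_empty]; exact C.sub
      rw [this]
      unfold Skew
      simp }
  refine three_parts hr hd ∅ N.E ∅ 0 st (by rw [rk_empty]) (by omega) (by simp) ?_ (by simp)
  intro i
  have h1 : cnt C.Q N.E (c3 i) = (C.Q (c3 i)).ncard := by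
    unfold cnt
    rw [inter_eq_self_of_subset_right ((Q_subset_E C _).trans C.sub)]
  rw [h1, card_c3]
  omega

end Pool.Agent.CStar
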