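import Pool.Agent.Helper68.CStar.Count

set_option linter.unusedVariables false

namespace Pool.Agent.CStar

open Set Matroid

variable {α : Type*}

/-- class sizes of the independent sets of the matroid `M` -/
def ind (r a0 a1 a2 bh be : ℕ) : Prop :=
  a0 ≤ r ∧ a1 ≤ r ∧ a2 ≤ r ∧ (a0 < r ∨ a1 < r) ∧ (a0 < r ∨ a2 < r) ∧ (a1 < r ∨ a2 < r) ∧
  bh ≤ 1 ∧ be ≤ 1 ∧ a0 + a1 + a2 + bh + be ≤ 3 * r - 2 ∧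
  (bh + be = 2 → a0 < r ∧ a1 < r ∧ (a2 < r ∨ (a0 + 1 < r ∧ a1 + 1 < r)))

lemma aug_core11 (r a0 a1 a2 b0 b1 b2 ch ce : ℕ)
  (i4 : a0 < r) (i5 : a1 < r) (i3 : a2 ≤ r) (i6 : (a2 < r ∨ (a0 + 1 < r ∧ a1 + 1 < r)))
  (h2 : ind r b0 b1 b2 ch ce)
  (hlt : a0 + a1 + a2 + 1 + 1 < b0 + b1 + b2 + ch + ce)
  (k0 : a0 < b0 → a0 + 1 = r ∨ a2 = r ∧ a0 + 2 = r)
  (k1 : a1 < b1 → a1 + 1 = r ∨ a2 = r ∧ a1 + 2 = r)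
  (k2 : a2 < b2 → a2 + 1 = r ∧ (a0 + 1 = r ∨ a1 + 1 = r)) : False := by
  obtain ⟨j1, j2, j3, j4, j5, j6, j7, j8⟩ := h2
  omega

lemma aug_core10 (r a0 a1 a2 b0 b1 b2 ch ce : ℕ)
  (i1 : a0 ≤ r) (i2 : a1 ≤ r) (i3 : a2 ≤ r)
  (i4 : a0 < r ∨ a1 < r) (i5 : a0 < r ∨ a2 < r) (i6 : a1 < r ∨ a2 < r)
  (h2 : ind r b0 b1 b2 ch ce)
  (hlt : a0 + a1 + a2 + 1 < b0 + b1 + b2 + ch + ce)
  (k0 : a0 < b0 → a0 + 1 = r ∧ (a1 = r ∨ a2 = r))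
  (k1 : a1 < b1 → a1 + 1 = r ∧ (a0 = r ∨ a2 = r))
  (k2 : a2 < b2 → a2 + 1 = r ∧ (a0 = r ∨ a1 = r))
  (ke : ce = 1 → (a0 = r ∨ a1 = r ∨ (a2 = r ∧ (a0 + 1 = r ∨ a1 + 1 = r)))) : False := by
  obtain ⟨j1, j2, j3, j4, j5, j6, j7, j8, j9, j10⟩ := h2
  omega

lemma aug_core01 (r a0 a1 a2 b0 b1 b2 ch ce : ℕ)
  (i1 : a0 ≤ r) (i2 : a1 ≤ r) (i3 : a2 ≤ r)
  (i4 : a0 < r ∨ a1 < r) (i5 : a0 < r ∨ a2 < r) (i6 : a1 < r ∨ a2 < r)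
  (h2 : ind r b0 b1 b2 ch ce)
  (hlt : a0 + a1 + a2 + 1 < b0 + b1 + b2 + ch + ce)
  (k0 : a0 < b0 → a0 + 1 = r ∧ (a1 = r ∨ a2 = r))
  (k1 : a1 < b1 → a1 + 1 = r ∧ (a0 = r ∨ a2 = r))
  (k2 : a2 < b2 → a2 + 1 = r ∧ (a0 = r ∨ a1 = r))
  (ke : ch = 1 → (a0 = r ∨ a1 = r ∨ (a2 = r ∧ (a0 + 1 = r ∨ a1 + 1 = r)))) : False := by
  obtain ⟨j1, j2, j3, j4, j5, j6, j7, j8, j9, j10⟩ := h2
  omega

lemma aug_core00 (r a0 a1 a2 b0 b1 b2 : ℕ)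
  (i1 : a0 ≤ r) (i2 : a1 ≤ r) (i3 : a2 ≤ r)
  (i4 : a0 < r ∨ a1 < r) (i5 : a0 < r ∨ a2 < r) (i6 : a1 < r ∨ a2 < r)
  (h2 : ind r b0 b1 b2 0 0)
  (hlt : a0 + a1 + a2 < b0 + b1 + b2)
  (k0 : a0 < b0 → a0 + 1 = r ∧ (a1 = r ∨ a2 = r))
  (k1 : a1 < b1 → a1 + 1 = r ∧ (a0 = r ∨ a2 = r))
  (k2 : a2 < b2 → a2 + 1 = r ∧ (a0 = r ∨ a1 = r)) : False := by
  obtain ⟨j1, j2, j3, j4, j5, j6, j7, j8, j9, j10⟩ := h2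
  omega

/-- what the failure of every single-element extension means -/
def Blocked (r a0 a1 a2 bh be b0 b1 b2 ch ce : ℕ) : Prop :=
  (a0 < b0 → (a0 + 1 = r ∧ (a1 = r ∨ a2 = r)) ∨ a0 = r ∨
      (bh + be = 2 ∧ (a0 + 1 = r ∨ a2 = r ∧ a0 + 2 = r))) ∧
  (a1 < b1 → (a1 + 1 = r ∧ (a0 = r ∨ a2 = r)) ∨ a1 = r ∨
      (bh + be = 2 ∧ (a1 + 1 = r ∨ a2 = r ∧ a1 + 2 = r))) ∧
  (a2 < b2 → (a2 + 1 = r ∧ (a0 = r ∨ a1 = r)) ∨ a2 = r ∨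
      (bh + be = 2 ∧ a2 + 1 = r ∧ (a0 + 1 = r ∨ a1 + 1 = r))) ∧
  (bh < ch → be = 1 ∧ (a0 = r ∨ a1 = r ∨ (a2 = r ∧ (a0 + 1 = r ∨ a1 + 1 = r)))) ∧
  (be < ce → bh = 1 ∧ (a0 = r ∨ a1 = r ∨ (a2 = r ∧ (a0 + 1 = r ∨ a1 + 1 = r))))

lemma blocked_of (r a0 a1 a2 bh be b0 b1 b2 ch ce : ℕ) (hr : 2 ≤ r)
    (hch : ch ≤ 1) (hce : ce ≤ 1)
    (h1 : ind r a0 a1 a2 bh be) (hlt : a0 + a1 + a2 + bh + be < 3 * r - 2)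
    (g0 : a0 < b0 → ¬ ind r (a0 + 1) a1 a2 bh be)
    (g1 : a1 < b1 → ¬ ind r a0 (a1 + 1) a2 bh be)
    (g2 : a2 < b2 → ¬ ind r a0 a1 (a2 + 1) bh be)
    (gh : bh < ch → ¬ ind r a0 a1 a2 (bh + 1) be)
    (ge : be < ce → ¬ ind r a0 a1 a2 bh (be + 1)) :
    Blocked r a0 a1 a2 bh be b0 b1 b2 ch ce := by
  unfold ind at *
  obtain ⟨i1, i2, i3, i4, i5, i6, i7, i8, i9, i10⟩ := h1
  refine ⟨fun h => ?_, fun h => ?_, fun h => ?_, fun h => ?_, fun h => ?_⟩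
  · have := g0 h; clear g0 g1 g2 gh ge; omega
  · have := g1 h; clear g0 g1 g2 gh ge; omega
  · have := g2 h; clear g0 g1 g2 gh ge; omega
  · have := gh h; clear g0 g1 g2 gh ge; omega
  · have := ge h; clear g0 g1 g2 gh ge; omega

lemma not_blocked (r a0 a1 a2 bh be b0 b1 b2 ch ce : ℕ) (hr : 2 ≤ r)
    (h1 : ind r a0 a1 a2 bh be) (h2 : ind r b0 b1 b2 ch ce)
    (hlt : a0 + a1 + a2 + bh + be < b0 + b1 + b2 + ch + ce)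
    (hb : Blocked r a0 a1 a2 bh be b0 b1 b2 ch ce) : False := by
  obtain ⟨i1, i2, i3, i4, i5, i6, i7, i8, i9, i10⟩ := h1
  obtain ⟨k0, k1, k2, kh, ke⟩ := hb
  have hch : ch ≤ 1 := h2.2.2.2.2.2.2.1
  have hce : ce ≤ 1 := h2.2.2.2.2.2.2.2.1
  have hb0 : b0 ≤ r := h2.1
  have hb1 : b1 ≤ r := h2.2.1
  have hb2 : b2 ≤ r := h2.2.2.1
  rcases Nat.le_one_iff_eq_zero_or_eq_one.1 i7 with rfl | rfl <;>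
  rcases Nat.le_one_iff_eq_zero_or_eq_one.1 i8 with rfl | rfl
  · have hch0 : ch = 0 := by omega
    have hce0 : ce = 0 := by omega
    subst hch0 hce0
    exact aug_core00 r a0 a1 a2 b0 b1 b2 i1 i2 i3 i4 i5 i6 h2 (by omega)
      (fun h => by have := k0 h; omega) (fun h => by have := k1 h; omega)
      (fun h => by have := k2 h; omega)
  · exact aug_core01 r a0 a1 a2 b0 b1 b2 ch ce i1 i2 i3 i4 i5 i6 h2 (by omega)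
      (fun h => by have := k0 h; omega) (fun h => by have := k1 h; omega)
      (fun h => by have := k2 h; omega) (fun h => (kh (by omega)).2)
  · exact aug_core10 r a0 a1 a2 b0 b1 b2 ch ce i1 i2 i3 i4 i5 i6 h2 (by omega)
      (fun h => by have := k0 h; omega) (fun h => by have := k1 h; omega)
      (fun h => by have := k2 h; omega) (fun h => (ke (by omega)).2)
  · obtain ⟨j1, j2, j3⟩ := i10 rfl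
    exact aug_core11 r a0 a1 a2 b0 b1 b2 ch ce j1 j2 i3 j3 h2 (by omega)
      (fun h => by have := k0 h; omega) (fun h => by have := k1 h; omega)
      (fun h => by have := k2 h; omega)


/-- numerical description of the rank of a set with class sizes `a0 a1 a2 ch ce` -/
def RkDesc (r a0 a1 a2 ch ce ρ : ℕ) : Prop :=
  ∃ i0 i1 i2 ih ie, ind r i0 i1 i2 ih ie ∧ i0 ≤ a0 ∧ i1 ≤ a1 ∧ i2 ≤ a2 ∧ ih ≤ ch ∧ ie ≤ ce ∧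
    (i0 + i1 + i2 + ih + ie = 3 * r - 2 ∨ Blocked r i0 i1 i2 ih ie a0 a1 a2 ch ce) ∧
    ρ = i0 + i1 + i2 + ih + ie

section numeric
variable {r a0 a1 a2 ch ce ρ : ℕ}

lemma num_s0 (hr : 3 ≤ r) (h : RkDesc r a0 0 0 0 0 ρ) : ρ = min a0 r := by
  obtain ⟨i0, i1, i2, ih, ie, ⟨j1, j2, j3, j4, j5, j6, j7, j8, j9, j10⟩, l0, l1, l2, lh, le, hB, rfl⟩ := h
  unfold Blocked at hB
  omega

lemma num_s1 (hr : 3 ≤ r) (h : RkDesc r 0 a1 0 0 0 ρ) : ρ = min a1 r := by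
  obtain ⟨i0, i1, i2, ih, ie, ⟨j1, j2, j3, j4, j5, j6, j7, j8, j9, j10⟩, l0, l1, l2, lh, le, hB, rfl⟩ := h
  unfold Blocked at hB
  omega

lemma num_s2 (hr : 3 ≤ r) (h : RkDesc r 0 0 a2 0 0 ρ) : ρ = min a2 r := by
  obtain ⟨i0, i1, i2, ih, ie, ⟨j1, j2, j3, j4, j5, j6, j7, j8, j9, j10⟩, l0, l1, l2, lh, le, hB, rfl⟩ := h
  unfold Blocked at hB
  omega

lemma num_d01 (hr : 3 ≤ r) (h0 : r ≤ a0) (h1 : r ≤ a1) (h : RkDesc r a0 a1 0 0 0 ρ) : ρ = 2 * r - 1 := by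
  obtain ⟨i0, i1, i2, ih, ie, ⟨j1, j2, j3, j4, j5, j6, j7, j8, j9, j10⟩, l0, l1, l2, lh, le, hB, rfl⟩ := h
  unfold Blocked at hB
  omega

lemma num_d02 (hr : 3 ≤ r) (h0 : r ≤ a0) (h2 : r ≤ a2) (h : RkDesc r a0 0 a2 0 0 ρ) : ρ = 2 * r - 1 := by
  obtain ⟨i0, i1, i2, ih, ie, ⟨j1, j2, j3, j4, j5, j6, j7, j8, j9, j10⟩, l0, l1, l2, lh, le, hB, rfl⟩ := h
  unfold Blocked at hB
  omega

lemma num_d12 (hr : 3 ≤ r) (h1 : r ≤ a1) (h2 : r ≤ a2) (h : RkDesc r 0 a1 a2 0 0 ρ) : ρ = 2 * r - 1 := by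
  obtain ⟨i0, i1, i2, ih, ie, ⟨j1, j2, j3, j4, j5, j6, j7, j8, j9, j10⟩, l0, l1, l2, lh, le, hB, rfl⟩ := h
  unfold Blocked at hB
  omega

lemma num_t (hr : 3 ≤ r) (h0 : r ≤ a0) (h1 : r ≤ a1) (h2 : r ≤ a2) (h : RkDesc r a0 a1 a2 0 0 ρ) : ρ = 3 * r - 2 := by
  obtain ⟨i0, i1, i2, ih, ie, ⟨j1, j2, j3, j4, j5, j6, j7, j8, j9, j10⟩, l0, l1, l2, lh, le, hB, rfl⟩ := h
  unfold Blocked at hB
  omega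

lemma num_h0 (hr : 3 ≤ r) (h0 : r ≤ a0) (h : RkDesc r a0 0 0 1 0 ρ) : ρ = r + 1 := by
  obtain ⟨i0, i1, i2, ih, ie, ⟨j1, j2, j3, j4, j5, j6, j7, j8, j9, j10⟩, l0, l1, l2, lh, le, hB, rfl⟩ := h
  unfold Blocked at hB
  omega

lemma num_h1 (hr : 3 ≤ r) (h1 : r ≤ a1) (h : RkDesc r 0 a1 0 1 0 ρ) : ρ = r + 1 := by
  obtain ⟨i0, i1, i2, ih, ie, ⟨j1, j2, j3, j4, j5, j6, j7, j8, j9, j10⟩, l0, l1, l2, lh, le, hB, rfl⟩ := h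
  unfold Blocked at hB
  omega

lemma num_h2 (hr : 3 ≤ r) (h2 : r ≤ a2) (h : RkDesc r 0 0 a2 1 0 ρ) : ρ = r + 1 := by
  obtain ⟨i0, i1, i2, ih, ie, ⟨j1, j2, j3, j4, j5, j6, j7, j8, j9, j10⟩, l0, l1, l2, lh, le, hB, rfl⟩ := h
  unfold Blocked at hB
  omega

lemma num_h01 (hr : 3 ≤ r) (h0 : r ≤ a0) (h1 : r ≤ a1) (h : RkDesc r a0 a1 0 1 0 ρ) : ρ = 2 * r := by
  obtain ⟨i0, i1, i2, ih, ie, ⟨j1, j2, j3, j4, j5, j6, j7, j8, j9, j10⟩, l0, l1, l2, lh, le, hB, rfl⟩ := h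
  unfold Blocked at hB
  omega

lemma num_h02 (hr : 3 ≤ r) (h0 : r ≤ a0) (h2 : r ≤ a2) (h : RkDesc r a0 0 a2 1 0 ρ) : ρ = 2 * r := by
  obtain ⟨i0, i1, i2, ih, ie, ⟨j1, j2, j3, j4, j5, j6, j7, j8, j9, j10⟩, l0, l1, l2, lh, le, hB, rfl⟩ := h
  unfold Blocked at hB
  omega

lemma num_h12 (hr : 3 ≤ r) (h1 : r ≤ a1) (h2 : r ≤ a2) (h : RkDesc r 0 a1 a2 1 0 ρ) : ρ = 2 * r := by
  obtain ⟨i0, i1, i2, ih, ie, ⟨j1, j2, j3, j4, j5, j6, j7, j8, j9, j10⟩, l0, l1, l2, lh, le, hB, rfl⟩ := h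
  unfold Blocked at hB
  omega

lemma num_he0 (hr : 3 ≤ r) (h0 : r ≤ a0) (h : RkDesc r a0 0 0 1 1 ρ) : ρ = r + 1 := by
  obtain ⟨i0, i1, i2, ih, ie, ⟨j1, j2, j3, j4, j5, j6, j7, j8, j9, j10⟩, l0, l1, l2, lh, le, hB, rfl⟩ := h
  unfold Blocked at hB
  omega

lemma num_he1 (hr : 3 ≤ r) (h1 : r ≤ a1) (h : RkDesc r 0 a1 0 1 1 ρ) : ρ = r + 1 := by
  obtain ⟨i0, i1, i2, ih, ie, ⟨j1, j2, j3, j4, j5, j6, j7, j8, j9, j10⟩, l0, l1, l2, lh, le, hB, rfl⟩ := h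
  unfold Blocked at hB
  omega

lemma num_he2 (hr : 3 ≤ r) (h2 : r ≤ a2) (h : RkDesc r 0 0 a2 1 1 ρ) : ρ = r + 2 := by
  obtain ⟨i0, i1, i2, ih, ie, ⟨j1, j2, j3, j4, j5, j6, j7, j8, j9, j10⟩, l0, l1, l2, lh, le, hB, rfl⟩ := h
  unfold Blocked at hB
  omega

lemma num_th (hr : 3 ≤ r) (h0 : r ≤ a0) (h1 : r ≤ a1) (h2 : r ≤ a2) (h : RkDesc r a0 a1 a2 1 0 ρ) : ρ = 3 * r - 2 := by
  obtain ⟨i0, i1, i2, ih, ie, ⟨j1, j2, j3, j4, j5, j6, j7, j8, j9, j10⟩, l0, l1, l2, lh, le, hB, rfl⟩ := h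
  unfold Blocked at hB
  omega

lemma num_the (hr : 3 ≤ r) (h0 : r ≤ a0) (h1 : r ≤ a1) (h2 : r ≤ a2) (h : RkDesc r a0 a1 a2 1 1 ρ) : ρ = 3 * r - 2 := by
  obtain ⟨i0, i1, i2, ih, ie, ⟨j1, j2, j3, j4, j5, j6, j7, j8, j9, j10⟩, l0, l1, l2, lh, le, hB, rfl⟩ := h
  unfold Blocked at hB
  omega


lemma num_le (h : RkDesc r a0 a1 a2 ch ce ρ) : ρ ≤ 3 * r - 2 := by
  obtain ⟨i0, i1, i2, ih, ie, ⟨j1, j2, j3, j4, j5, j6, j7, j8, j9, j10⟩, l0, l1, l2, lh, le, hB, rfl⟩ := h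
  exact j9

/-- full rank: one class of size at least `r - 1`, the others of size at least `r` -/
lemma num_full0 (hr : 3 ≤ r) (h0 : r ≤ a0 + 1) (h1 : r ≤ a1) (h2 : r ≤ a2)
    (h : RkDesc r a0 a1 a2 ch ce ρ) : ρ = 3 * r - 2 := by
  obtain ⟨i0, i1, i2, ih, ie, ⟨j1, j2, j3, j4, j5, j6, j7, j8, j9, j10⟩, l0, l1, l2, lh, le, hB, rfl⟩ := h
  unfold Blocked at hB
  omega

lemma num_full1 (hr : 3 ≤ r) (h0 : r ≤ a0) (h1 : r ≤ a1 + 1) (h2 : r ≤ a2)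
    (h : RkDesc r a0 a1 a2 ch ce ρ) : ρ = 3 * r - 2 := by
  obtain ⟨i0, i1, i2, ih, ie, ⟨j1, j2, j3, j4, j5, j6, j7, j8, j9, j10⟩, l0, l1, l2, lh, le, hB, rfl⟩ := h
  unfold Blocked at hB
  omega

lemma num_full2 (hr : 3 ≤ r) (h0 : r ≤ a0) (h1 : r ≤ a1) (h2 : r ≤ a2 + 1)
    (h : RkDesc r a0 a1 a2 ch ce ρ) : ρ = 3 * r - 2 := by
  obtain ⟨i0, i1, i2, ih, ie, ⟨j1, j2, j3, j4, j5, j6, j7, j8, j9, j10⟩, l0, l1, l2, lh, le, hB, rfl⟩ := h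
  unfold Blocked at hB
  omega

/-- full rank: one class of size `r - 2`, the others of size at least `r`, and `h` or `e` -/
lemma num_fullh0 (hr : 3 ≤ r) (h0 : r ≤ a0 + 2) (h1 : r ≤ a1) (h2 : r ≤ a2) (hc : 1 ≤ ch + ce)
    (h : RkDesc r a0 a1 a2 ch ce ρ) : ρ = 3 * r - 2 := by
  obtain ⟨i0, i1, i2, ih, ie, ⟨j1, j2, j3, j4, j5, j6, j7, j8, j9, j10⟩, l0, l1, l2, lh, le, hB, rfl⟩ := h
  unfold Blocked at hB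
  omega

lemma num_fullh1 (hr : 3 ≤ r) (h0 : r ≤ a0) (h1 : r ≤ a1 + 2) (h2 : r ≤ a2) (hc : 1 ≤ ch + ce)
    (h : RkDesc r a0 a1 a2 ch ce ρ) : ρ = 3 * r - 2 := by
  obtain ⟨i0, i1, i2, ih, ie, ⟨j1, j2, j3, j4, j5, j6, j7, j8, j9, j10⟩, l0, l1, l2, lh, le, hB, rfl⟩ := h
  unfold Blocked at hB
  omega

lemma num_fullh2 (hr : 3 ≤ r) (h0 : r ≤ a0) (h1 : r ≤ a1) (h2 : r ≤ a2 + 2) (hc : 1 ≤ ch + ce)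
    (h : RkDesc r a0 a1 a2 ch ce ρ) : ρ = 3 * r - 2 := by
  obtain ⟨i0, i1, i2, ih, ie, ⟨j1, j2, j3, j4, j5, j6, j7, j8, j9, j10⟩, l0, l1, l2, lh, le, hB, rfl⟩ := h
  unfold Blocked at hB
  omega

end numeric

end Pool.Agent.CStar
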