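import Pool.Agent.Helper68.CStar.Final

namespace Pool.Agent.CStar

open Set Matroid

variable {α : Type*}

/-- The transformation `T` keeps finite matroids with at least two elements finite and
non-empty. -/
def Keeps (T : Matroid α → Matroid α → Prop) : Prop :=
  ∀ M M' : Matroid α, M.Finite → M.E.Nonempty → M.E.encard ≠ 1 → T M M' →
    M'.Finite ∧ M'.E.Nonempty

lemma nonempty_sdiff_singleton {M : Matroid α} (hne : M.E.Nonempty) (h1 : M.E.encard ≠ 1)
    (e : α) : (M.E \ {e}).Nonempty := by
  by_contra hcon
  rw [not_nonempty_iff_eq_empty, sdiff_eq_empty] at hcon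
  apply h1
  obtain ⟨y, hy⟩ := hne
  have hye : y = e := hcon hy
  exact encard_eq_one.2 ⟨e, Subset.antisymm hcon (singleton_subset_iff.2 (hye ▸ hy))⟩

lemma keeps_D : Keeps (DTrans (α := α)) := by
  rintro M M' hfin hne h1 ⟨e, he, rfl⟩
  exact ⟨inferInstance, nonempty_sdiff_singleton hne h1 e⟩

lemma keeps_C : Keeps (CTrans (α := α)) := by
  rintro M M' hfin hne h1 ⟨e, he, rfl⟩
  exact ⟨inferInstance, nonempty_sdiff_singleton hne h1 e⟩

lemma keeps_CStar : Keeps (CStarTrans (α := α)) := by
  rintro M M' hfin hne h1 ⟨N, f, hf, hNE, hNM, hl, rfl⟩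
  have hE : (N ／ {f}).E = M.E := by
    rw [contract_ground, hNE, insert_sdiff_self_of_notMem hf]
  refine ⟨⟨?_⟩, ?_⟩
  · rw [hE]; exact hfin.ground_finite
  · rw [hE]; exact hne

lemma Keeps.or {T T' : Matroid α → Matroid α → Prop} (h : Keeps T) (h' : Keeps T') :
    Keeps (fun M M' => T M M' ∨ T' M M') := by
  rintro M M' hfin hne h1 (hT | hT)
  · exact h M M' hfin hne h1 hT
  · exact h' M M' hfin hne h1 hT

lemma keeps_CD : Keeps (CDTrans (α := α)) := keeps_C.or keeps_D

lemma keeps_CStarD : Keeps (CStarDTrans (α := α)) := keeps_CStar.or keeps_D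

lemma exists_depthLE {T : Matroid α → Matroid α → Prop}
    (hT : ∀ M M', DTrans M M' → T M M') {M : Matroid α} (hfin : M.Finite) (hne : M.E.Nonempty) :
    ∃ t, DepthLE T M t :=
  ⟨M.E.ncard + 1, depth_of_nullity hT M.E.ncard M M.E.ncard hfin hne le_rfl (by omega)⟩

lemma depthLE_depth {T : Matroid α → Matroid α → Prop}
    (hT : ∀ M M', DTrans M M' → T M M') {M : Matroid α} (hfin : M.Finite) (hne : M.E.Nonempty) :
    DepthLE T M (depth T M) :=
  Nat.sInf_mem (exists_depthLE hT hfin hne)

lemma depth_le_of {T : Matroid α → Matroid α → Prop} {M : Matroid α} {t : ℕ}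
    (h : DepthLE T M t) : depth T M ≤ t := Nat.sInf_le h

lemma depthLE_iff {T : Matroid α → Matroid α → Prop}
    (hT : ∀ M M', DTrans M M' → T M M') {M : Matroid α} (hfin : M.Finite) (hne : M.E.Nonempty)
    {t : ℕ} : DepthLE T M t ↔ depth T M ≤ t :=
  ⟨depth_le_of, fun h => (depthLE_depth hT hfin hne).mono t h⟩

theorem isDepth_depth {T : Matroid α → Matroid α → Prop}
    (hT : ∀ M M', DTrans M M' → T M M') (hk : Keeps T) : IsDepth T (depth T) := by
  have hnc1 : ∀ M : Matroid α, M.Finite → M.E.encard = 1 → IsConn M := by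
    intro M hfin h1
    obtain ⟨x, hx⟩ := encard_eq_one.1 h1
    refine isConn_of_all (by rw [hx]; exact singleton_nonempty x) ?_
    intro K hK
    have hne : M.E.Nonempty := by rw [hx]; exact singleton_nonempty x
    obtain ⟨y, hy⟩ := hK.nonempty hne
    refine Subset.antisymm hK.subset ?_
    have := hK.subset hy
    rw [hx] at this ⊢
    rw [singleton_subset_iff, ← (this : y = x)]
    exact hy
  constructor
  · intro M h1
    obtain ⟨x, hx⟩ := encard_eq_one.1 h1
    have hfin : M.Finite := ⟨by rw [hx]; exact finite_singleton x⟩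
    have hne : M.E.Nonempty := by rw [hx]; exact singleton_nonempty x
    exact le_antisymm (depth_le_of (DepthLE.single M 1 h1 le_rfl))
      ((depthLE_depth hT hfin hne).one_le hfin hne)
  · intro M hfin hne hc
    have hkK : ∀ K, IsComponent M K → (M ↾ K).Finite ∧ (M ↾ K).E.Nonempty := fun K hK =>
      ⟨restrict_finite (M.ground_finite.subset hK.subset), hK.nonempty hne⟩
    have hub : ∀ K, IsComponent M K → depth T (M ↾ K) ≤ depth T M := by
      intro K hK
      have h := depthLE_depth hT hfin hne
      obtain ⟨s, hs⟩ : ∃ s, s = depth T M := ⟨_, rfl⟩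
      rw [← hs] at h ⊢
      cases h with
      | single _ _ h1 _ => exact absurd (hnc1 M hfin h1) hc
      | comps _ _ _ hK' => exact depth_le_of (hK' K hK)
      | step _ M' t hc' => exact absurd hc' hc
    refine ⟨?_, ?_⟩
    · -- attained
      by_contra hcon
      have hlt : ∀ K, IsComponent M K → depth T (M ↾ K) ≤ depth T M - 1 := by
        intro K hK
        have h1 := hub K hK
        have h2 : depth T (M ↾ K) ≠ depth T M := fun h => hcon ⟨K, hK, h⟩
        omega
      have hle : DepthLE T M (depth T M - 1) :=
        DepthLE.comps M _ hc (fun K hK =>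
          (depthLE_iff hT (hkK K hK).1 (hkK K hK).2).2 (hlt K hK))
      have h1 := depth_le_of hle
      have h2 := hle.one_le hfin hne
      omega
    · rintro d ⟨K, hK, rfl⟩
      exact hub K hK
  · intro M hfin hne h1 hc
    have hex : ({d | ∃ M', T M M' ∧ depth T M' = d} : Set ℕ).Nonempty := by
      obtain ⟨e, he⟩ := hne
      exact ⟨_, M ＼ {e}, hT _ _ ⟨e, he, rfl⟩, rfl⟩
    refine ⟨sInf {d | ∃ M', T M M' ∧ depth T M' = d}, ⟨Nat.sInf_mem hex, fun d hd => Nat.sInf_le hd⟩,
      ?_⟩
    obtain ⟨M', hM', hd⟩ := Nat.sInf_mem hex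
    rw [← hd]
    obtain ⟨hf', hn'⟩ := hk M M' hfin hne h1 hM'
    apply le_antisymm
    · rw [add_comm]
      exact depth_le_of (DepthLE.step M M' _ hc h1 hM' (depthLE_depth hT hf' hn'))
    · have h := depthLE_depth hT hfin hne
      obtain ⟨s, hs⟩ : ∃ s, s = depth T M := ⟨_, rfl⟩
      rw [← hs] at h ⊢
      cases h with
      | single _ _ h1' _ => exact absurd h1' h1
      | comps _ _ hc' _ => exact absurd hc hc'
      | step _ M'' t _ _ hT'' hle =>
        have : depth T M' ≤ depth T M'' := by
          rw [hd]; exact Nat.sInf_le ⟨M'', hT'', rfl⟩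
        have := depth_le_of hle
        omega

/-- Any function obeying the three clauses agrees with `depth` on the finite matroids with
non-empty ground set. -/
theorem IsDepth.eq_depth {T : Matroid α → Matroid α → Prop}
    (hT : ∀ M M', DTrans M M' → T M M') (hk : Keeps T) {dep : Matroid α → ℕ}
    (h : IsDepth T dep) {M : Matroid α} (hfin : M.Finite) (hne : M.E.Nonempty) :
    dep M = depth T M := by
  have h1 : ∀ t (M : Matroid α), DepthLE T M t → M.Finite → M.E.Nonempty → dep M ≤ t := by
    intro t M hM
    induction hM with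
    | single M t h1 ht => intro _ _; rw [h.single M h1]; exact ht
    | comps M t hc hK ih =>
      intro hfin hne
      obtain ⟨K, hK', hKd⟩ := (h.comps M hfin hne hc).1
      rw [← hKd]
      exact ih K hK' (restrict_finite (M.ground_finite.subset hK'.subset)) (hK'.nonempty hne)
    | step M M' t hc hn1 hTM hM' ih =>
      intro hfin hne
      obtain ⟨m, hm, hd⟩ := h.step M hfin hne hn1 hc
      obtain ⟨hf', hn'⟩ := hk M M' hfin hne hn1 hTM
      have h2 := hm.2 ⟨M', hTM, rfl⟩
      have h3 := ih hf' hn'
      omega
  have h2 : ∀ d n (M : Matroid α), dep M ≤ d → M.E.ncard ≤ n → M.Finite → M.E.Nonempty →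
      DepthLE T M d := by
    intro d
    induction d with
    | zero =>
      intro n
      induction n with
      | zero =>
        intro M _ hn hfin hne
        have := hne.ncard_pos M.ground_finite
        omega
      | succ n ihn =>
        intro M hd hn hfin hne
        by_cases h1 : M.E.encard = 1
        · rw [h.single M h1] at hd; omega
        by_cases hc : IsConn M
        · obtain ⟨m, hm, hd'⟩ := h.step M hfin hne h1 hc
          omega
        · have hcomp := h.comps M hfin hne hc
          refine DepthLE.comps M _ hc (fun K hK => ?_)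
          have hKE : K ≠ M.E := fun h => hc (isConn_of_component_ground (h ▸ hK))
          have hlt : K.ncard < M.E.ncard :=
            ncard_lt_ncard (ssubset_of_subset_of_ne hK.subset hKE) M.ground_finite
          refine ihn (M ↾ K) ((hcomp.2 ⟨K, hK, rfl⟩).trans hd) ?_
            (restrict_finite (M.ground_finite.subset hK.subset)) (hK.nonempty hne)
          change K.ncard ≤ n; omega
    | succ d ihd =>
      intro n
      induction n with
      | zero =>
        intro M _ hn hfin hne
        have := hne.ncard_pos M.ground_finite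
        omega
      | succ n ihn =>
        intro M hd hn hfin hne
        by_cases h1 : M.E.encard = 1
        · exact DepthLE.single M _ h1 (by omega)
        by_cases hc : IsConn M
        · obtain ⟨m, ⟨⟨M', hTM, hM'⟩, -⟩, hd'⟩ := h.step M hfin hne h1 hc
          obtain ⟨hf', hn'⟩ := hk M M' hfin hne h1 hTM
          exact DepthLE.step M M' d hc h1 hTM (ihd M'.E.ncard M' (by omega) le_rfl hf' hn')
        · have hcomp := h.comps M hfin hne hc
          refine DepthLE.comps M _ hc (fun K hK => ?_)
          have hKE : K ≠ M.E := fun h => hc (isConn_of_component_ground (h ▸ hK))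
          have hlt : K.ncard < M.E.ncard :=
            ncard_lt_ncard (ssubset_of_subset_of_ne hK.subset hKE) M.ground_finite
          refine ihn (M ↾ K) ((hcomp.2 ⟨K, hK, rfl⟩).trans hd) ?_
            (restrict_finite (M.ground_finite.subset hK.subset)) (hK.nonempty hne)
          change K.ncard ≤ n; omega
  exact le_antisymm (h1 _ M (depthLE_depth hT hfin hne) hfin hne)
    (depth_le_of (h2 _ _ M le_rfl le_rfl hfin hne))

end Pool.Agent.CStar
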