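import Pool.Agent.Helper68.CStar.Cfg

set_option linter.unusedVariables false

namespace Pool.Agent.CStar

open Set Matroid

variable {α : Type*} {N : Matroid α} {L A B C A' B' : Set α}

/-- `A` and `B` are skew in `N ／ L`. -/
def Skew (N : Matroid α) (L A B : Set α) : Prop :=
  rk N (A ∪ L) + rk N (B ∪ L) ≤ rk N (A ∪ B ∪ L) + rk N L

section
variable [N.Finite]

omit [N.Finite] in
lemma Skew.symm (h : Skew N L A B) : Skew N L B A := by
  unfold Skew at *
  rw [union_comm B A]; omega

lemma Skew.mono_right (h : Skew N L A B) (hB : B' ⊆ B) : Skew N L A B' := by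
  unfold Skew at *
  have h1 : rk N (B' ∪ L) + rk N (A ∪ B ∪ L) ≤ rk N (A ∪ B' ∪ L) + rk N (B ∪ L) := by
    apply rk_submod'
    · rintro y ((h | h) | h)
      · exact Or.inl (Or.inl (Or.inl h))
      · exact Or.inr (Or.inl h)
      · exact Or.inr (Or.inr h)
    · rintro y (h | h)
      · exact Or.inl (Or.inr h)
      · exact Or.inr h
    · rintro y (h | h)
      · exact Or.inl (hB h)
      · exact Or.inr h
  omega

lemma Skew.mono (h : Skew N L A B) (hA : A' ⊆ A) (hB : B' ⊆ B) : Skew N L A' B' :=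
  ((h.mono_right hB).symm.mono_right hA).symm

lemma Skew.join (h : Skew N L A B) (h' : Skew N L (A ∪ B) C) : Skew N L A (B ∪ C) := by
  unfold Skew at *
  have h1 : rk N L + rk N (B ∪ C ∪ L) ≤ rk N (B ∪ L) + rk N (C ∪ L) := by
    apply rk_submod'
    · rintro y ((h | h) | h)
      · exact Or.inl (Or.inl h)
      · exact Or.inr (Or.inl h)
      · exact Or.inr (Or.inr h)
    · exact subset_union_right
    · exact subset_union_right
  have e : A ∪ (B ∪ C) ∪ L = A ∪ B ∪ C ∪ L := by rw [union_assoc A B C]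
  rw [e]
  omega

lemma Skew.rk_le (h : Skew N L A B) : rk N A + rk N B ≤ rk N (A ∪ B) + rk N L := by
  unfold Skew at h
  have h1 : rk N A + rk N (A ∪ B ∪ L) ≤ rk N (A ∪ L) + rk N (A ∪ B) := by
    apply rk_submod'
    · rintro y (h | h)
      · exact Or.inr h
      · exact Or.inl (Or.inr h)
    · exact subset_union_left
    · exact subset_union_left
  have h2 : rk N B ≤ rk N (B ∪ L) := rk_mono subset_union_left
  omega

/-- rank in a minor -/
lemma rk_minor {Y X : Set α} (hX : X ⊆ Y) : rk ((N ／ L) ↾ Y) X + rk N L = rk N (X ∪ L) := by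
  rw [rk_restrict hX]
  exact rk_contract L X

lemma skew_of_closed {Y U : Set α} (hY : Y ⊆ N.E \ L) (hU : U ⊆ Y)
    (hcl : Closed ((N ／ L) ↾ Y) U) : Skew N L U (Y \ U) := by
  have hfin : ((N ／ L) ↾ Y).Finite := restrict_finite (N.ground_finite.subset (hY.trans sdiff_subset))
  have h := rk_eq_of_closed (M := (N ／ L) ↾ Y) hcl (X := Y) (by exact Subset.rfl)
  rw [inter_eq_self_of_subset_right hU] at h
  have e1 := rk_minor (N := N) (L := L) (Y := Y) (X := Y) Subset.rfl
  have e2 := rk_minor (N := N) (L := L) (Y := Y) (X := U) hU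
  have e3 := rk_minor (N := N) (L := L) (Y := Y) (X := Y \ U) sdiff_subset
  unfold Skew
  rw [union_sdiff_cancel hU]
  omega

lemma Skew.contract {Y W : Set α} {f : α} (h : Skew N L Y W) (hf : f ∈ Y) :
    Skew N (L ∪ {f}) (Y \ {f}) W := by
  unfold Skew at *
  have e1 : Y \ {f} ∪ (L ∪ {f}) = Y ∪ L := by
    ext y
    simp only [mem_union, mem_sdiff, mem_singleton_iff]
    by_cases hy : y = f
    · subst hy; simp [hf]
    · simp [hy]
  have e2 : Y \ {f} ∪ W ∪ (L ∪ {f}) = Y ∪ W ∪ L := by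
    ext y
    simp only [mem_union, mem_sdiff, mem_singleton_iff]
    by_cases hy : y = f
    · subst hy; simp [hf]
    · simp [hy]
  rw [e1, e2]
  have h1 : rk N L + rk N (W ∪ (L ∪ {f})) ≤ rk N (W ∪ L) + rk N (L ∪ {f}) := by
    apply rk_submod'
    · rintro y (h | h)
      · exact Or.inl (Or.inl h)
      · exact Or.inr h
    · exact subset_union_right
    · exact subset_union_left
  omega

end

/-- the part of `X` in the classes of `J` -/
def sel (Q : Fin 5 → Set α) (X : Set α) (J : Finset (Fin 5)) : Set α := X ∩ ⋃ c ∈ J, Q c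

lemma sel_subset (Q : Fin 5 → Set α) (X : Set α) (J : Finset (Fin 5)) : sel Q X J ⊆ X :=
  inter_subset_left

lemma sel_mono (Q : Fin 5 → Set α) (X : Set α) {J J' : Finset (Fin 5)} (h : J ⊆ J') :
    sel Q X J ⊆ sel Q X J' := by
  apply inter_subset_inter_right
  exact biUnion_subset_biUnion_left h

lemma sel_union (Q : Fin 5 → Set α) (X : Set α) (J J' : Finset (Fin 5)) :
    sel Q X (J ∪ J') = sel Q X J ∪ sel Q X J' := by
  classical
  unfold sel
  rw [← inter_union_distrib_left, Finset.set_biUnion_union]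

lemma cnt_sel {Q : Fin 5 → Set α} (hdisj : Pairwise (fun c d => Disjoint (Q c) (Q d)))
    (X : Set α) (J : Finset (Fin 5)) (c : Fin 5) :
    cnt Q (sel Q X J) c = if c ∈ J then cnt Q X c else 0 := by
  unfold cnt sel
  split_ifs with hc
  · congr 1
    ext y
    simp only [mem_inter_iff, mem_iUnion, exists_prop]
    constructor
    · rintro ⟨⟨h1, -⟩, h2⟩; exact ⟨h1, h2⟩
    · rintro ⟨h1, h2⟩; exact ⟨⟨h1, c, hc, h2⟩, h2⟩
  · have : X ∩ (⋃ d ∈ J, Q d) ∩ Q c = ∅ := by
      rw [eq_empty_iff_forall_notMem]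
      rintro y ⟨⟨h1, h2⟩, h3⟩
      simp only [mem_iUnion, exists_prop] at h2
      obtain ⟨d, hd, hy⟩ := h2
      have hne : d ≠ c := fun h => hc (h ▸ hd)
      exact (hdisj hne).le_bot ⟨hy, h3⟩
    rw [this, ncard_empty]

end Pool.Agent.CStar
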