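import Pool.Agent.Helper68.CStar.Lower

set_option linter.unusedVariables false
set_option linter.unusedSectionVars false

namespace Pool.Agent.CStar

open Set Matroid

variable {α : Type*} {r : ℕ}

lemma isConn_of_all {M : Matroid α} [M.Finite] (hne : M.E.Nonempty)
    (h : ∀ K, IsComponent M K → K = M.E) : IsConn M := by
  obtain ⟨x, hx⟩ := hne
  obtain ⟨K, hK, -⟩ := exists_component hx
  exact ⟨K, hK, fun K' hK' => by rw [h K hK, h K' hK']⟩

lemma component_ground_of_isConn {M : Matroid α} [M.Finite] (h : IsConn M) :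
    IsComponent M M.E := by
  obtain ⟨K, hK, huniq⟩ := h
  have : K = M.E := by
    apply Subset.antisymm hK.subset
    intro x hx
    obtain ⟨K', hK', hxK'⟩ := exists_component hx
    rwa [huniq K' hK'] at hxK'
  rwa [this] at hK

lemma isConn_of_component_ground {M : Matroid α} (h : IsComponent M M.E) : IsConn M :=
  ⟨M.E, h, fun K hK => Subset.antisymm hK.prop.1 (hK.le_of_ge h.prop hK.prop.1)⟩

/-- A matroid of nullity at most `ν` has depth at most `ν + 1`. -/
lemma depth_of_nullity {T : Matroid α → Matroid α → Prop}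
    (hT : ∀ M M', DTrans M M' → T M M') (n : ℕ) : ∀ (M : Matroid α) (ν : ℕ), M.Finite →
    M.E.Nonempty → M.E.ncard ≤ n → M.E.ncard ≤ rk M M.E + ν → DepthLE T M (ν + 1) := by
  induction n with
  | zero =>
    intro M ν hfin hne hn hν
    have := hne.ncard_pos M.ground_finite
    omega
  | succ n ih =>
    intro M ν hfin hne hn hν
    by_cases h1 : M.E.encard = 1
    · exact DepthLE.single M _ h1 (by omega)
    by_cases hc : IsConn M
    · obtain ⟨e, he⟩ := hne
      have hE := component_ground_of_isConn hc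
      obtain ⟨y, hy, hye⟩ : ∃ y ∈ M.E, y ≠ e := by
        by_contra hcon
        push Not at hcon
        exact h1 (encard_eq_one.2 ⟨e, Subset.antisymm hcon (singleton_subset_iff.2 he)⟩)
      obtain ⟨D, hD, heD, hyD⟩ := hE.prop.2 he hy hye.symm
      have hcl : e ∈ M.closure (M.E \ {e}) :=
        M.closure_subset_closure (sdiff_subset_sdiff_left hD.subset_ground)
          (hD.mem_closure_sdiff_singleton_of_mem heD)
      have hrk := rk_insert_of_mem_closure hcl
      rw [insert_sdiff_singleton, insert_eq_of_mem he] at hrk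
      have hcard := ncard_sdiff_singleton_add_one he M.ground_finite
      have hle : rk M (M.E \ {e}) ≤ (M.E \ {e}).ncard := rk_le_ncard (M.ground_finite.subset sdiff_subset)
      obtain ⟨μ, rfl⟩ : ∃ μ, ν = μ + 1 := ⟨ν - 1, by omega⟩
      refine DepthLE.step M (M ＼ {e}) (μ + 1) hc h1 (hT _ _ ⟨e, he, rfl⟩) ?_
      refine ih (M ＼ {e}) μ inferInstance ⟨y, hy, hye⟩ ?_ ?_
      · change (M.E \ {e}).ncard ≤ n; omega
      · change (M.E \ {e}).ncard ≤ rk (M ＼ {e}) (M.E \ {e}) + μ
        rw [rk_delete disjoint_sdiff_left]; omega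
    · refine DepthLE.comps M _ hc ?_
      intro K hK
      have hKE : K ≠ M.E := fun h => hc (isConn_of_component_ground (h ▸ hK))
      have hKne := hK.nonempty hne
      have hlt : K.ncard < M.E.ncard :=
        ncard_lt_ncard (ssubset_of_subset_of_ne hK.subset hKE) M.ground_finite
      refine ih (M ↾ K) ν (restrict_finite (M.ground_finite.subset hK.subset)) hKne ?_ ?_
      · change K.ncard ≤ n; omega
      · change K.ncard ≤ rk (M ↾ K) K + ν
        rw [rk_restrict Subset.rfl]
        have := rk_nullity_mono (M := M) hK.subset M.ground_finite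
        omega

/-- the union of the large classes -/
def Parts.core (D : Parts α r) : Set α := D.Q 0 ∪ D.Q 1 ∪ D.Q 2

lemma Parts.core_sub (D : Parts α r) : D.core ⊆ D.E :=
  union_subset (union_subset (subset_iUnion D.Q 0) (subset_iUnion D.Q 1)) (subset_iUnion D.Q 2)

lemma Parts.sub_core (D : Parts α r) (i : Fin 3) : D.Q (c3 i) ⊆ D.core := by
  fin_cases i
  · exact fun y hy => Or.inl (Or.inl hy)
  · exact fun y hy => Or.inl (Or.inr hy)
  · exact fun y hy => Or.inr hy

lemma Parts.E_eq (D : Parts α r) : D.E = D.core ∪ D.Q 3 ∪ D.Q 4 := by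
  apply Subset.antisymm
  · intro y hy
    obtain ⟨c, hc⟩ := mem_iUnion.1 hy
    fin_cases c
    · exact Or.inl (Or.inl (Or.inl (Or.inl hc)))
    · exact Or.inl (Or.inl (Or.inl (Or.inr hc)))
    · exact Or.inl (Or.inl (Or.inr hc))
    · exact Or.inl (Or.inr hc)
    · exact Or.inr hc
  · exact union_subset (union_subset D.core_sub (subset_iUnion D.Q 3)) (subset_iUnion D.Q 4)

lemma num_h (hr : 3 ≤ r) {ρ : ℕ} (h : RkDesc r 0 0 0 1 0 ρ) : ρ = 1 := by
  obtain ⟨i0, i1, i2, ih, ie, ⟨j1, j2, j3, j4, j5, j6, j7, j8, j9, j10⟩, l0, l1, l2, lh, le, hB, rfl⟩ := h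
  unfold Blocked at hB
  omega

lemma num_e (hr : 3 ≤ r) {ρ : ℕ} (h : RkDesc r 0 0 0 0 1 ρ) : ρ = 1 := by
  obtain ⟨i0, i1, i2, ih, ie, ⟨j1, j2, j3, j4, j5, j6, j7, j8, j9, j10⟩, l0, l1, l2, lh, le, hB, rfl⟩ := h
  unfold Blocked at hB
  omega

/-- Any restriction of the main matroid containing the large classes is connected. -/
lemma conn_restrict (hr : 3 ≤ r) (D : Parts α r) {R : Set α} (h1 : D.core ⊆ R) (h2 : R ⊆ D.E) :
    IsConn (D.mat ↾ R) := by
  have hRfin : R.Finite := D.finE.subset h2
  have hfin : (D.mat ↾ R).Finite := restrict_finite hRfin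
  let C : Cfg D.mat r := D.cfg hr (IsRestriction.refl)
  have hcard : ∀ i : Fin 3, (D.Q (c3 i)).ncard = r + 9 := fun i => card_c3 C i
  have rkc : ∀ (i : Fin 3) (X : Set α), X ⊆ D.Q (c3 i) → rk D.mat X = min X.ncard r :=
    fun i X h => rk_class hr C (i := i) h
  have hQne : ∀ i : Fin 3, (D.Q (c3 i)).Nonempty := by
    intro i
    rw [← ncard_pos (D.fin _)]
    have := hcard i
    omega
  have hne : (D.mat ↾ R).E.Nonempty := by
    obtain ⟨x, hx⟩ := hQne 0
    exact ⟨x, h1 (D.sub_core 0 hx)⟩
  apply isConn_of_all hne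
  intro K hK
  have hKR : K ⊆ R := hK.subset
  have hcl := hK.closed
  have hKne := hK.nonempty hne
  -- rank is additive over K
  have hadd : ∀ X ⊆ R, rk D.mat X = rk D.mat (X ∩ K) + rk D.mat (X \ K) := by
    intro X hX
    have := rk_eq_of_closed (M := D.mat ↾ R) hcl (X := X) hX
    rwa [rk_restrict hX, rk_restrict (inter_subset_left.trans hX),
      rk_restrict (sdiff_subset.trans hX)] at this
  have hcE : ∀ c, cnt D.Q D.E c = (D.Q c).ncard := by
    intro c
    have : D.E ∩ D.Q c = D.Q c := inter_eq_self_of_subset_right (subset_iUnion D.Q c)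
    unfold cnt
    rw [this]
  have hbig : Big C D.E := by
    refine ⟨Subset.rfl, ?_, ?_, ?_⟩
    · intro i
      change r ≤ cnt D.Q D.E (c3 i)
      rw [hcE, hcard]
      omega
    · change cnt D.Q D.E 3 = 1
      rw [hcE, D.card3]
    · change cnt D.Q D.E 4 = 1
      rw [hcE, D.card4]
  have hsel : ∀ J, sel C.Q D.E J = ⋃ c ∈ J, D.Q c := by
    intro J
    unfold sel
    rw [inter_eq_self_of_subset_right]
    · rfl
    · intro y hy
      simp only [mem_iUnion] at hy ⊢
      obtain ⟨c, -, hc⟩ := hy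
      exact mem_iUnion.2 ⟨c, hc⟩
  -- each large class is inside K or disjoint from K
  have hom : ∀ i : Fin 3, D.Q (c3 i) ⊆ K ∨ D.Q (c3 i) ∩ K = ∅ := by
    intro i
    have e1 := hadd (D.Q (c3 i)) ((D.sub_core i).trans h1)
    rw [rkc i _ Subset.rfl, rkc i _ inter_subset_left, rkc i _ sdiff_subset] at e1
    have e2 := hcard i
    have e3 := ncard_inter_add_ncard_sdiff_eq_ncard (D.Q (c3 i)) K (D.fin _)
    have e4 : (D.Q (c3 i) \ K).ncard = 0 ∨ (D.Q (c3 i) ∩ K).ncard = 0 := by omega
    rcases e4 with h | h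
    · left
      rwa [ncard_eq_zero ((D.fin _).subset sdiff_subset), sdiff_eq_empty] at h
    · right
      rwa [ncard_eq_zero ((D.fin _).subset inter_subset_left)] at h
  -- two large classes are on the same side
  have pair : ∀ i j : Fin 3, D.Q (c3 i) ⊆ K → D.Q (c3 j) ⊆ K := by
    intro i j hi
    by_cases hij : i = j
    · rwa [← hij]
    rcases hom j with hj | hj
    · exact hj
    · exfalso
      have e0 := val2 hr hbig i j hij
      rw [hsel] at e0
      have e1 : (⋃ c ∈ ({c3 i, c3 j} : Finset (Fin 5)), D.Q c) = D.Q (c3 i) ∪ D.Q (c3 j) := by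
        simp
      rw [e1] at e0
      have e2 := hadd (D.Q (c3 i) ∪ D.Q (c3 j))
        (union_subset ((D.sub_core i).trans h1) ((D.sub_core j).trans h1))
      have e3 : (D.Q (c3 i) ∪ D.Q (c3 j)) ∩ K = D.Q (c3 i) := by
        rw [union_inter_distrib_right, hj, union_empty, inter_eq_self_of_subset_left hi]
      have e4 : (D.Q (c3 i) ∪ D.Q (c3 j)) \ K = D.Q (c3 j) := by
        rw [union_sdiff_distrib, sdiff_eq_empty.2 hi, empty_union, sdiff_eq_self_iff_disjoint,
          disjoint_iff_inter_eq_empty, inter_comm]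
        exact hj
      rw [e3, e4, e0, rkc i _ Subset.rfl, rkc j _ Subset.rfl] at e2
      have c1 := hcard i
      have c2 := hcard j
      omega
  -- an element outside the large classes
  have extra : ∀ x ∈ R, x ∉ D.core → rk D.mat {x} = 1 ∧ rk D.mat (D.core ∪ {x}) = 3 * r - 2 := by
    intro x hx hxc
    have hxE := h2 hx
    rw [D.E_eq] at hxE
    have v3 := val3 hr hbig
    rw [hsel] at v3
    have ecore : (⋃ c ∈ ({0, 1, 2} : Finset (Fin 5)), D.Q c) = D.core := by
      simp [Parts.core, union_assoc]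
    rw [ecore] at v3
    have hup : rk D.mat (D.core ∪ {x}) ≤ 3 * r - 2 :=
      num_le (C.desc (D.core ∪ {x}) (union_subset D.core_sub (singleton_subset_iff.2 (h2 hx))))
    have hlow : rk D.mat D.core ≤ rk D.mat (D.core ∪ {x}) := rk_mono subset_union_left
    refine ⟨?_, by omega⟩
    have hd := C.desc {x} (singleton_subset_iff.2 (h2 hx))
    rcases hxE with (h | h) | h
    · exact absurd h hxc
    · have hs : ({x} : Set α) ⊆ C.Q 3 := singleton_subset_iff.2 h
      rw [cnt_of_subset C.disj hs, cnt_of_subset C.disj hs, cnt_of_subset C.disj hs,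
        cnt_of_subset C.disj hs, cnt_of_subset C.disj hs] at hd
      exact num_h hr (by simpa using hd)
    · have hs : ({x} : Set α) ⊆ C.Q 4 := singleton_subset_iff.2 h
      rw [cnt_of_subset C.disj hs, cnt_of_subset C.disj hs, cnt_of_subset C.disj hs,
        cnt_of_subset C.disj hs, cnt_of_subset C.disj hs] at hd
      exact num_e hr (by simpa using hd)
  have v3' : rk D.mat D.core = 3 * r - 2 := by
    have v3 := val3 hr hbig
    rw [hsel] at v3
    have ecore : (⋃ c ∈ ({0, 1, 2} : Finset (Fin 5)), D.Q c) = D.core := by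
      simp [Parts.core, union_assoc]
    rwa [ecore] at v3
  have hcoreK : D.core ⊆ K := by
    by_contra hcon
    -- then K is disjoint from the core
    have hdis : ∀ i : Fin 3, D.Q (c3 i) ∩ K = ∅ := by
      intro i
      rcases hom i with h | h
      · exfalso
        apply hcon
        exact union_subset (union_subset (pair i 0 h) (pair i 1 h)) (pair i 2 h)
      · exact h
    obtain ⟨x, hxK⟩ := hKne
    have hxc : x ∉ D.core := by
      rintro ((h | h) | h)
      · have := hdis 0; exact (this.le ⟨h, hxK⟩ : x ∈ (∅ : Set α))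
      · have := hdis 1; exact (this.le ⟨h, hxK⟩ : x ∈ (∅ : Set α))
      · have := hdis 2; exact (this.le ⟨h, hxK⟩ : x ∈ (∅ : Set α))
    obtain ⟨g1, g2⟩ := extra x (hKR hxK) hxc
    have e2 := hadd (D.core ∪ {x}) (union_subset h1 (singleton_subset_iff.2 (hKR hxK)))
    have hcd : D.core ∩ K = ∅ := by
      rw [eq_empty_iff_forall_notMem]
      rintro y ⟨((h | h) | h), hyK⟩
      · have := hdis 0; exact (this.le ⟨h, hyK⟩ : y ∈ (∅ : Set α))
      · have := hdis 1; exact (this.le ⟨h, hyK⟩ : y ∈ (∅ : Set α))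
      · have := hdis 2; exact (this.le ⟨h, hyK⟩ : y ∈ (∅ : Set α))
    have e3 : (D.core ∪ {x}) ∩ K = {x} := by
      rw [union_inter_distrib_right, hcd, empty_union,
        inter_eq_self_of_subset_left (singleton_subset_iff.2 hxK)]
    have e4 : (D.core ∪ {x}) \ K = D.core := by
      rw [union_sdiff_distrib, sdiff_eq_empty.2 (singleton_subset_iff.2 hxK), union_empty,
        sdiff_eq_self_iff_disjoint, disjoint_iff_inter_eq_empty, inter_comm]
      exact hcd
    rw [e3, e4, g1, g2, v3'] at e2
    omega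
  apply Subset.antisymm hKR
  intro x hx
  by_contra hxK
  have hxc : x ∉ D.core := fun h => hxK (hcoreK h)
  obtain ⟨g1, g2⟩ := extra x hx hxc
  have e2 := hadd (D.core ∪ {x}) (union_subset h1 (singleton_subset_iff.2 hx))
  have e3 : (D.core ∪ {x}) ∩ K = D.core := by
    rw [union_inter_distrib_right, inter_eq_self_of_subset_left hcoreK,
      singleton_inter_eq_empty.2 hxK, union_empty]
  have e4 : (D.core ∪ {x}) \ K = {x} := by
    rw [union_sdiff_distrib, sdiff_eq_empty.2 hcoreK, empty_union,
      sdiff_eq_self_iff_disjoint, disjoint_iff_inter_eq_empty, inter_comm]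
    exact singleton_inter_eq_empty.2 hxK
  rw [e3, e4, g1, g2, v3'] at e2
  omega

end Pool.Agent.CStar
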