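import Pool.Agent.Helper68.CStar.Skew

set_option linter.unusedVariables false

namespace Pool.Agent.CStar

open Set Matroid

set_option linter.unusedSectionVars false

variable {α : Type*} {N : Matroid α} [N.Finite] {r : ℕ}

/-- embedding of the indices of the large classes -/
def c3 (i : Fin 3) : Fin 5 := Fin.castLE (by norm_num) i

/-- a set having many elements in each large class and containing both special elements -/
structure Big (C : Cfg N r) (X : Set α) : Prop where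
  sub : X ⊆ C.E
  big : ∀ i : Fin 3, r ≤ cnt C.Q X (c3 i)
  h : cnt C.Q X 3 = 1
  e : cnt C.Q X 4 = 1

variable {C : Cfg N r} {X : Set α}

lemma Big.desc (hX : Big C X) (J : Finset (Fin 5)) :
    RkDesc r (if (0 : Fin 5) ∈ J then cnt C.Q X 0 else 0) (if (1 : Fin 5) ∈ J then cnt C.Q X 1 else 0)
      (if (2 : Fin 5) ∈ J then cnt C.Q X 2 else 0) (if (3 : Fin 5) ∈ J then cnt C.Q X 3 else 0)
      (if (4 : Fin 5) ∈ J then cnt C.Q X 4 else 0) (rk N (sel C.Q X J)) := by
  have := C.desc (sel C.Q X J) ((sel_subset _ _ _).trans hX.sub)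
  rwa [cnt_sel C.disj, cnt_sel C.disj, cnt_sel C.disj, cnt_sel C.disj, cnt_sel C.disj] at this

lemma Big.b0 (hX : Big C X) : r ≤ cnt C.Q X 0 := hX.big 0
lemma Big.b1 (hX : Big C X) : r ≤ cnt C.Q X 1 := hX.big 1
lemma Big.b2 (hX : Big C X) : r ≤ cnt C.Q X 2 := hX.big 2

lemma val1 (hr : 3 ≤ r) (hX : Big C X) (i : Fin 3) : rk N (sel C.Q X {c3 i}) = r := by
  have h := hX.desc {c3 i}
  fin_cases i
  · have := num_s0 hr (by simpa [c3] using h)
    rw [min_eq_right hX.b0] at this; exact this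
  · have := num_s1 hr (by simpa [c3] using h)
    rw [min_eq_right hX.b1] at this; exact this
  · have := num_s2 hr (by simpa [c3] using h)
    rw [min_eq_right hX.b2] at this; exact this

lemma val2 (hr : 3 ≤ r) (hX : Big C X) (i j : Fin 3) (hij : i ≠ j) :
    rk N (sel C.Q X {c3 i, c3 j}) = 2 * r - 1 := by
  have h := hX.desc {c3 i, c3 j}
  fin_cases i <;> fin_cases j
  · exact absurd rfl hij
  · exact num_d01 hr hX.b0 hX.b1 (by simpa [c3] using h)
  · exact num_d02 hr hX.b0 hX.b2 (by simpa [c3] using h)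
  · exact num_d01 hr hX.b0 hX.b1 (by simpa [c3] using h)
  · exact absurd rfl hij
  · exact num_d12 hr hX.b1 hX.b2 (by simpa [c3] using h)
  · exact num_d02 hr hX.b0 hX.b2 (by simpa [c3] using h)
  · exact num_d12 hr hX.b1 hX.b2 (by simpa [c3] using h)
  · exact absurd rfl hij

lemma valh (hr : 3 ≤ r) (hX : Big C X) (i : Fin 3) :
    rk N (sel C.Q X {c3 i, 3}) = r + 1 := by
  have h := hX.desc {c3 i, 3}
  rw [hX.h] at h
  fin_cases i
  · exact num_h0 hr hX.b0 (by simpa [c3] using h)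
  · exact num_h1 hr hX.b1 (by simpa [c3] using h)
  · exact num_h2 hr hX.b2 (by simpa [c3] using h)

lemma val2h (hr : 3 ≤ r) (hX : Big C X) (i j : Fin 3) (hij : i ≠ j) :
    rk N (sel C.Q X {c3 i, c3 j, 3}) = 2 * r := by
  have h := hX.desc {c3 i, c3 j, 3}
  rw [hX.h] at h
  fin_cases i <;> fin_cases j
  · exact absurd rfl hij
  · exact num_h01 hr hX.b0 hX.b1 (by simpa [c3] using h)
  · exact num_h02 hr hX.b0 hX.b2 (by simpa [c3] using h)
  · exact num_h01 hr hX.b0 hX.b1 (by simpa [c3] using h)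
  · exact absurd rfl hij
  · exact num_h12 hr hX.b1 hX.b2 (by simpa [c3] using h)
  · exact num_h02 hr hX.b0 hX.b2 (by simpa [c3] using h)
  · exact num_h12 hr hX.b1 hX.b2 (by simpa [c3] using h)
  · exact absurd rfl hij

lemma val3 (hr : 3 ≤ r) (hX : Big C X) : rk N (sel C.Q X {0, 1, 2}) = 3 * r - 2 := by
  have h := hX.desc {0, 1, 2}
  exact num_t hr hX.b0 hX.b1 hX.b2 (by simpa using h)

lemma val3h (hr : 3 ≤ r) (hX : Big C X) : rk N (sel C.Q X {0, 1, 2, 3}) = 3 * r - 2 := by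
  have h := hX.desc {0, 1, 2, 3}
  rw [hX.h] at h
  exact num_th hr hX.b0 hX.b1 hX.b2 (by simpa using h)

lemma valhe0 (hr : 3 ≤ r) (hX : Big C X) : rk N (sel C.Q X {0, 3, 4}) = r + 1 := by
  have h := hX.desc {0, 3, 4}
  rw [hX.h, hX.e] at h
  exact num_he0 hr hX.b0 (by simpa using h)

lemma valhe1 (hr : 3 ≤ r) (hX : Big C X) : rk N (sel C.Q X {1, 3, 4}) = r + 1 := by
  have h := hX.desc {1, 3, 4}
  rw [hX.h, hX.e] at h
  exact num_he1 hr hX.b1 (by simpa using h)

lemma valhe2 (hr : 3 ≤ r) (hX : Big C X) : rk N (sel C.Q X {2, 3, 4}) = r + 2 := by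
  have h := hX.desc {2, 3, 4}
  rw [hX.h, hX.e] at h
  exact num_he2 hr hX.b2 (by simpa using h)

/-- submodularity, both sets enlarged by `L` -/
lemma subLL (Q : Fin 5 → Set α) (X L : Set α) {I U J J' : Finset (Fin 5)} (h1 : I ⊆ J)
    (h2 : I ⊆ J') (h3 : U ⊆ J ∪ J') :
    rk N (sel Q X I ∪ L) + rk N (sel Q X U ∪ L) ≤ rk N (sel Q X J ∪ L) + rk N (sel Q X J' ∪ L) := by
  apply rk_submod'
  · rintro y (h | h)
    · have := sel_mono Q X h3 h
      rw [sel_union] at this
      rcases this with h' | h'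
      · exact Or.inl (Or.inl h')
      · exact Or.inr (Or.inl h')
    · exact Or.inr (Or.inr h)
  · exact union_subset_union_left _ (sel_mono Q X h1)
  · exact union_subset_union_left _ (sel_mono Q X h2)

/-- submodularity, one set enlarged by `L` -/
lemma subL (Q : Fin 5 → Set α) (X L : Set α) {I U J J' : Finset (Fin 5)} (h1 : I ⊆ J)
    (h2 : I ⊆ J') (h3 : U ⊆ J ∪ J') :
    rk N (sel Q X I) + rk N (sel Q X U ∪ L) ≤ rk N (sel Q X J ∪ L) + rk N (sel Q X J') := by
  apply rk_submod'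
  · rintro y (h | h)
    · have := sel_mono Q X h3 h
      rw [sel_union] at this
      rcases this with h' | h'
      · exact Or.inl (Or.inl h')
      · exact Or.inr h'
    · exact Or.inl (Or.inr h)
  · exact (sel_mono Q X h1).trans subset_union_left
  · exact sel_mono Q X h2

lemma sel_empty (Q : Fin 5 → Set α) (X : Set α) : sel Q X ∅ = ∅ := by simp [sel]

/-- No element of any extension is common to the spans of the three large classes. -/
lemma noPoint (hr : 3 ≤ r) (hX : Big C X) (L : Set α) (hL : 1 ≤ rk N L)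
    (hi : ∀ i : Fin 3, rk N (sel C.Q X {c3 i} ∪ L) ≤ r) : False := by
  have h0 := hi 0
  have h1 := hi 1
  have h2 := hi 2
  change rk N (sel C.Q X {0} ∪ L) ≤ r at h0
  change rk N (sel C.Q X {1} ∪ L) ≤ r at h1
  change rk N (sel C.Q X {2} ∪ L) ≤ r at h2
  have v0 : rk N (sel C.Q X {0}) = r := val1 hr hX 0
  have v1 : rk N (sel C.Q X {1}) = r := val1 hr hX 1
  have v2 : rk N (sel C.Q X {2}) = r := val1 hr hX 2
  have vh0 : rk N (sel C.Q X {0, 3}) = r + 1 := valh hr hX 0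
  have vh2 : rk N (sel C.Q X {2, 3}) = r + 1 := valh hr hX 2
  have vh01 : rk N (sel C.Q X {0, 1, 3}) = 2 * r := val2h hr hX 0 1 (by decide)
  have ve0 := valhe0 hr hX
  have ve1 := valhe1 hr hX
  have ve2 := valhe2 hr hX
  -- ranks with `L`
  have a0 : rk N (sel C.Q X {0}) + rk N (sel C.Q X {0, 3, 4} ∪ L) ≤
      rk N (sel C.Q X {0} ∪ L) + rk N (sel C.Q X {0, 3, 4}) :=
    subL _ _ _ (by decide) (by decide) (by decide)
  have a1 : rk N (sel C.Q X {1}) + rk N (sel C.Q X {1, 3, 4} ∪ L) ≤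
      rk N (sel C.Q X {1} ∪ L) + rk N (sel C.Q X {1, 3, 4}) :=
    subL _ _ _ (by decide) (by decide) (by decide)
  have a2 : rk N (sel C.Q X {3, 4} ∪ L) + rk N (sel C.Q X {0, 1, 3} ∪ L) ≤
      rk N (sel C.Q X {0, 3, 4} ∪ L) + rk N (sel C.Q X {1, 3, 4} ∪ L) :=
    subLL _ _ _ (by decide) (by decide) (by decide)
  have a3 : rk N (sel C.Q X {0, 1, 3}) ≤ rk N (sel C.Q X {0, 1, 3} ∪ L) :=
    rk_mono subset_union_left
  have a4 : rk N (sel C.Q X {2}) + rk N (sel C.Q X {2, 3} ∪ L) ≤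
      rk N (sel C.Q X {2} ∪ L) + rk N (sel C.Q X {2, 3}) :=
    subL _ _ _ (by decide) (by decide) (by decide)
  have a5 : rk N (sel C.Q X {3} ∪ L) + rk N (sel C.Q X {2, 3, 4} ∪ L) ≤
      rk N (sel C.Q X {2, 3} ∪ L) + rk N (sel C.Q X {3, 4} ∪ L) :=
    subLL _ _ _ (by decide) (by decide) (by decide)
  have a6 : rk N (sel C.Q X {2, 3, 4}) ≤ rk N (sel C.Q X {2, 3, 4} ∪ L) :=
    rk_mono subset_union_left
  have a7 : rk N (sel C.Q X ∅ ∪ L) + rk N (sel C.Q X {0, 3} ∪ L) ≤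
      rk N (sel C.Q X {0} ∪ L) + rk N (sel C.Q X {3} ∪ L) :=
    subLL _ _ _ (by decide) (by decide) (by decide)
  rw [sel_empty, empty_union] at a7
  have a8 : rk N (sel C.Q X {0, 3}) ≤ rk N (sel C.Q X {0, 3} ∪ L) :=
    rk_mono subset_union_left
  omega

/-- With a contracted set of rank at most one, no large class splits off. -/
lemma noSplit1 (hr : 3 ≤ r) (hX : Big C X) (L : Set α) (hL : rk N L ≤ 1) (i j k : Fin 3)
    (hij : i ≠ j) (hik : i ≠ k) (hjk : j ≠ k)
    (hs : rk N (sel C.Q X {c3 i} ∪ L) + rk N (sel C.Q X {c3 j, c3 k} ∪ L) ≤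
      rk N (sel C.Q X {0, 1, 2} ∪ L) + rk N L) : False := by
  have v3 := val3 hr hX
  have hvi := val1 hr hX i
  have hvj := val1 hr hX j
  have hvk := val1 hr hX k
  have hvjk := val2 hr hX j k hjk
  have hvij := val2 hr hX i j hij
  have hvik := val2 hr hX i k hik
  have a1 : rk N (sel C.Q X {c3 j, c3 k}) + rk N (sel C.Q X {0, 1, 2} ∪ L) ≤
      rk N (sel C.Q X {c3 j, c3 k} ∪ L) + rk N (sel C.Q X {0, 1, 2}) := by
    apply subL
    · exact Finset.Subset.refl _
    · fin_cases j <;> fin_cases k <;> decide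
    · exact Finset.subset_union_right
  have a2 : rk N (sel C.Q X {c3 i}) + rk N (sel C.Q X {0, 1, 2} ∪ L) ≤
      rk N (sel C.Q X {c3 i} ∪ L) + rk N (sel C.Q X {0, 1, 2}) := by
    apply subL
    · exact Finset.Subset.refl _
    · fin_cases i <;> decide
    · exact Finset.subset_union_right
  have m1 : rk N (sel C.Q X {c3 i}) ≤ rk N (sel C.Q X {c3 i} ∪ L) := rk_mono subset_union_left
  have m2 : rk N (sel C.Q X {c3 j, c3 k}) ≤ rk N (sel C.Q X {c3 j, c3 k} ∪ L) :=
    rk_mono subset_union_left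
  have m3 : rk N (sel C.Q X {0, 1, 2}) ≤ rk N (sel C.Q X {0, 1, 2} ∪ L) :=
    rk_mono subset_union_left
  -- so `rk L = 1`
  have a3 : ∀ m : Fin 3, i ≠ m → rk N (sel C.Q X {c3 i}) + rk N (sel C.Q X {c3 i, c3 m} ∪ L) ≤
      rk N (sel C.Q X {c3 i} ∪ L) + rk N (sel C.Q X {c3 i, c3 m}) := by
    intro m hm
    apply subL
    · exact Finset.Subset.refl _
    · intro x hx; simp at hx ⊢; tauto
    · exact Finset.subset_union_right
  have a4 : rk N (sel C.Q X {c3 j} ∪ L) + rk N (sel C.Q X {0, 1, 2} ∪ L) ≤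
      rk N (sel C.Q X {c3 i, c3 j} ∪ L) + rk N (sel C.Q X {c3 j, c3 k} ∪ L) := by
    apply subLL
    · intro x hx; simp at hx ⊢; tauto
    · intro x hx; simp at hx ⊢; tauto
    · revert hij hik hjk
      fin_cases i <;> fin_cases j <;> fin_cases k <;> decide
  have a5 : rk N (sel C.Q X {c3 k} ∪ L) + rk N (sel C.Q X {0, 1, 2} ∪ L) ≤
      rk N (sel C.Q X {c3 i, c3 k} ∪ L) + rk N (sel C.Q X {c3 j, c3 k} ∪ L) := by
    apply subLL
    · intro x hx; simp at hx ⊢; tauto
    · intro x hx; simp at hx ⊢; tauto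
    · revert hij hik hjk
      fin_cases i <;> fin_cases j <;> fin_cases k <;> decide
  have a3j := a3 j hij
  have a3k := a3 k hik
  apply noPoint hr hX L (by omega)
  intro m
  have hm : m = i ∨ m = j ∨ m = k := by
    clear a5 a4 a3 a3j a3k m1 m2 m3 a1 a2 hs hvi hvj hvk hvjk hvij hvik
    revert i j k m
    decide
  rcases hm with rfl | rfl | rfl
  · omega
  · omega
  · omega

/-- With a contracted set of rank at most two the three classes are not pairwise separated. -/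
lemma noSplit2 (hr : 3 ≤ r) (hX : Big C X) (L : Set α) (hL : rk N L ≤ 2) (i j m : Fin 3)
    (hij : i ≠ j) (him : i ≠ m) (hjm : j ≠ m)
    (h1 : rk N (sel C.Q X {c3 i} ∪ L) + rk N (sel C.Q X {c3 j, c3 m, 3} ∪ L) ≤
      rk N (sel C.Q X {0, 1, 2, 3} ∪ L) + rk N L)
    (h2 : rk N (sel C.Q X {c3 j} ∪ L) + rk N (sel C.Q X {c3 i, c3 m, 3} ∪ L) ≤
      rk N (sel C.Q X {0, 1, 2, 3} ∪ L) + rk N L) : False := by
  have v3 := val3h hr hX
  have hvi := val1 hr hX i
  have hvj := val1 hr hX j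
  have hvij := val2 hr hX i j hij
  have w1 := val2h hr hX j m hjm
  have w2 := val2h hr hX i m him
  have a1 : rk N (sel C.Q X {c3 j, c3 m, 3}) + rk N (sel C.Q X {0, 1, 2, 3} ∪ L) ≤
      rk N (sel C.Q X {c3 j, c3 m, 3} ∪ L) + rk N (sel C.Q X {0, 1, 2, 3}) := by
    apply subL
    · exact Finset.Subset.refl _
    · fin_cases j <;> fin_cases m <;> decide
    · exact Finset.subset_union_right
  have a2 : rk N (sel C.Q X {c3 i, c3 m, 3}) + rk N (sel C.Q X {0, 1, 2, 3} ∪ L) ≤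
      rk N (sel C.Q X {c3 i, c3 m, 3} ∪ L) + rk N (sel C.Q X {0, 1, 2, 3}) := by
    apply subL
    · exact Finset.Subset.refl _
    · fin_cases i <;> fin_cases m <;> decide
    · exact Finset.subset_union_right
  have m1 : rk N (sel C.Q X {c3 i}) ≤ rk N (sel C.Q X {c3 i} ∪ L) := rk_mono subset_union_left
  have m2 : rk N (sel C.Q X {c3 j}) ≤ rk N (sel C.Q X {c3 j} ∪ L) := rk_mono subset_union_left
  have m3 : rk N (sel C.Q X {c3 i, c3 j}) ≤ rk N (sel C.Q X {c3 i, c3 j} ∪ L) :=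
    rk_mono subset_union_left
  have a3 : rk N (sel C.Q X ∅ ∪ L) + rk N (sel C.Q X {c3 i, c3 j} ∪ L) ≤
      rk N (sel C.Q X {c3 i} ∪ L) + rk N (sel C.Q X {c3 j} ∪ L) := by
    apply subLL
    · exact Finset.empty_subset _
    · exact Finset.empty_subset _
    · intro x hx; simp at hx ⊢; tauto
  rw [sel_empty, empty_union] at a3
  omega

end Pool.Agent.CStar
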